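import Pool.Agent.H.MP_7a8a58_gt.h59.Rho

/-! # Module Act: the action on `ℝ^q × ℝ^p`

`act C g (w, v) = (W g w + Q g v + s g, V g v + t g)` with the integral matrices cast to `ℝ`.
`act_one`, `act_mul`: from `Q_mul`, `t_mul`, `s_mul` (and `Q 1 = 0`, `t 1 = 0`, `s 1 = 0`).
`act_proper`: for every compact `K₀` the set of the `g` with `g K₀ ∩ K₀ ≠ ∅` is finite.
Choose finitely many representatives: every `g ∈ Γ` is `r * h`, `r` in a finite set, `h ∈ N`
(`D.fin`); `g K₀ ∩ K₀ ≠ ∅` gives `h K₀ ∩ r⁻¹ K₀ ≠ ∅`.  So (balls) it is enough that for every `ρ` the set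
of the `h ∈ N` with `‖x‖ ≤ ρ`, `‖act h x‖ ≤ ρ` for some `x` is finite: `V h = 1`, `t h = k • π h`, so
`|k π h| ≤ 2 ρ` coordinatewise and `π h` is in a finite set; for every value `y` of `π` fix `h_y ∈ N` with
`π h_y = y`; `h = ι a * h_y` (`π_ker` for `h * h_y⁻¹`); `act (ι a) x' = x' + (K a, 0)` (`W_ι`, `Q_ι`, `s_ι`,
`t_N`), `x' = act h_y x` is bounded by a constant depending on `y` and `ρ` (continuity on a ball),
so `|K a| ≤ ρ + const` and `a` is in a finite set.
`act_cocompact`: given `(w, v)` take `y : ℤ^p` with `0 ≤ v_j + k y_j ≤ k` (`Int.floor`), `h ∈ N` with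
`π h = y`, `(w', v') = act h (w, v)`, `v' = v + k y`, and `a : ℤ^q` with `0 ≤ w'_i + K a_i ≤ K`;
`act (ι a * h) (w, v) = (w' + K a, v')` is in the compact box `[0, K]^q × [0, k]^p`. -/

set_option autoImplicit false

open Matrix

namespace H59E

variable {Γ : Type} [Group Γ] {q p : ℕ}

/-- real matrix of an integral one -/
def realM {m n : ℕ} (A : Matrix (Fin m) (Fin n) ℤ) : Matrix (Fin m) (Fin n) ℝ :=
  A.map (fun x : ℤ => (x : ℝ))

/-- real vector of an integral one -/
def realV {n : ℕ} (a : Fin n → ℤ) : Fin n → ℝ := fun i => (a i : ℝ)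

private theorem Act_realM_mul {l m n : ℕ} (A : Matrix (Fin l) (Fin m) ℤ)
    (B : Matrix (Fin m) (Fin n) ℤ) : realM (A * B) = realM A * realM B := by
  unfold realM
  exact Matrix.map_mul (f := Int.castRingHom ℝ)

private theorem Act_realM_one {n : ℕ} : realM (1 : Matrix (Fin n) (Fin n) ℤ) = 1 := by
  unfold realM
  exact Matrix.map_one _ (by simp) (by simp)

private theorem Act_realM_zero {m n : ℕ} : realM (0 : Matrix (Fin m) (Fin n) ℤ) = 0 := by
  ext i j
  simp [realM]

private theorem Act_realM_add {m n : ℕ} (A B : Matrix (Fin m) (Fin n) ℤ) :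
    realM (A + B) = realM A + realM B := by
  ext i j
  simp [realM]

private theorem Act_realV_add {n : ℕ} (a b : Fin n → ℤ) : realV (a + b) = realV a + realV b := by
  funext i
  simp [realV]

private theorem Act_realV_zero {n : ℕ} : realV (0 : Fin n → ℤ) = 0 := by
  funext i
  simp [realV]

private theorem Act_realM_mulVec {m n : ℕ} (A : Matrix (Fin m) (Fin n) ℤ) (a : Fin n → ℤ) :
    realV (A *ᵥ a) = realM A *ᵥ realV a := by
  funext i
  simp [realV, realM, Matrix.mulVec, dotProduct]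

/-- the action on `ℝ^q × ℝ^p`. -/
def act {D : Pre Γ q p} {R : Rho D} (C : ICoc D R) (g : Γ) (x : (Fin q → ℝ) × (Fin p → ℝ)) :
    (Fin q → ℝ) × (Fin p → ℝ) :=
  (realM (R.W g).val *ᵥ x.1 + realM (C.Q g) *ᵥ x.2 + realV (C.s g),
    realM (R.V g).val *ᵥ x.2 + realV (C.t g))

theorem ICoc.Q_one {D : Pre Γ q p} {R : Rho D} (C : ICoc D R) : C.Q 1 = 0 := by
  have h := C.Q_mul 1 1
  rw [map_one, map_one, Units.val_one, Units.val_one, Matrix.one_mul, Matrix.mul_one,
    mul_one] at h
  exact left_eq_add.1 h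

theorem ICoc.t_one {D : Pre Γ q p} {R : Rho D} (C : ICoc D R) : C.t 1 = 0 := by
  have h := C.t_mul 1 1
  rw [map_one, Units.val_one, Matrix.one_mulVec, mul_one] at h
  exact left_eq_add.1 h

theorem ICoc.s_one {D : Pre Γ q p} {R : Rho D} (C : ICoc D R) : C.s 1 = 0 := by
  have h := C.s_mul 1 1
  rw [map_one, Units.val_one, Matrix.one_mulVec, mul_one, C.Q_one, Matrix.zero_mulVec,
    add_zero] at h
  exact left_eq_add.1 h

theorem act_one {D : Pre Γ q p} {R : Rho D} (C : ICoc D R) (x : (Fin q → ℝ) × (Fin p → ℝ)) :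
    act C 1 x = x := by
  unfold act
  rw [map_one, map_one, Units.val_one, Units.val_one, C.Q_one, C.t_one, C.s_one, Act_realM_one,
    Act_realM_one, Act_realM_zero, Act_realV_zero, Act_realV_zero, Matrix.one_mulVec,
    Matrix.one_mulVec, Matrix.zero_mulVec, add_zero, add_zero, add_zero]

theorem act_mul {D : Pre Γ q p} {R : Rho D} (C : ICoc D R) (g h : Γ)
    (x : (Fin q → ℝ) × (Fin p → ℝ)) : act C (g * h) x = act C g (act C h x) := by
  unfold act
  rw [C.Q_mul, C.t_mul, C.s_mul, map_mul, map_mul, Units.val_mul, Units.val_mul]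
  refine Prod.ext ?_ ?_
  · show realM ((R.W g).val * (R.W h).val) *ᵥ x.1 +
      realM ((R.W g).val * C.Q h + C.Q g * (R.V h).val) *ᵥ x.2 +
      realV (C.s g + (R.W g).val *ᵥ C.s h + C.Q g *ᵥ C.t h) =
      realM (R.W g).val *ᵥ (realM (R.W h).val *ᵥ x.1 + realM (C.Q h) *ᵥ x.2 + realV (C.s h)) +
        realM (C.Q g) *ᵥ (realM (R.V h).val *ᵥ x.2 + realV (C.t h)) + realV (C.s g)
    rw [Act_realM_mul, Act_realM_add, Act_realM_mul, Act_realM_mul, Act_realV_add, Act_realV_add,
      Act_realM_mulVec, Act_realM_mulVec]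
    simp only [Matrix.add_mulVec, Matrix.mulVec_add, Matrix.mulVec_mulVec]
    abel
  · show realM ((R.V g).val * (R.V h).val) *ᵥ x.2 + realV (C.t g + (R.V g).val *ᵥ C.t h) =
      realM (R.V g).val *ᵥ (realM (R.V h).val *ᵥ x.2 + realV (C.t h)) + realV (C.t g)
    rw [Act_realM_mul, Act_realV_add, Act_realM_mulVec]
    simp only [Matrix.mulVec_add, Matrix.mulVec_mulVec]
    abel

theorem act_continuous {D : Pre Γ q p} {R : Rho D} (C : ICoc D R) (g : Γ) :
    Continuous (act C g) := by
  unfold act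
  refine Continuous.prodMk ?_ ?_
  · refine (Continuous.add (Continuous.add ?_ ?_) continuous_const)
    · exact Continuous.matrix_mulVec continuous_const continuous_fst
    · exact Continuous.matrix_mulVec continuous_const continuous_snd
  · exact (Continuous.matrix_mulVec continuous_const continuous_snd).add continuous_const

end H59E
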