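import Pool.Agent.H.MP_7a8a58_gt.h59.Defs

/-! # Module CenFG: the center of a f.g. nilpotent group of class `≤ 2` is f.g.

Let `S` be a finite generating set and `C` the subgroup generated by the commutators `⁅s, t⁆`,
`s, t ∈ S` (finitely generated and central, so normal).  In `N / C` the generators commute, so
`N / C` is abelian and f.g.; its subgroups are f.g. (`ℤ` Noetherian:
`Additive (N / C)` is a Noetherian `ℤ`-module).  The image of the center in `N / C` is f.g. and `C` is
f.g., so the center is f.g. (lift generators of the image and add the generators of `C`).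
`sub_fg`: subgroups of f.g. abelian groups are f.g. -/

set_option autoImplicit false

namespace H59E

theorem sub_fg {A : Type*} [CommGroup A] (hfg : Group.FG A) (H : Subgroup A) : H.FG := by
  have h1 : AddGroup.FG (Additive A) := GroupFG.iff_add_fg.1 hfg
  have h2 : Module.Finite ℤ (Additive A) := Module.Finite.iff_addGroup_fg.2 h1
  have h3 : IsNoetherian ℤ (Additive A) := inferInstance
  rw [Subgroup.fg_iff_add_fg]
  have h4 : (AddSubgroup.toIntSubmodule (Subgroup.toAddSubgroup H)).FG := IsNoetherian.noetherian _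
  have h5 := (Submodule.fg_iff_addSubgroup_fg _).1 h4
  simpa using h5

theorem center_fg {N : Type*} [Group N] (hfg : Group.FG N)
    (h2 : ∀ x y z : N, x * y * x⁻¹ * y⁻¹ * z = z * (x * y * x⁻¹ * y⁻¹)) : (Subgroup.center N).FG := by
  classical
  obtain ⟨S, hS, hSf⟩ := Group.fg_iff.1 hfg
  have hcen : ∀ x y : N, x * y * x⁻¹ * y⁻¹ ∈ Subgroup.center N := fun x y =>
    Subgroup.mem_center_iff.2 (fun z => (h2 x y z).symm)
  set K : Set N := Set.image2 (fun x y => x * y * x⁻¹ * y⁻¹) S S with hK
  have hKf : K.Finite := Set.Finite.image2 _ hSf hSf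
  set C : Subgroup N := Subgroup.closure K with hC
  have hCle : C ≤ Subgroup.center N := by
    rw [hC, Subgroup.closure_le]
    rintro _ ⟨x, _, y, _, rfl⟩
    exact hcen x y
  have hCn : C.Normal := by
    constructor
    intro n hn g
    have h := Subgroup.mem_center_iff.1 (hCle hn) g
    rw [h, mul_inv_cancel_right]
    exact hn
  have hcomm : ∀ x y : N ⧸ C, x * y = y * x := by
    have hgen : ∀ s ∈ S, ∀ y : N, ((s : N) : N ⧸ C) * (y : N ⧸ C) = (y : N ⧸ C) * (s : N ⧸ C) := by
      intro s hs y
      have hy : y ∈ Subgroup.closure S := by rw [hS]; trivial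
      induction hy using Subgroup.closure_induction with
      | mem t ht =>
        rw [← QuotientGroup.mk_mul, ← QuotientGroup.mk_mul, QuotientGroup.eq]
        have h4 : (s * t)⁻¹ * (t * s * t⁻¹ * s⁻¹) * (s * t) = (s * t)⁻¹ * (t * s) := by group
        rw [← h4]
        have h5 : t * s * t⁻¹ * s⁻¹ ∈ C := Subgroup.subset_closure ⟨t, ht, s, hs, rfl⟩
        have h6 := hCn.conj_mem _ h5 (s * t)⁻¹
        rwa [inv_inv] at h6
      | one => simp
      | mul a b _ _ ha hb =>
        rw [QuotientGroup.mk_mul, ← mul_assoc, ha, mul_assoc, hb, mul_assoc]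
      | inv a _ ha =>
        rw [QuotientGroup.mk_inv]
        exact Commute.inv_right (a := (s : N ⧸ C)) (b := (a : N ⧸ C)) ha
    have hall : ∀ x : N, ∀ y : N, (x : N ⧸ C) * (y : N ⧸ C) = (y : N ⧸ C) * (x : N ⧸ C) := by
      intro x y
      have hx : x ∈ Subgroup.closure S := by rw [hS]; trivial
      induction hx using Subgroup.closure_induction with
      | mem t ht => exact hgen t ht y
      | one => simp
      | mul a b _ _ ha hb =>
        rw [QuotientGroup.mk_mul, mul_assoc, hb, ← mul_assoc, ha, mul_assoc]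
      | inv a _ ha =>
        rw [QuotientGroup.mk_inv]
        exact Commute.inv_left (a := (a : N ⧸ C)) (b := (y : N ⧸ C)) ha
    intro x y
    obtain ⟨a, rfl⟩ := QuotientGroup.mk_surjective x
    obtain ⟨b, rfl⟩ := QuotientGroup.mk_surjective y
    exact hall a b
  let inst : CommGroup (N ⧸ C) := { (inferInstance : Group (N ⧸ C)) with mul_comm := hcomm }
  have hQfg : Group.FG (N ⧸ C) := by
    have := hfg
    exact Group.fg_of_surjective (f := QuotientGroup.mk' C) (QuotientGroup.mk'_surjective C)
  have hH : ((Subgroup.center N).map (QuotientGroup.mk' C)).FG := sub_fg (A := N ⧸ C) hQfg _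
  obtain ⟨T, hT, hTf⟩ := (Subgroup.fg_iff _).1 hH
  have hlift : ∀ t ∈ T, ∃ z : N, z ∈ Subgroup.center N ∧ QuotientGroup.mk' C z = t := by
    intro t ht
    have : t ∈ (Subgroup.center N).map (QuotientGroup.mk' C) := by
      rw [← hT]
      exact Subgroup.subset_closure ht
    obtain ⟨z, hz, hzt⟩ := Subgroup.mem_map.1 this
    exact ⟨z, hz, hzt⟩
  choose! f hf1 hf2 using hlift
  rw [Subgroup.fg_iff]
  refine ⟨f '' T ∪ K, ?_, (hTf.image f).union hKf⟩
  apply le_antisymm
  · rw [Subgroup.closure_le]
    rintro x (⟨t, ht, rfl⟩ | hx)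
    · exact hf1 t ht
    · exact hCle (Subgroup.subset_closure hx)
  · intro z hz
    have hz' : QuotientGroup.mk' C z ∈ Subgroup.closure T := by
      rw [hT]
      exact Subgroup.mem_map_of_mem _ hz
    have key : ∀ q ∈ Subgroup.closure T, ∃ w ∈ Subgroup.closure (f '' T ∪ K), QuotientGroup.mk' C w = q := by
      intro q hq
      induction hq using Subgroup.closure_induction with
      | mem t ht => exact ⟨f t, Subgroup.subset_closure (Or.inl ⟨t, ht, rfl⟩), hf2 t ht⟩
      | one => exact ⟨1, Subgroup.one_mem _, map_one _⟩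
      | mul a b _ _ ha hb =>
        obtain ⟨u, hu, hu'⟩ := ha
        obtain ⟨v, hv, hv'⟩ := hb
        exact ⟨u * v, Subgroup.mul_mem _ hu hv, by rw [map_mul, hu', hv']⟩
      | inv a _ ha =>
        obtain ⟨u, hu, hu'⟩ := ha
        exact ⟨u⁻¹, Subgroup.inv_mem _ hu, by rw [map_inv, hu']⟩
    obtain ⟨w, hw, hwz⟩ := key _ hz'
    have h7 : w⁻¹ * z ∈ C := by
      rw [← QuotientGroup.eq]
      exact hwz
    have h8 : C ≤ Subgroup.closure (f '' T ∪ K) := Subgroup.closure_mono Set.subset_union_right
    have h9 := Subgroup.mul_mem _ hw (h8 h7)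
    rwa [mul_inv_cancel_left] at h9

end H59E
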