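import Pool.Agent.H.MP_7a8a58_gt.h59.CocC

/-! # Module CocB: the affine action of `Γ`

Take `c` from `exists_c`.  `E = (Fin q → ℚ) × Matrix (Fin q) (Fin p) ℚ` (`(b, B)` stands for the affine
map `v ↦ b + B v`), `ρ g (b, B) = (W b - W B V⁻¹ c, W B V⁻¹)` with `W = qM (R.W g)`,
`V⁻¹ = qM (R.V g)⁻¹ = qM (R.V g⁻¹)`, `c = c g`.  It is a monoid homomorphism `Γ →* (E →ₗ[ℚ] E)`: use
`c (g h) = c g + V g c h`, so `V(g h)⁻¹ c (g h) = V h⁻¹ V g⁻¹ c g + V h⁻¹ c h`; and `c 1 = 0`.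
`z h = (C.b h, C.B h)` with `C : Cocyc D R`: for `g, h ∈ N` (`V g = 1` by `Rho.V_N`, `c g = qV (π g)`)
`ρ g (z h) = (W (b h - B h π g), W B h)`, so `hz` is `C.b_mul`, `C.B_mul`.
`transfer` gives `Z g = (b' g, B' g)`; put `B g = B' g * V g`, `b g = b' g + B' g *ᵥ c g`:
`B (g h) = (B' g + W g B' h V g⁻¹) V g V h = B g V h + W g B h`;
`b (g h) = b' g + W g b' h - W g B' h V g⁻¹ c g + (B' g + W g B' h V g⁻¹) (c g + V g c h)
  = (b' g + B' g c g) + W g (b' h + B' h c h) + B' g V g c h = b g + W g b h + B g c h`.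
On `a = ι a₀` : `z a = (qV a₀, 0)`, `g⁻¹ a g = ι (W g⁻¹ a₀)`, `ρ g (z (g⁻¹ a g)) = (qV a₀, 0)`, so
`Z a = (qV a₀, 0)`; `V a = 1`, `c a = qV (π a) = 0`. -/

set_option autoImplicit false

open Matrix

namespace H59E

variable {Γ : Type} [Group Γ] {q p : ℕ}

/-- the linear action on the affine maps -/
private def CocB_rho (W : Matrix (Fin q) (Fin q) ℚ) (U : Matrix (Fin p) (Fin p) ℚ)
    (c : Fin p → ℚ) :
    ((Fin q → ℚ) × Matrix (Fin q) (Fin p) ℚ) →ₗ[ℚ] ((Fin q → ℚ) × Matrix (Fin q) (Fin p) ℚ) where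
  toFun x := (W *ᵥ x.1 - (W * x.2 * U) *ᵥ c, W * x.2 * U)
  map_add' x y := by
    ext1
    · show W *ᵥ (x.1 + y.1) - (W * (x.2 + y.2) * U) *ᵥ c =
        (W *ᵥ x.1 - (W * x.2 * U) *ᵥ c) + (W *ᵥ y.1 - (W * y.2 * U) *ᵥ c)
      rw [Matrix.mulVec_add, Matrix.mul_add, Matrix.add_mul, Matrix.add_mulVec]
      abel
    · show W * (x.2 + y.2) * U = W * x.2 * U + W * y.2 * U
      rw [Matrix.mul_add, Matrix.add_mul]
  map_smul' r x := by
    ext1
    · show W *ᵥ (r • x.1) - (W * (r • x.2) * U) *ᵥ c =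
        r • (W *ᵥ x.1 - (W * x.2 * U) *ᵥ c)
      rw [Matrix.mulVec_smul, Matrix.mul_smul, Matrix.smul_mul, Matrix.smul_mulVec, smul_sub]
    · show W * (r • x.2) * U = r • (W * x.2 * U)
      rw [Matrix.mul_smul, Matrix.smul_mul]

private theorem CocB_rho_apply (W : Matrix (Fin q) (Fin q) ℚ) (U : Matrix (Fin p) (Fin p) ℚ)
    (c : Fin p → ℚ) (b : Fin q → ℚ) (B : Matrix (Fin q) (Fin p) ℚ) :
    CocB_rho W U c (b, B) = (W *ᵥ b - (W * B * U) *ᵥ c, W * B * U) := rfl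

theorem exists_coc (D : Pre Γ q p) (R : Rho D) (C : Cocyc D R) : Nonempty (Coc D R) := by
  have hNn : D.N.Normal := D.nor
  have hNf : D.N.FiniteIndex := D.fin
  obtain ⟨c, hc, hcN⟩ := exists_c D R
  obtain ⟨W, hW⟩ : ∃ W : Γ → Matrix (Fin q) (Fin q) ℚ, ∀ g, W g = qM (R.W g).val :=
    ⟨_, fun _ => rfl⟩
  obtain ⟨V, hV⟩ : ∃ V : Γ → Matrix (Fin p) (Fin p) ℚ, ∀ g, V g = qM (R.V g).val :=
    ⟨_, fun _ => rfl⟩
  have hW1 : W 1 = 1 := by
    rw [hW, map_one, Units.val_one, qM_one]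
  have hV1 : V 1 = 1 := by
    rw [hV, map_one, Units.val_one, qM_one]
  have hWm : ∀ g h, W (g * h) = W g * W h := by
    intro g h
    rw [hW, hW, hW, map_mul, Units.val_mul, qM_mul]
  have hVm : ∀ g h, V (g * h) = V g * V h := by
    intro g h
    rw [hV, hV, hV, map_mul, Units.val_mul, qM_mul]
  have hVi : ∀ g, V g⁻¹ * V g = 1 := by
    intro g
    rw [← hVm, inv_mul_cancel, hV1]
  simp only [← hV] at hc
  have hc1 : c 1 = 0 := by
    have h := hc 1 1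
    rw [mul_one, hV1, Matrix.one_mulVec] at h
    exact left_eq_add.1 h
  obtain ⟨ρ, hρ⟩ : ∃ ρ : Γ →* (((Fin q → ℚ) × Matrix (Fin q) (Fin p) ℚ) →ₗ[ℚ]
      ((Fin q → ℚ) × Matrix (Fin q) (Fin p) ℚ)), ∀ g, ρ g = CocB_rho (W g) (V g⁻¹) (c g) := by
    refine ⟨{ toFun := fun g => CocB_rho (W g) (V g⁻¹) (c g), map_one' := ?_, map_mul' := ?_ },
      fun g => rfl⟩
    · refine LinearMap.ext fun x => ?_
      obtain ⟨b, B⟩ := x
      rw [CocB_rho_apply, inv_one, hW1, hV1, hc1, Matrix.one_mulVec, Matrix.one_mul,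
        Matrix.mul_one, Matrix.mulVec_zero, sub_zero]
      rfl
    · intro g h
      refine LinearMap.ext fun x => ?_
      obtain ⟨b, B⟩ := x
      rw [Module.End.mul_apply, CocB_rho_apply, CocB_rho_apply, CocB_rho_apply]
      have e1 : W (g * h) * B * V (g * h)⁻¹ = W g * (W h * B * V h⁻¹) * V g⁻¹ := by
        rw [hWm, _root_.mul_inv_rev, hVm]
        simp only [Matrix.mul_assoc]
      have e2 : W g * (W h * B * V h⁻¹) * V g⁻¹ * V g = W g * (W h * B * V h⁻¹) := by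
        rw [Matrix.mul_assoc, hVi, Matrix.mul_one]
      ext1
      · show W (g * h) *ᵥ b - (W (g * h) * B * V (g * h)⁻¹) *ᵥ c (g * h) =
          W g *ᵥ (W h *ᵥ b - (W h * B * V h⁻¹) *ᵥ c h) -
            (W g * (W h * B * V h⁻¹) * V g⁻¹) *ᵥ c g
        rw [e1, hc, Matrix.mulVec_add, Matrix.mulVec_mulVec, e2, hWm, Matrix.mulVec_sub,
          Matrix.mulVec_mulVec, Matrix.mulVec_mulVec]
        abel
      · exact e1
  have hρa : ∀ g b B, ρ g (b, B) = (W g *ᵥ b - (W g * B * V g⁻¹) *ᵥ c g, W g * B * V g⁻¹) := by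
    intro g b B
    rw [hρ, CocB_rho_apply]
  obtain ⟨Z, hZ, hZN⟩ := transfer ρ D.N (fun h => (C.b h, C.B h)) (by
    intro g hg h hh
    have hVg : V g⁻¹ = 1 := by
      rw [hV, R.V_N (D.N.inv_mem hg), Units.val_one, qM_one]
    rw [hρa, hVg, Matrix.mul_one, hcN g hg, C.B_mul g hg h hh, C.b_mul g hg h hh, ← hW]
    ext1
    · show C.b g + W g *ᵥ (C.b h - C.B h *ᵥ qV (D.π g)) =
        C.b g + (W g *ᵥ C.b h - (W g * C.B h) *ᵥ qV (D.π g))
      rw [Matrix.mulVec_sub, Matrix.mulVec_mulVec]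
    · rfl)
  have hZ1 : ∀ g h, (Z (g * h)).1 =
      (Z g).1 + (W g *ᵥ (Z h).1 - (W g * (Z h).2 * V g⁻¹) *ᵥ c g) := by
    intro g h
    rw [hZ, ← Prod.mk.eta (p := Z h), hρa]
    rfl
  have hZ2 : ∀ g h, (Z (g * h)).2 = (Z g).2 + W g * (Z h).2 * V g⁻¹ := by
    intro g h
    rw [hZ, ← Prod.mk.eta (p := Z h), hρa]
    rfl
  have hVa : ∀ a, V (D.ι a) = 1 := by
    intro a
    rw [hV, R.V_N (D.ι_mem a), Units.val_one, qM_one]
  have hca : ∀ a, c (D.ι a) = 0 := by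
    intro a
    rw [hcN _ (D.ι_mem a), D.π_ι, qV_zero]
  have hZa : ∀ a, Z (D.ι a) = (qV a, 0) := by
    intro a
    rw [hZN _ (D.ι_mem a), C.b_ι, C.B_ι]
    intro g
    have e1 : g⁻¹ * D.ι a * g = D.ι ((R.W g⁻¹).val *ᵥ a) := by
      rw [← R.hW, inv_inv]
    rw [e1, C.b_ι, C.B_ι, hρa, Matrix.mul_zero, Matrix.zero_mul, Matrix.zero_mulVec, sub_zero,
      C.b_ι, C.B_ι, qM_mulVec, ← hW, Matrix.mulVec_mulVec, ← hWm, mul_inv_cancel, hW1,
      Matrix.one_mulVec]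
  have key : ∀ g h, W g * (Z h).2 * V g⁻¹ * V (g * h) = W g * ((Z h).2 * V h) := by
    intro g h
    rw [hVm, Matrix.mul_assoc (W g * (Z h).2), ← Matrix.mul_assoc (V g⁻¹), hVi, Matrix.one_mul,
      Matrix.mul_assoc]
  refine ⟨{
    B := fun g => (Z g).2 * V g
    b := fun g => (Z g).1 + (Z g).2 *ᵥ c g
    c := c
    B_mul := ?_
    c_mul := ?_
    b_mul := ?_
    B_ι := ?_
    b_ι := ?_
    c_N := hcN }⟩
  · intro g h
    rw [← hW, ← hV, hZ2, Matrix.add_mul, key, hVm, ← Matrix.mul_assoc, add_comm]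
  · intro g h
    rw [← hV]
    exact hc g h
  · intro g h
    have e3 : (W g * (Z h).2 * V g⁻¹) *ᵥ (V g *ᵥ c h) = W g *ᵥ ((Z h).2 *ᵥ c h) := by
      rw [Matrix.mulVec_mulVec, Matrix.mul_assoc _ (V g⁻¹), hVi, Matrix.mul_one,
        Matrix.mulVec_mulVec]
    rw [← hW, hZ1, hZ2, hc, Matrix.add_mulVec, Matrix.mulVec_add, Matrix.mulVec_add, e3,
      Matrix.mulVec_add, ← Matrix.mulVec_mulVec (c h) (Z g).2 (V g)]
    abel
  · intro a
    rw [hZa, Matrix.zero_mul]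
  · intro a
    rw [hZa, Matrix.zero_mulVec, add_zero]

end H59E
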