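import Pool.Agent.H.MP_7a8a58_gt.h59.Factor

/-! # Module Rho: the actions of `Γ` on `A` and on `N / A`

`W g`: `a ↦ b` with `g * ι a * g⁻¹ = ι b` is additive (`ι_add`, `ι_inj`), so it is a matrix
(`additive_matrix`); `g ↦` matrix is multiplicative with value `1` at `1` (`matrix_ext_mulVec`,
`ι_inj`), a monoid homomorphism `Γ →* Matrix (Fin q) (Fin q) ℤ`; `MonoidHom.toHomUnits`.
`V g`: `h ↦ π (g * h * g⁻¹)` is additive on `N` and zero on `A` (`ι_norm`), so it is a matrix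
times `π h` (`WPre.factor`); multiplicative because `π` is onto.
`Rho.W_ι`: `ι a * ι b * (ι a)⁻¹ = ι b`. `Rho.V_N`: for `h, h' ∈ N`
`π (h * h' * h⁻¹) = π h + π h' - π h = π h'`, and `π` is onto. -/

set_option autoImplicit false

open Matrix

namespace H59E

variable {Γ : Type} [Group Γ] {q p : ℕ}

private theorem Rho_conj_mul (g h k : Γ) : g * (h * k) * g⁻¹ = g * h * g⁻¹ * (g * k * g⁻¹) := by
  group

private theorem Rho_conj_conj (g h k : Γ) : g * h * k * (g * h)⁻¹ = g * (h * k * h⁻¹) * g⁻¹ := by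
  group

theorem exists_rho (D : Pre Γ q p) : Nonempty (Rho D) := by
  choose wf hwf using D.ι_norm
  have hadd : ∀ g a b, wf g (a + b) = wf g a + wf g b := by
    intro g a b
    apply D.ι_inj
    rw [← hwf, D.ι_add, Rho_conj_mul, hwf, hwf, ← D.ι_add]
  choose Wm hWm using fun g => additive_matrix (wf g) (hadd g)
  have hW : ∀ g a, g * D.ι a * g⁻¹ = D.ι (Wm g *ᵥ a) := fun g a => by
    rw [hwf, hWm]
  have hW1 : Wm 1 = 1 := by
    refine matrix_ext_mulVec fun a => D.ι_inj ?_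
    rw [← hW, Matrix.one_mulVec, one_mul, inv_one, mul_one]
  have hWmul : ∀ g h, Wm (g * h) = Wm g * Wm h := by
    intro g h
    refine matrix_ext_mulVec fun a => D.ι_inj ?_
    rw [← hW, ← Matrix.mulVec_mulVec, ← hW, ← hW, Rho_conj_conj]
  have hf1 : ∀ g, ∀ h ∈ D.N, ∀ k ∈ D.N,
      D.π (g * (h * k) * g⁻¹) = D.π (g * h * g⁻¹) + D.π (g * k * g⁻¹) := by
    intro g h hh k hk
    rw [Rho_conj_mul, D.π_mul _ (D.nor.conj_mem h hh g) _ (D.nor.conj_mem k hk g)]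
  have hf2 : ∀ g a, D.π (g * D.ι a * g⁻¹) = 0 := by
    intro g a
    rw [hW, D.π_ι]
  choose Vm hVm using fun g => D.toWPre.factor (fun h => D.π (g * h * g⁻¹)) (hf1 g) (hf2 g)
  have hV : ∀ g, ∀ h ∈ D.N, D.π (g * h * g⁻¹) = Vm g *ᵥ D.π h := fun g h hh => hVm g h hh
  have hV1 : Vm 1 = 1 := by
    refine matrix_ext_mulVec fun x => ?_
    obtain ⟨h, hh, rfl⟩ := D.π_surj x
    rw [← hV 1 h hh, Matrix.one_mulVec, one_mul, inv_one, mul_one]
  have hVmul : ∀ g h, Vm (g * h) = Vm g * Vm h := by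
    intro g k
    refine matrix_ext_mulVec fun x => ?_
    obtain ⟨h, hh, rfl⟩ := D.π_surj x
    rw [← hV (g * k) h hh, ← Matrix.mulVec_mulVec, ← hV k h hh,
      ← hV g _ (D.nor.conj_mem h hh k), Rho_conj_conj]
  let Wh : Γ →* Matrix (Fin q) (Fin q) ℤ := { toFun := Wm, map_one' := hW1, map_mul' := hWmul }
  let Vh : Γ →* Matrix (Fin p) (Fin p) ℤ := { toFun := Vm, map_one' := hV1, map_mul' := hVmul }
  exact ⟨{ W := Wh.toHomUnits, V := Vh.toHomUnits, hW := hW, hV := hV }⟩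

theorem Rho.W_ι {D : Pre Γ q p} (R : Rho D) (a : Fin q → ℤ) : R.W (D.ι a) = 1 := by
  apply Units.ext
  refine matrix_ext_mulVec fun b => D.ι_inj ?_
  rw [← R.hW, D.ι_comm a b, mul_inv_cancel_right, Units.val_one, Matrix.one_mulVec]

theorem Rho.V_N {D : Pre Γ q p} (R : Rho D) {h : Γ} (hh : h ∈ D.N) : R.V h = 1 := by
  apply Units.ext
  refine matrix_ext_mulVec fun x => ?_
  obtain ⟨k, hk, rfl⟩ := D.π_surj x
  rw [← R.hV h k hk, D.π_mul _ (D.N.mul_mem hh hk) _ (D.N.inv_mem hh), D.π_mul _ hh _ hk,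
    D.π_inv hh, Units.val_one, Matrix.one_mulVec]
  abel

end H59E
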