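import Pool.Agent.H.MP_7a8a58_gt.h59.Transfer
import Pool.Agent.H.MP_7a8a58_gt.h59.Rho

/-! # Module CocC: the cocycle `c : Γ → ℚ^p` with `c = π` on `N`

`transfer` with `E = Fin p → ℚ`, `ρ g = Matrix.mulVecLin (qM (V g))` (a monoid homomorphism by
`qM_mul`), `z h = qV (π h)`; on `N` the action is trivial (`Rho.V_N`), so `π_mul` gives `hz`.
For `a ∈ N`: `ρ g (z (g⁻¹ a g)) = qV (V g *ᵥ π (g⁻¹ a g)) = qV (π (g (g⁻¹ a g) g⁻¹)) = z a`. -/

set_option autoImplicit false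

open Matrix

namespace H59E

variable {Γ : Type} [Group Γ] {q p : ℕ}

theorem exists_c (D : Pre Γ q p) (R : Rho D) :
    ∃ c : Γ → (Fin p → ℚ), (∀ g h, c (g * h) = c g + qM (R.V g).val *ᵥ c h) ∧
      ∀ h ∈ D.N, c h = qV (D.π h) := by
  have hN : D.N.Normal := D.nor
  have hF : D.N.FiniteIndex := D.fin
  obtain ⟨ρ, hρ⟩ : ∃ ρ : Γ →* ((Fin p → ℚ) →ₗ[ℚ] (Fin p → ℚ)),
      ∀ g v, ρ g v = qM (R.V g).val *ᵥ v := by
    refine ⟨{ toFun := fun g => (qM (R.V g).val).mulVecLin, map_one' := ?_, map_mul' := ?_ },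
      fun g v => rfl⟩
    · rw [map_one, Units.val_one, qM_one, Matrix.mulVecLin_one]
      rfl
    · intro g h
      rw [map_mul, Units.val_mul, qM_mul, Matrix.mulVecLin_mul]
      rfl
  obtain ⟨Z, hZ, hZN⟩ := transfer ρ D.N (fun h => qV (D.π h)) (fun g hg h hh => by
    rw [hρ, R.V_N hg, Units.val_one, qM_one, Matrix.one_mulVec, D.π_mul g hg h hh, qV_add])
  refine ⟨Z, fun g h => by rw [hZ, hρ], fun h hh => hZN h hh fun g => ?_⟩
  have h1 : g⁻¹ * h * g ∈ D.N := by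
    have h2 := hN.conj_mem h hh g⁻¹
    rwa [inv_inv] at h2
  rw [hρ, ← qM_mulVec, ← R.hV g _ h1]
  congr 2
  group

end H59E
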