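import Pool.Agent.H.MP_7a8a58_gt.h59.Factor

/-! # Module SubPre: the data of the subgroup `Bs`

`L = {a : Fin q → ℤ | ι a ∈ Bs}` is a submodule of `ℤ^q`, free of rank `r` (`Module.finBasis ℤ L`), so
there is an injective additive map `Fin r → ℤ` onto `L`, a matrix `J` by `additive_matrix`.
`D'`: `N = ⊤`, `ι x = ⟨ι (J x), _⟩`, `π β = π (β : Γ)`.  Onto: `x = π g`, `g = ι a * β`, so `π β = x`.
Kernel: `β ∈ Bs`, `π β = 0` gives `β = ι a`, `a ∈ L`.  `ι_norm` by `h3`. -/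

set_option autoImplicit false

open Matrix

namespace H59E

variable {Γ : Type} [Group Γ] {q p : ℕ}

theorem exists_subpre (D : Pre Γ q p) (Bs : Subgroup Γ) (h1 : Bs ≤ D.N)
    (h2 : ∀ g ∈ D.N, ∃ a, ∃ β ∈ Bs, g = D.ι a * β)
    (h3 : ∀ a, D.ι a ∈ Bs → ∀ β ∈ Bs, D.ι a * β = β * D.ι a) :
    ∃ (r : ℕ) (D' : Pre Bs r p) (J : Matrix (Fin q) (Fin r) ℤ), D'.N = ⊤ ∧
      (∀ x, ((D'.ι x : Bs) : Γ) = D.ι (J *ᵥ x)) ∧ (∀ β : Bs, D'.π β = D.π (β : Γ)) ∧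
      ∀ a, D.ι a ∈ Bs → ∃ x, a = J *ᵥ x := by
  obtain ⟨L, hL⟩ : ∃ L : Submodule ℤ (Fin q → ℤ), ∀ a, a ∈ L ↔ D.ι a ∈ Bs := by
    refine ⟨AddSubgroup.toIntSubmodule
      { carrier := {a | D.ι a ∈ Bs}
        add_mem' := fun {a b} ha hb => ?_
        zero_mem' := ?_
        neg_mem' := fun {a} ha => ?_ }, fun a => Iff.rfl⟩
    · show D.ι (a + b) ∈ Bs
      rw [D.ι_add]
      exact Bs.mul_mem ha hb
    · show D.ι 0 ∈ Bs
      rw [D.toWPre.ι_zero]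
      exact Bs.one_mem
    · show D.ι (-a) ∈ Bs
      rw [D.toWPre.ι_neg]
      exact Bs.inv_mem ha
  obtain ⟨r, ⟨bs⟩⟩ := Submodule.nonempty_basis_of_pid (Pi.basisFun ℤ (Fin q)) L
  obtain ⟨e⟩ : Nonempty (L ≃ₗ[ℤ] (Fin r → ℤ)) := ⟨bs.equivFun⟩
  obtain ⟨J, hJ⟩ := additive_matrix (fun x => ((e.symm x : L) : Fin q → ℤ)) (by
    intro a b
    rw [map_add]
    rfl)
  have hJm : ∀ x, D.ι (J *ᵥ x) ∈ Bs := fun x => by
    rw [← hJ, ← hL]
    exact (e.symm x).2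
  have hJs : ∀ a, D.ι a ∈ Bs → ∃ x, a = J *ᵥ x := fun a ha => by
    refine ⟨e ⟨a, (hL a).2 ha⟩, ?_⟩
    rw [← hJ, LinearEquiv.symm_apply_apply]
  refine ⟨r,
    { N := ⊤
      fin := inferInstance
      ι := fun x => ⟨D.ι (J *ᵥ x), hJm x⟩
      ι_add := fun a b => Subtype.ext (by
        show D.ι (J *ᵥ (a + b)) = D.ι (J *ᵥ a) * D.ι (J *ᵥ b)
        rw [Matrix.mulVec_add, D.ι_add])
      ι_inj := fun a b hab => by
        have h4 : J *ᵥ a = J *ᵥ b := D.ι_inj (congrArg Subtype.val hab)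
        rw [← hJ, ← hJ] at h4
        exact e.symm.injective (Subtype.ext h4)
      ι_mem := fun _ => Subgroup.mem_top _
      π := fun β => D.π (β : Γ)
      π_mul := fun g _ h _ => D.π_mul _ (h1 g.2) _ (h1 h.2)
      π_ι := fun a => D.π_ι _
      π_ker := fun g _ hg => by
        obtain ⟨a, ha⟩ := D.π_ker _ (h1 g.2) hg
        obtain ⟨x, hx⟩ := hJs a (by rw [← ha]; exact g.2)
        exact ⟨x, Subtype.ext (by rw [ha, hx])⟩
      π_surj := fun x => by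
        obtain ⟨g, hg, hx⟩ := D.π_surj x
        obtain ⟨a, β, hβ, h4⟩ := h2 g hg
        refine ⟨⟨β, hβ⟩, Subgroup.mem_top _, ?_⟩
        show D.π β = x
        rw [← hx, h4, D.π_mul _ (D.ι_mem a) _ (h1 hβ), D.π_ι, zero_add]
      nor := inferInstance
      ι_norm := fun g a => ⟨a, Subtype.ext (by
        show (g : Γ) * D.ι (J *ᵥ a) * (g : Γ)⁻¹ = D.ι (J *ᵥ a)
        rw [← h3 _ (hJm a) _ g.2, mul_inv_cancel_right])⟩ },
    J, rfl, fun x => rfl, fun β => rfl, hJs⟩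

end H59E
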