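import Pool.Agent.H.MP_7a8a58_gt.h59.Defs

/-! # Module Tau: the function `τ`

`hw`: `g h g⁻¹ h⁻¹ = ι (w g h)` for `g, h ∈ N`, `w` bi-additive and antisymmetric on `N`, zero on `A`.
Let `h_j ∈ N` (`j : Fin p`) with `π h_j = Pi.single j 1`.  Claim by induction on `n ≤ p`: there is
`τ : Γ → (Fin q → ℚ)` with `τ (ι a) = qV a` and `τ (g h) = τ g + τ h + (1/2) w g h` for all `g, h` in
`N_n = {g ∈ N | ∀ j, n ≤ j → π g j = 0}`.  `n = 0`: `N_0 = range ι` (`π_ker`), `τ (ι a) = qV a`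
(choice, `ι` injective), `w = 0` there.  Step: given `τ` for `n`, let `e = h_n`, `k g = π g n : ℤ`,
`τ' g = τ (g * e ^ (-k g)) + (k g / 2) w g e`.  For `g, g' ∈ N_{n+1}`, `k = k g`, `l = k g'`:
`u = g e^{-k}`, `u' = g' e^{-l}` are in `N_n`, `w u e = w g e`, `w u' e = w g' e` (`w e e = 0`),
`w u u' = w g g' - l w g e - k w e g'`, and
`g g' e^{-k-l} = u e^k u' e^{-k} = u ι(k w e u') u' = ι (k w e u') u u'`, so
`τ' (g g') = τ (u u') + k w e u' + ((k+l)/2) (w g e + w g' e)
  = τ u + τ u' + (1/2) w u u' + k w e g' + ((k+l)/2) (w g e + w g' e)`, and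
`τ' g + τ' g' + (1/2) w g g' = τ u + τ u' + (k/2) w g e + (l/2) w g' e + (1/2) w g g'`; the two are equal:
`(1/2)(- l w g e + k w g' e) - k w g' e + ((k+l)/2)(w g e + w g' e) = (k/2) w g e + (l/2) w g' e`.
(`e^k u' e^{-k} = ι (k w e u') u'`: `w (e^k) u' = k w e u'` for integers `k`.)
For `g = ι a`: `k = 0`.  At `n = p` all of `N`. -/

set_option autoImplicit false

open Matrix

namespace H59E

variable {Γ : Type} [Group Γ] {q p : ℕ}

private theorem Tau_zpow (N : Subgroup Γ) {n : ℕ} (f : Γ → (Fin n → ℤ))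
    (hf : ∀ g ∈ N, ∀ h ∈ N, f (g * h) = f g + f h) {g : Γ} (hg : g ∈ N) (k : ℤ) :
    f (g ^ k) = k • f g := by
  let φ : N →* Multiplicative (Fin n → ℤ) :=
    MonoidHom.mk' (fun x : N => Multiplicative.ofAdd (f x))
      (fun x y => congrArg Multiplicative.ofAdd (hf x x.2 y y.2))
  have h := map_zpow φ ⟨g, hg⟩ k
  have h2 : Multiplicative.toAdd (φ (⟨g, hg⟩ ^ k)) = Multiplicative.toAdd (φ ⟨g, hg⟩ ^ k) :=
    congrArg Multiplicative.toAdd h
  rw [toAdd_zpow] at h2
  exact h2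

private theorem Tau_qz {n : ℕ} (k : ℤ) (a : Fin n → ℤ) : qV (k • a) = (k : ℚ) • qV a := by
  funext i
  simp [qV]

theorem exists_tau (D : Pre Γ q p) (hcen : ∀ h ∈ D.N, ∀ a, h * D.ι a = D.ι a * h)
    (w : Γ → Γ → (Fin q → ℤ))
    (h1 : ∀ g ∈ D.N, ∀ h ∈ D.N, g * h * g⁻¹ * h⁻¹ = D.ι (w g h))
    (h2 : ∀ g ∈ D.N, ∀ g' ∈ D.N, ∀ h ∈ D.N, w (g * g') h = w g h + w g' h)
    (h3 : ∀ g ∈ D.N, ∀ h ∈ D.N, ∀ h' ∈ D.N, w g (h * h') = w g h + w g h')
    (h4 : ∀ g ∈ D.N, ∀ h ∈ D.N, w h g = -w g h)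
    (h5 : ∀ a, ∀ h ∈ D.N, w (D.ι a) h = 0) :
    ∃ τ : Γ → (Fin q → ℚ), (∀ a, τ (D.ι a) = qV a) ∧
      ∀ g ∈ D.N, ∀ h ∈ D.N, τ (g * h) = τ g + τ h + (1 / 2 : ℚ) • qV (w g h) := by
  classical
  choose s hsN hsπ using fun j : Fin p => D.π_surj (Pi.single j 1)
  -- the induction
  have key : ∀ n : ℕ, n ≤ p → ∃ τ : Γ → (Fin q → ℚ), (∀ a, τ (D.ι a) = qV a) ∧
      ∀ g ∈ D.N, ∀ h ∈ D.N, (∀ j : Fin p, n ≤ (j : ℕ) → D.π g j = 0) →
        (∀ j : Fin p, n ≤ (j : ℕ) → D.π h j = 0) →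
        τ (g * h) = τ g + τ h + (1 / 2 : ℚ) • qV (w g h) := by
    intro n
    induction n with
    | zero =>
      intro _
      have hτ : ∀ a, (if h : ∃ b, D.ι a = D.ι b then qV h.choose else (0 : Fin q → ℚ)) = qV a := by
        intro a
        have h : ∃ b, D.ι a = D.ι b := ⟨a, rfl⟩
        rw [dif_pos h]
        rw [← D.ι_inj h.choose_spec]
      refine ⟨fun g => if h : ∃ b, g = D.ι b then qV h.choose else 0, hτ, ?_⟩
      intro g hg h hh hg0 hh0
      obtain ⟨a, rfl⟩ := D.π_ker g hg (funext fun j => hg0 j (Nat.zero_le _))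
      obtain ⟨b, rfl⟩ := D.π_ker h hh (funext fun j => hh0 j (Nat.zero_le _))
      rw [h5 a _ (D.ι_mem b), qV_zero, smul_zero, add_zero, ← D.ι_add]
      change (if h : ∃ b', D.ι (a + b) = D.ι b' then qV h.choose else (0 : Fin q → ℚ)) =
        (if h : ∃ b', D.ι a = D.ι b' then qV h.choose else (0 : Fin q → ℚ)) +
        (if h : ∃ b', D.ι b = D.ι b' then qV h.choose else (0 : Fin q → ℚ))
      rw [hτ, hτ, hτ, qV_add]
    | succ n ih =>
      intro hn
      obtain ⟨τ, hτι, hτ⟩ := ih (Nat.le_of_succ_le hn)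
      obtain ⟨m, hm⟩ : ∃ m : Fin p, (m : ℕ) = n := ⟨⟨n, hn⟩, rfl⟩
      obtain ⟨e, heN, heπ⟩ : ∃ e, e ∈ D.N ∧ D.π e = Pi.single m 1 := ⟨s m, hsN m, hsπ m⟩
      have hez : ∀ k : ℤ, e ^ k ∈ D.N := fun k => D.N.zpow_mem heN k
      have hπe : ∀ k : ℤ, D.π (e ^ k) = k • (Pi.single m 1 : Fin p → ℤ) := fun k => by
        rw [Tau_zpow D.N D.π D.π_mul heN k, heπ]
      have hwr : ∀ g ∈ D.N, ∀ k : ℤ, w g (e ^ k) = k • w g e := fun g hg k =>
        Tau_zpow D.N (w g) (fun x hx y hy => h3 g hg x hx y hy) heN k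
      have hwl : ∀ g ∈ D.N, ∀ k : ℤ, w (e ^ k) g = k • w e g := fun g hg k =>
        Tau_zpow D.N (fun x => w x g) (fun x hx y hy => h2 x hx y hy g hg) heN k
      have hee : w e e = 0 := by
        have h := h4 e heN e heN
        funext i
        have h6 := congrFun h i
        simp only [Pi.neg_apply, Pi.zero_apply] at h6 ⊢
        omega
      -- the part in `N_n`
      have hu : ∀ g ∈ D.N, (∀ j : Fin p, n + 1 ≤ (j : ℕ) → D.π g j = 0) →
          ∀ j : Fin p, n ≤ (j : ℕ) → D.π (g * e ^ (-(D.π g m))) j = 0 := by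
        intro g hg hg0 j hj
        rw [D.π_mul g hg _ (hez _), hπe, Pi.add_apply, Pi.smul_apply, smul_eq_mul]
        rcases eq_or_lt_of_le hj with h | h
        · have hjm : j = m := Fin.ext (by rw [hm, h])
          rw [hjm, Pi.single_eq_same]
          ring
        · have hjm : j ≠ m := fun h6 => by
            rw [h6, hm] at h
            exact lt_irrefl _ h
          rw [Pi.single_eq_of_ne hjm, hg0 j h]
          ring
      refine ⟨fun g => τ (g * e ^ (-(D.π g m))) + ((D.π g m : ℚ) / 2) • qV (w g e), ?_, ?_⟩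
      · intro a
        change τ (D.ι a * e ^ (-(D.π (D.ι a) m))) + ((D.π (D.ι a) m : ℚ) / 2) •
          qV (w (D.ι a) e) = qV a
        rw [D.π_ι, h5 a e heN, Pi.zero_apply, neg_zero, zpow_zero, mul_one, hτι, qV_zero,
          smul_zero, add_zero]
      · intro g hg g' hg' hg0 hg0'
        have hk : D.π (g * g') m = D.π g m + D.π g' m := by
          rw [D.π_mul g hg g' hg', Pi.add_apply]
        have hu1 := hu g hg hg0
        have hu2 := hu g' hg' hg0'
        obtain ⟨k, hkk⟩ : ∃ k, k = D.π g m := ⟨_, rfl⟩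
        obtain ⟨l, hll⟩ : ∃ l, l = D.π g' m := ⟨_, rfl⟩
        change τ (g * g' * e ^ (-(D.π (g * g') m))) + ((D.π (g * g') m : ℚ) / 2) •
            qV (w (g * g') e) =
          τ (g * e ^ (-(D.π g m))) + ((D.π g m : ℚ) / 2) • qV (w g e) +
          (τ (g' * e ^ (-(D.π g' m))) + ((D.π g' m : ℚ) / 2) • qV (w g' e)) +
          (1 / 2 : ℚ) • qV (w g g')
        rw [hk]
        rw [← hkk] at hu1 ⊢
        rw [← hll] at hu2 ⊢
        obtain ⟨u, huu⟩ : ∃ u, u = g * e ^ (-k) := ⟨_, rfl⟩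
        obtain ⟨u', huu'⟩ : ∃ u', u' = g' * e ^ (-l) := ⟨_, rfl⟩
        rw [← huu] at hu1 ⊢
        rw [← huu'] at hu2 ⊢
        have huN : u ∈ D.N := by
          rw [huu]
          exact D.N.mul_mem hg (hez _)
        have huN' : u' ∈ D.N := by
          rw [huu']
          exact D.N.mul_mem hg' (hez _)
        have hg1 : g = u * e ^ k := by
          rw [huu, mul_assoc, ← _root_.zpow_add, neg_add_cancel, zpow_zero, mul_one]
        have hg1' : g' = u' * e ^ l := by
          rw [huu', mul_assoc, ← _root_.zpow_add, neg_add_cancel, zpow_zero, mul_one]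
        -- the commutator
        have hcomm : e ^ k * u' * (e ^ k)⁻¹ = D.ι (w (e ^ k) u') * u' := by
          rw [← h1 (e ^ k) (hez k) u' huN', inv_mul_cancel_right]
        have hprod : g * g' * e ^ (-(k + l)) = D.ι (w (e ^ k) u') * (u * u') := by
          have h6 : g * g' * e ^ (-(k + l)) = u * (e ^ k * u' * (e ^ k)⁻¹) := by
            rw [hg1, hg1', neg_add_rev, _root_.zpow_add, _root_.zpow_neg, _root_.zpow_neg]
            group
          rw [h6, hcomm, ← mul_assoc, hcen u huN, mul_assoc]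
        have hτ1 : τ (u * u') = τ u + τ u' + (1 / 2 : ℚ) • qV (w u u') :=
          hτ u huN u' huN' hu1 hu2
        have hτ2 : τ (D.ι (w (e ^ k) u') * (u * u')) = qV (w (e ^ k) u') + τ (u * u') := by
          have huu2 : u * u' ∈ D.N := D.N.mul_mem huN huN'
          rw [hτ _ (D.ι_mem _) _ huu2, hτι, h5 _ _ huu2, qV_zero, smul_zero, add_zero]
          · intro j _
            rw [D.π_ι]
            rfl
          · intro j hj
            rw [D.π_mul u huN u' huN', Pi.add_apply, hu1 j hj, hu2 j hj, add_zero]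
        -- the form `w`
        have hw1 : w e u' = -w g' e := by
          rw [huu', h3 e heN g' hg' _ (hez _), hwr e heN, hee, smul_zero, add_zero]
          exact h4 g' hg' e heN
        have hw2 : w (e ^ k) u' = -(k • w g' e) := by
          rw [hwl u' huN', hw1, smul_neg]
        have hw3 : w u u' = w g g' - l • w g e + k • w g' e := by
          have h6 : w u u' = w u g' + w u (e ^ (-l)) := by
            rw [huu']
            exact h3 u huN g' hg' _ (hez _)
          have h7 : w u g' = w g g' + w (e ^ (-k)) g' := by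
            rw [huu]
            exact h2 g hg _ (hez _) g' hg'
          have h8 : w u e = w g e := by
            rw [huu, h2 g hg _ (hez _) e heN, hwl e heN, hee, smul_zero, add_zero]
          rw [h6, h7, hwr u huN, h8, hwl g' hg', h4 g' hg' e heN, neg_smul, neg_smul, smul_neg,
            neg_neg]
          abel
        have hw4 : w (g * g') e = w g e + w g' e := h2 g hg g' hg' e heN
        rw [hprod, hτ2, hτ1, hw2, hw3, hw4]
        simp only [qV_add, qV_sub, qV_neg, Tau_qz]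
        push_cast
        module
  obtain ⟨τ, hτι, hτ⟩ := key p le_rfl
  exact ⟨τ, hτι, fun g hg h hh => hτ g hg h hh (fun j hj => absurd j.2 (not_lt.2 hj))
    (fun j hj => absurd j.2 (not_lt.2 hj))⟩

end H59E
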