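import Pool.Agent.H.MP_7a8a58_gt.h59.Omega
import Pool.Agent.H.MP_7a8a58_gt.h59.Tau
import Pool.Agent.H.MP_7a8a58_gt.h59.SubPre

/-! # Module CocU: the cocycle

`r, D', J` from `exists_subpre`; `D'.ι x` is central in `Bs` (`h3`), so `exists_omega` and `exists_tau` for
`D'` give `w`, `Bw`, `τ` on `Bs`.  For `g ∈ N` choose `g = ι a * β`, `β ∈ Bs`, and put
`b g = qV a + qM J *ᵥ τ β`, `B g = (1/2) • qM (J * Bw β)` (zero outside `N`).
Independent of the choice: `ι a * β = ι a' * β'` gives `ι (a - a') = β' * β⁻¹ ∈ Bs`, so `a - a' = J x`,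
`β' = D'.ι x * β`, `τ β' = x + τ β` (`w (ι x) β = 0`), `w β' = w β`.
For `g = ι a * β`, `h = ι a' * β'` in `N`: `W g = W (ι a) * W β = W β` (`Rho.W_ι`), `W β * J = J` (`β` commutes
with `ι (J x)`), `g h = ι (a + W β a') * (β β')`;
`b (g h) = a + W β a' + J (τ β + τ β' + (1/2) w β β')` and
`b g + W g (b h - B h π g) = a + J τ β + W β a' + J τ β' - (1/2) J (w β' β)`, equal because `w β' β = - w β β'`;
`B (g h) = B g + B h` (`matrix_ext_mulVec`, `D'.π_surj`) and `W g B h = B h` (`W g J = J`).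
`b (ι a) = qV a + J τ 1 = qV a`, `B (ι a) = 0` (`β = 1`: `τ 1 = 0`, `w 1 = 0`). -/

set_option autoImplicit false

open Matrix

namespace H59E

variable {Γ : Type} [Group Γ] {q p : ℕ}

theorem cocyc_u (D : Pre Γ q p) (R : Rho D) (Bs : Subgroup Γ) (h1 : Bs ≤ D.N)
    (h2 : ∀ g ∈ D.N, ∃ a, ∃ β ∈ Bs, g = D.ι a * β)
    (h3 : ∀ a, D.ι a ∈ Bs → ∀ β ∈ Bs, D.ι a * β = β * D.ι a) : Nonempty (Cocyc D R) := by
  classical
  obtain ⟨r, D', J, hN, hι, hπ, hJ⟩ := exists_subpre D Bs h1 h2 h3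
  have hm : ∀ β : Bs, β ∈ D'.N := fun β => by rw [hN]; exact Subgroup.mem_top β
  have hJm : ∀ x, D.ι (J *ᵥ x) ∈ Bs := fun x => by rw [← hι]; exact (D'.ι x).2
  have hcen : ∀ h ∈ D'.N, ∀ a, h * D'.ι a = D'.ι a * h := by
    intro h _ a
    apply Subtype.ext
    rw [Subgroup.coe_mul, Subgroup.coe_mul, hι]
    exact (h3 _ (hJm a) _ h.2).symm
  obtain ⟨w, Bw, w1, w2, w3, w4, w5, w6⟩ := exists_omega D' hcen
  obtain ⟨τ, hτι, hτ⟩ := exists_tau D' hcen w w1 w2 w3 w4 w5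
  -- the choice
  have h2' : ∀ g : Γ, ∃ (a : Fin q → ℤ) (β : Bs), g ∈ D.N → g = D.ι a * (β : Γ) := by
    intro g
    by_cases hg : g ∈ D.N
    · obtain ⟨a, β, hβ, h⟩ := h2 g hg
      exact ⟨a, ⟨β, hβ⟩, fun _ => h⟩
    · exact ⟨0, 1, fun h => absurd h hg⟩
  choose fa fβ hf using h2'
  have hWJ : ∀ β : Bs, (R.W (β : Γ)).val * J = J := by
    intro β
    refine matrix_ext_mulVec fun x => D.ι_inj ?_
    rw [← Matrix.mulVec_mulVec, ← R.hW, ← h3 _ (hJm x) _ β.2, mul_inv_cancel_right]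
  have hext : ∀ β β' : Bs, (∀ h : Bs, w β h = w β' h) → Bw β = Bw β' := by
    intro β β' hh
    refine matrix_ext_mulVec fun x => ?_
    obtain ⟨h, hh', rfl⟩ := D'.π_surj x
    rw [← w6 β (hm β) h hh', ← w6 β' (hm β') h hh', hh]
  have hBw : ∀ β β' : Bs, Bw (β * β') = Bw β + Bw β' := by
    intro β β'
    refine matrix_ext_mulVec fun x => ?_
    obtain ⟨h, hh', rfl⟩ := D'.π_surj x
    rw [Matrix.add_mulVec, ← w6 _ (hm _) h hh', ← w6 β (hm β) h hh', ← w6 β' (hm β') h hh',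
      w2 β (hm β) β' (hm β') h hh']
  -- independence of the choice
  have hind : ∀ (a : Fin q → ℤ) (β : Bs),
      qV (fa (D.ι a * (β : Γ))) + qM J *ᵥ τ (fβ (D.ι a * (β : Γ))) = qV a + qM J *ᵥ τ β ∧
      Bw (fβ (D.ι a * (β : Γ))) = Bw β := by
    intro a β
    have hgN : D.ι a * (β : Γ) ∈ D.N := D.N.mul_mem (D.ι_mem a) (h1 β.2)
    have h4 := hf _ hgN
    generalize fa (D.ι a * (β : Γ)) = a₁ at h4 ⊢
    generalize fβ (D.ι a * (β : Γ)) = β₁ at h4 ⊢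
    have h5 : D.ι (a₁ - a) = (β : Γ) * (β₁ : Γ)⁻¹ := by
      rw [sub_eq_neg_add, D.ι_add, D.toWPre.ι_neg, inv_mul_eq_iff_eq_mul, ← mul_assoc, h4,
        mul_inv_cancel_right]
    obtain ⟨x, hx⟩ := hJ (a₁ - a) (by rw [h5]; exact Bs.mul_mem β.2 (Bs.inv_mem β₁.2))
    have h6 : β = D'.ι x * β₁ := by
      apply Subtype.ext
      rw [Subgroup.coe_mul, hι, ← hx, h5, inv_mul_cancel_right]
    constructor
    · rw [h6, hτ _ (D'.ι_mem x) _ (hm β₁), hτι, w5 x β₁ (hm β₁), qV_zero, smul_zero, add_zero,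
        Matrix.mulVec_add, ← qM_mulVec, ← add_assoc, ← qV_add, ← hx, add_sub_cancel]
    · refine hext _ _ fun h => ?_
      rw [h6, w2 _ (D'.ι_mem x) _ (hm β₁) h (hm h), w5 x h (hm h), zero_add]
  have hmul : ∀ (a a' : Fin q → ℤ) (β β' : Bs), D.ι a * (β : Γ) * (D.ι a' * (β' : Γ)) =
      D.ι (a + (R.W (β : Γ)).val *ᵥ a') * ((β * β' : Bs) : Γ) := by
    intro a a' β β'
    rw [D.ι_add, ← R.hW, Subgroup.coe_mul]
    group
  have hW : ∀ (a : Fin q → ℤ) (β : Bs), R.W (D.ι a * (β : Γ)) = R.W (β : Γ) := by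
    intro a β
    rw [map_mul, R.W_ι, one_mul]
  have hone : ∀ a, D.ι a = D.ι a * ((1 : Bs) : Γ) := fun a => by
    rw [Subgroup.coe_one, mul_one]
  have hw1 : ∀ h : Bs, w 1 h = 0 := by
    intro h
    have := w5 0 h (hm h)
    rwa [D'.toWPre.ι_zero] at this
  have hBw1 : Bw 1 = 0 := by
    refine matrix_ext_mulVec fun x => ?_
    obtain ⟨h, hh', rfl⟩ := D'.π_surj x
    rw [← w6 1 (hm 1) h hh', hw1, Matrix.zero_mulVec]
  have hτ1 : τ 1 = 0 := by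
    have := hτι 0
    rwa [D'.toWPre.ι_zero, qV_zero] at this
  refine ⟨{ b := fun g => qV (fa g) + qM J *ᵥ τ (fβ g), B := fun g => (1 / 2 : ℚ) • qM (J * Bw (fβ g)),
            B_mul := ?_, b_mul := ?_, B_ι := ?_, b_ι := ?_ }⟩
  · intro g hg h hh
    obtain ⟨a, β, rfl⟩ : ∃ (a : Fin q → ℤ) (β : Bs), g = D.ι a * (β : Γ) := ⟨_, _, hf g hg⟩
    obtain ⟨a', β', rfl⟩ : ∃ (a : Fin q → ℤ) (β : Bs), h = D.ι a * (β : Γ) := ⟨_, _, hf h hh⟩
    rw [hmul, (hind _ _).2, (hind _ _).2, (hind _ _).2, hBw, hW, Matrix.mul_smul, ← qM_mul,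
      ← Matrix.mul_assoc, hWJ, ← smul_add, ← qM_add, Matrix.mul_add]
  · intro g hg h hh
    obtain ⟨a, β, rfl⟩ : ∃ (a : Fin q → ℤ) (β : Bs), g = D.ι a * (β : Γ) := ⟨_, _, hf g hg⟩
    obtain ⟨a', β', rfl⟩ : ∃ (a : Fin q → ℤ) (β : Bs), h = D.ι a * (β : Γ) := ⟨_, _, hf h hh⟩
    have hπg : D.π (D.ι a * (β : Γ)) = D'.π β := by
      rw [D.π_mul _ (D.ι_mem a) _ (h1 β.2), D.π_ι, zero_add, hπ]
    have e1 : ((1 / 2 : ℚ) • qM (J * Bw β')) *ᵥ qV (D'.π β) =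
        -(qM J *ᵥ ((1 / 2 : ℚ) • qV (w β β'))) := by
      rw [Matrix.smul_mulVec, ← qM_mulVec, ← Matrix.mulVec_mulVec, ← w6 β' (hm β') β (hm β),
        w4 β (hm β) β' (hm β'), Matrix.mulVec_neg, qV_neg, smul_neg, Matrix.mulVec_smul, qM_mulVec]
    have e2 : ∀ y : Fin r → ℚ, qM (R.W (β : Γ)).val *ᵥ (qM J *ᵥ y) = qM J *ᵥ y := by
      intro y
      rw [Matrix.mulVec_mulVec, ← qM_mul, hWJ]
    rw [hmul, (hind _ _).1, (hind _ _).1, (hind _ _).1, (hind _ _).2, hW, hπg, e1, sub_neg_eq_add,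
      hτ β (hm β) β' (hm β'), qV_add, qM_mulVec, Matrix.mulVec_add, Matrix.mulVec_add,
      Matrix.mulVec_add, Matrix.mulVec_add, e2, e2]
    abel
  · intro a
    rw [hone a, (hind _ _).2, hBw1, Matrix.mul_zero, qM_zero, smul_zero]
  · intro a
    rw [hone a, (hind _ _).1, hτ1, Matrix.mulVec_zero, add_zero]

end H59E
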