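import Pool.Agent.H.MP_7a8a58_gt.h59.Act

/-! # Module Cocompact: the action is cocompact.  See the header of Act. -/

set_option autoImplicit false

open Matrix

namespace H59E

variable {Γ : Type} [Group Γ] {q p : ℕ}

/-- rounding with step `k` -/
private theorem Cocompact_round {n : ℕ} (k : ℕ) (hk : 0 < k) (v : Fin n → ℝ) :
    ∃ y : Fin n → ℤ, v + realV (k • y) ∈ Set.pi Set.univ (fun _ : Fin n => Set.Icc (0 : ℝ) k) := by
  have hk' : (0 : ℝ) < k := by exact_mod_cast hk
  refine ⟨fun i => -⌊v i / k⌋, fun i _ => ?_⟩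
  have h1 := Int.floor_le (v i / k)
  have h2 := Int.lt_floor_add_one (v i / k)
  rw [le_div_iff₀ hk'] at h1
  rw [div_lt_iff₀ hk'] at h2
  have e : (v + realV (k • fun i => -⌊v i / k⌋)) i = v i - ⌊v i / k⌋ * k := by
    show v i + (((k • (-⌊v i / k⌋) : ℤ)) : ℝ) = v i - ⌊v i / k⌋ * k
    rw [nsmul_eq_mul]
    push_cast
    ring
  rw [e]
  constructor
  · linarith
  · linarith

theorem act_cocompact {D : Pre Γ q p} {R : Rho D} (C : ICoc D R) :
    ∃ K₀ : Set ((Fin q → ℝ) × (Fin p → ℝ)), IsCompact K₀ ∧ ∀ x, ∃ g : Γ, act C g x ∈ K₀ := by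
  refine ⟨(Set.pi Set.univ (fun _ : Fin q => Set.Icc (0 : ℝ) C.K)) ×ˢ
    (Set.pi Set.univ (fun _ : Fin p => Set.Icc (0 : ℝ) C.k)),
    (isCompact_univ_pi fun _ => isCompact_Icc).prod (isCompact_univ_pi fun _ => isCompact_Icc),
    fun x => ?_⟩
  obtain ⟨y, hy⟩ := Cocompact_round C.k C.k_pos x.2
  obtain ⟨h, hN, hh⟩ := D.π_surj y
  obtain ⟨a, ha⟩ := Cocompact_round C.K C.K_pos (act C h x).1
  have h1 : (act C h x).2 = x.2 + realV (C.k • y) := by
    show realM (R.V h).val *ᵥ x.2 + realV (C.t h) = _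
    rw [R.V_N hN, C.t_N h hN, hh, Units.val_one]
    have e : realM (1 : Matrix (Fin p) (Fin p) ℤ) = 1 := by
      unfold realM
      exact Matrix.map_one _ (by simp) (by simp)
    rw [e, Matrix.one_mulVec]
  have h2 : act C (D.ι a) (act C h x) = ((act C h x).1 + realV (C.K • a), (act C h x).2) := by
    generalize act C h x = z
    have e : ∀ n : ℕ, realM (1 : Matrix (Fin n) (Fin n) ℤ) = 1 := by
      intro n
      unfold realM
      exact Matrix.map_one _ (by simp) (by simp)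
    have e0 : realM (0 : Matrix (Fin q) (Fin p) ℤ) = 0 := by
      ext i j
      simp [realM]
    have e1 : realV (C.k • (0 : Fin p → ℤ)) = 0 := by
      funext i
      simp [realV]
    unfold act
    rw [R.W_ι, R.V_N (D.ι_mem a), C.Q_ι, C.s_ι, C.t_N _ (D.ι_mem a), D.π_ι, Units.val_one,
      Units.val_one, e, e, e0, e1, Matrix.one_mulVec, Matrix.one_mulVec, Matrix.zero_mulVec,
      add_zero, add_zero]
  refine ⟨D.ι a * h, ?_⟩
  rw [act_mul, h2, h1]
  exact ⟨ha, hy⟩

end H59E
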