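import Pool.Agent.H.MP_7a8a58_gt.h59.Defs

/-! # Module Coord: coordinates on f.g. torsion-free abelian groups

`Additive A` is a finitely generated torsion-free `ℤ`-module, so free:
`Module.Free`, `Module.finBasis ℤ (Additive A)`, `Basis.equivFun`. -/

set_option autoImplicit false

namespace H59E

theorem exists_coord {A : Type*} [CommGroup A] (hfg : Group.FG A) (htf : TF A) :
    ∃ (n : ℕ) (e : (Fin n → ℤ) → A), Function.Bijective e ∧ ∀ x y, e (x + y) = e x * e y := by
  have hfin : Module.Finite ℤ (Additive A) :=
    Module.Finite.iff_addGroup_fg.2 (GroupFG.iff_add_fg.1 hfg)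
  have htor : IsAddTorsionFree (Additive A) := by
    constructor
    intro n hn x y hxy
    have h1 : (Additive.toMul x) ^ n = (Additive.toMul y) ^ n := hxy
    have h2 : (Additive.toMul x / Additive.toMul y) ^ n = 1 := by
      rw [div_pow, h1, div_self']
    have h3 := htf _ n (Nat.pos_of_ne_zero hn) h2
    exact Additive.toMul.injective (div_eq_one.1 h3)
  have hfree : Module.Free ℤ (Additive A) := Module.free_of_finite_type_torsion_free'
  let b := Module.finBasis ℤ (Additive A)
  refine ⟨Module.finrank ℤ (Additive A), fun x => Additive.toMul (b.equivFun.symm x), ?_, ?_⟩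
  · exact (Additive.toMul.bijective).comp b.equivFun.symm.bijective
  · intro x y
    show Additive.toMul (b.equivFun.symm (x + y)) = _
    rw [map_add]
    rfl

end H59E
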