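import Pool.Agent.H.MP_7a8a58_gt.h59.Stmt

/-!
MP_7a8a58_gt, helper59, Theorem E (existence of integral affine structures).  Definitions.

`Γ` a group, `N` a normal subgroup of finite index, `A = range ι ≅ ℤ^q` a normal subgroup of `Γ`
contained in `N`, `π : N → ℤ^p` a surjective homomorphism with kernel `A` (`Pre Γ q p`; `WPre`
is the same without the two normality conditions).  `Rho`: the actions of `Γ` on `A` and `N / A`.
`Cocyc`: a 1-cocycle of `N` with values in the affine maps `ℚ^p → ℚ^q` which is the inclusion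
on `A`.  `Coc`: the cocycles on `Γ` which define the affine action
`g (w, v) = (W g w + B g v + b g, V g v + c g)`.
-/

set_option autoImplicit false

open Matrix

namespace H59E

open H83T

/-- rational vector of an integral one -/
def qV {n : ℕ} (a : Fin n → ℤ) : Fin n → ℚ := fun i => (a i : ℚ)

/-- rational matrix of an integral one -/
def qM {m n : ℕ} (A : Matrix (Fin m) (Fin n) ℤ) : Matrix (Fin m) (Fin n) ℚ :=
  A.map (fun x : ℤ => (x : ℚ))

theorem qV_add {n : ℕ} (a b : Fin n → ℤ) : qV (a + b) = qV a + qV b := by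
  funext i
  simp [qV]

theorem qV_zero {n : ℕ} : qV (0 : Fin n → ℤ) = 0 := by
  funext i
  simp [qV]

theorem qV_neg {n : ℕ} (a : Fin n → ℤ) : qV (-a) = -qV a := by
  funext i
  simp [qV]

theorem qV_sub {n : ℕ} (a b : Fin n → ℤ) : qV (a - b) = qV a - qV b := by
  funext i
  simp [qV]

theorem qV_nsmul {n : ℕ} (k : ℕ) (a : Fin n → ℤ) : qV (k • a) = (k : ℚ) • qV a := by
  funext i
  simp [qV]

theorem qV_inj {n : ℕ} {a b : Fin n → ℤ} (h : qV a = qV b) : a = b := by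
  funext i
  have := congrFun h i
  simpa [qV] using this

theorem qM_mul {l m n : ℕ} (A : Matrix (Fin l) (Fin m) ℤ) (B : Matrix (Fin m) (Fin n) ℤ) :
    qM (A * B) = qM A * qM B := by
  unfold qM
  exact Matrix.map_mul (f := Int.castRingHom ℚ)

theorem qM_one {n : ℕ} : qM (1 : Matrix (Fin n) (Fin n) ℤ) = 1 := by
  unfold qM
  exact Matrix.map_one _ (by simp) (by simp)

theorem qM_zero {m n : ℕ} : qM (0 : Matrix (Fin m) (Fin n) ℤ) = 0 := by
  ext i j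
  simp [qM]

theorem qM_add {m n : ℕ} (A B : Matrix (Fin m) (Fin n) ℤ) : qM (A + B) = qM A + qM B := by
  ext i j
  simp [qM]

theorem qM_inj {m n : ℕ} {A B : Matrix (Fin m) (Fin n) ℤ} (h : qM A = qM B) : A = B := by
  ext i j
  have := congrFun (congrFun h i) j
  simpa [qM] using this

theorem qM_mulVec {m n : ℕ} (A : Matrix (Fin m) (Fin n) ℤ) (a : Fin n → ℤ) :
    qV (A *ᵥ a) = qM A *ᵥ qV a := by
  funext i
  simp [qV, qM, Matrix.mulVec, dotProduct]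

/-- `N` of finite index, `range ι ≅ ℤ^q` in `N`, `π : N → ℤ^p` onto with kernel `range ι`. -/
structure WPre (Γ : Type) [Group Γ] (q p : ℕ) where
  N : Subgroup Γ
  fin : N.FiniteIndex
  ι : (Fin q → ℤ) → Γ
  ι_add : ∀ a b, ι (a + b) = ι a * ι b
  ι_inj : Function.Injective ι
  ι_mem : ∀ a, ι a ∈ N
  π : Γ → (Fin p → ℤ)
  π_mul : ∀ g ∈ N, ∀ h ∈ N, π (g * h) = π g + π h
  π_ι : ∀ a, π (ι a) = 0
  π_ker : ∀ g ∈ N, π g = 0 → ∃ a, g = ι a
  π_surj : ∀ x, ∃ g ∈ N, π g = x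

/-- the same, with `N` and `range ι` normal in `Γ`. -/
structure Pre (Γ : Type) [Group Γ] (q p : ℕ) extends WPre Γ q p where
  nor : N.Normal
  ι_norm : ∀ g a, ∃ b, g * ι a * g⁻¹ = ι b

section

variable {Γ : Type} [Group Γ] {q p : ℕ}

theorem WPre.ι_zero (D : WPre Γ q p) : D.ι 0 = 1 := by
  have h := D.ι_add 0 0
  rw [add_zero] at h
  exact (mul_eq_left.1 h.symm)

theorem WPre.ι_neg (D : WPre Γ q p) (a : Fin q → ℤ) : D.ι (-a) = (D.ι a)⁻¹ := by
  have h := D.ι_add (-a) a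
  rw [neg_add_cancel, D.ι_zero] at h
  exact eq_inv_of_mul_eq_one_left h.symm

theorem WPre.ι_comm (D : WPre Γ q p) (a b : Fin q → ℤ) : D.ι a * D.ι b = D.ι b * D.ι a := by
  rw [← D.ι_add, ← D.ι_add, add_comm]

theorem WPre.π_one (D : WPre Γ q p) : D.π 1 = 0 := by
  rw [← D.ι_zero]
  exact D.π_ι 0

theorem WPre.π_inv (D : WPre Γ q p) {g : Γ} (hg : g ∈ D.N) : D.π g⁻¹ = -D.π g := by
  have h := D.π_mul g⁻¹ (D.N.inv_mem hg) g hg
  rw [inv_mul_cancel, D.π_one] at h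
  exact eq_neg_of_add_eq_zero_left h.symm

/-- the actions of `Γ` on `A ≅ ℤ^q` and on `N / A ≅ ℤ^p`. -/
structure Rho (D : Pre Γ q p) where
  W : Γ →* GL (Fin q) ℤ
  V : Γ →* GL (Fin p) ℤ
  hW : ∀ g a, g * D.ι a * g⁻¹ = D.ι ((W g).val *ᵥ a)
  hV : ∀ g, ∀ h ∈ D.N, D.π (g * h * g⁻¹) = (V g).val *ᵥ D.π h

/-- a 1-cocycle of `N` with values in the affine maps `ℚ^p → ℚ^q`, `v ↦ b h + B h v`, which is
the inclusion on `A`. -/
structure Cocyc (D : Pre Γ q p) (R : Rho D) where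
  b : Γ → (Fin q → ℚ)
  B : Γ → Matrix (Fin q) (Fin p) ℚ
  B_mul : ∀ g ∈ D.N, ∀ h ∈ D.N, B (g * h) = B g + qM (R.W g).val * B h
  b_mul : ∀ g ∈ D.N, ∀ h ∈ D.N,
    b (g * h) = b g + qM (R.W g).val *ᵥ (b h - B h *ᵥ qV (D.π g))
  B_ι : ∀ a, B (D.ι a) = 0
  b_ι : ∀ a, b (D.ι a) = qV a

/-- the affine action `g (w, v) = (W g w + B g v + b g, V g v + c g)`. -/
structure Coc (D : Pre Γ q p) (R : Rho D) where
  B : Γ → Matrix (Fin q) (Fin p) ℚ
  b : Γ → (Fin q → ℚ)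
  c : Γ → (Fin p → ℚ)
  B_mul : ∀ g h, B (g * h) = qM (R.W g).val * B h + B g * qM (R.V h).val
  c_mul : ∀ g h, c (g * h) = c g + qM (R.V g).val *ᵥ c h
  b_mul : ∀ g h, b (g * h) = b g + qM (R.W g).val *ᵥ b h + B g *ᵥ c h
  B_ι : ∀ a, B (D.ι a) = 0
  b_ι : ∀ a, b (D.ι a) = qV a
  c_N : ∀ h ∈ D.N, c h = qV (D.π h)

/-- the same with integral coefficients, after rescaling. -/
structure ICoc (D : Pre Γ q p) (R : Rho D) where
  K : ℕ
  k : ℕ
  K_pos : 0 < K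
  k_pos : 0 < k
  Q : Γ → Matrix (Fin q) (Fin p) ℤ
  s : Γ → (Fin q → ℤ)
  t : Γ → (Fin p → ℤ)
  Q_mul : ∀ g h, Q (g * h) = (R.W g).val * Q h + Q g * (R.V h).val
  t_mul : ∀ g h, t (g * h) = t g + (R.V g).val *ᵥ t h
  s_mul : ∀ g h, s (g * h) = s g + (R.W g).val *ᵥ s h + Q g *ᵥ t h
  Q_ι : ∀ a, Q (D.ι a) = 0
  s_ι : ∀ a, s (D.ι a) = K • a
  t_N : ∀ h ∈ D.N, t h = k • D.π h

end

end H59E
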