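import Pool.Agent.H.MP_7a8a58_gt.h59.Defs

/-! # Module Factor: additive maps `ℤ^m → ℤ^r` are matrices

`additive_matrix`: make `f` an `AddMonoidHom`, then a `ℤ`-linear map (`AddMonoidHom.toIntLinearMap`),
then `LinearMap.toMatrix'`.
`WPre.factor`: choose for every `x` an `h_x ∈ N` with `π h_x = x` and put `f' x = f h_x`; if
`h, h' ∈ N` and `π h = π h'` then `h * h'⁻¹ = ι a` (`π_ker`), so `f h = f (ι a * h') = f h'`; so
`f h = f' (π h)` and `f'` is additive. -/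

set_option autoImplicit false

open Matrix

namespace H59E

theorem additive_matrix {m r : ℕ} (f : (Fin m → ℤ) → (Fin r → ℤ))
    (hf : ∀ a b, f (a + b) = f a + f b) :
    ∃ A : Matrix (Fin r) (Fin m) ℤ, ∀ a, f a = A *ᵥ a := by
  let F : (Fin m → ℤ) →+ (Fin r → ℤ) := AddMonoidHom.mk' f hf
  refine ⟨LinearMap.toMatrix' F.toIntLinearMap, fun a => ?_⟩
  rw [LinearMap.toMatrix'_mulVec]
  rfl

theorem WPre.factor {Γ : Type} [Group Γ] {q p : ℕ} (D : WPre Γ q p) {r : ℕ}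
    (f : Γ → (Fin r → ℤ)) (hf : ∀ g ∈ D.N, ∀ h ∈ D.N, f (g * h) = f g + f h)
    (hι : ∀ a, f (D.ι a) = 0) :
    ∃ A : Matrix (Fin r) (Fin p) ℤ, ∀ h ∈ D.N, f h = A *ᵥ D.π h := by
  choose s hsN hsπ using D.π_surj
  have key : ∀ h ∈ D.N, f h = f (s (D.π h)) := by
    intro h hh
    have h1 : h * (s (D.π h))⁻¹ ∈ D.N := D.N.mul_mem hh (D.N.inv_mem (hsN _))
    have h2 : D.π (h * (s (D.π h))⁻¹) = 0 := by
      rw [D.π_mul h hh _ (D.N.inv_mem (hsN _)), D.π_inv (hsN _), hsπ, add_neg_cancel]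
    obtain ⟨a, ha⟩ := D.π_ker _ h1 h2
    have h3 : h = D.ι a * s (D.π h) := by
      rw [← ha, inv_mul_cancel_right]
    have h4 := hf _ (D.ι_mem a) _ (hsN (D.π h))
    rw [← h3, hι, zero_add] at h4
    exact h4
  obtain ⟨A, hA⟩ := additive_matrix (fun x => f (s x)) (by
    intro a b
    have h1 := key (s a * s b) (D.N.mul_mem (hsN a) (hsN b))
    rw [D.π_mul _ (hsN a) _ (hsN b), hsπ, hsπ, hf _ (hsN a) _ (hsN b)] at h1
    exact h1.symm)
  exact ⟨A, fun h hh => by rw [key h hh]; exact hA _⟩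

/-- a matrix is determined by its values. -/
theorem matrix_ext_mulVec {m r : ℕ} {A B : Matrix (Fin r) (Fin m) ℤ}
    (h : ∀ a, A *ᵥ a = B *ᵥ a) : A = B :=
  Matrix.ext_of_mulVec_single fun _ => h _

end H59E
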