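import Pool.Agent.H.MP_7a8a58_gt.h59.Unif
import Pool.Agent.H.MP_7a8a58_gt.h59.Rho

/-! # Module Integ: integral coefficients

From `C : Coc D R`.  `B 1 = 0`, `c 1 = 0`, `b 1 = 0` (put `g = h = 1` in the cocycle relations, the
matrices `W 1`, `V 1` are `1`).
Step 1: `exists_uniform` (with `WPre.fg`) for `P d g := ∃ Q, qM Q = (d : ℚ) • C.B g` gives `d > 0`
and integral `Q g` with `qM (Q g) = d • B g` for all `g` (`h_inv`: `0 = B (g⁻¹ g) = W g⁻¹ B g + B g⁻¹ V g`, so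
`B g⁻¹ = - W g⁻¹ B g V g⁻¹`; `h_ex`: common denominator of finitely many rationals).
Step 2: `exists_uniform` for `P k g := ∃ (s : Fin q → ℤ) (t : Fin p → ℤ), qV s = ((d * k : ℕ) : ℚ) • C.b g ∧
qV t = (k : ℚ) • C.c g` gives `k > 0` and `s g`, `t g`
(`h_mul`: `d k b (g h) = d k b g + W g (d k b h) + (d B g) (k c h)`; `h_inv`: `c g⁻¹ = - V g⁻¹ c g`,
`b g⁻¹ = - W g⁻¹ b g - B g⁻¹ c g`).  `K = d * k`.  The relations follow from `qM_inj`, `qV_inj`. -/

set_option autoImplicit false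

open Matrix

namespace H59E

variable {Γ : Type} [Group Γ] {q p : ℕ}

private theorem Integ_den {ι : Type} [Fintype ι] (f : ι → ℚ) :
    ∃ d : ℕ, 0 < d ∧ ∃ z : ι → ℤ, ∀ i, ((z i : ℤ) : ℚ) = (d : ℚ) * f i := by
  classical
  refine ⟨∏ i, (f i).den, Finset.prod_pos fun i _ => (f i).den_pos, ?_⟩
  refine ⟨fun i => (f i).num * ((∏ j ∈ Finset.univ.erase i, (f j).den : ℕ) : ℤ), fun i => ?_⟩
  have h1 : (∏ j, (f j).den) = (f i).den * ∏ j ∈ Finset.univ.erase i, (f j).den :=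
    (Finset.mul_prod_erase _ _ (Finset.mem_univ i)).symm
  have h2 : ((f i).den : ℚ) * f i = (f i).num := by
    rw [mul_comm]
    exact Rat.mul_den_eq_num (f i)
  rw [h1]
  push_cast
  rw [← h2]
  ring

private theorem Integ_qM_smul {m n : ℕ} (e : ℕ) (A : Matrix (Fin m) (Fin n) ℤ) :
    qM (e • A) = (e : ℚ) • qM A := by
  ext i j
  simp [qM]

private theorem Integ_qM_neg {m n : ℕ} (A : Matrix (Fin m) (Fin n) ℤ) : qM (-A) = -qM A := by
  ext i j
  simp [qM]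

private theorem Integ_W_inv {n : ℕ} (W : Γ →* GL (Fin n) ℤ) (g : Γ) :
    qM (W g).val * qM (W g⁻¹).val = 1 := by
  rw [← qM_mul, ← Units.val_mul, ← map_mul, mul_inv_cancel, map_one, Units.val_one, qM_one]

private theorem Integ_W_one {n : ℕ} (W : Γ →* GL (Fin n) ℤ) : qM (W 1).val = 1 := by
  rw [map_one, Units.val_one, qM_one]

variable {D : Pre Γ q p} {R : Rho D}

private theorem Integ_B_one (C : Coc D R) : C.B 1 = 0 := by
  have h := C.B_mul 1 1
  rw [mul_one, Integ_W_one, Integ_W_one, Matrix.one_mul, Matrix.mul_one] at h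
  exact left_eq_add.1 h

private theorem Integ_c_one (C : Coc D R) : C.c 1 = 0 := by
  have h := C.c_mul 1 1
  rw [mul_one, Integ_W_one, Matrix.one_mulVec] at h
  exact left_eq_add.1 h

private theorem Integ_b_one (C : Coc D R) : C.b 1 = 0 := by
  have h := C.b_mul 1 1
  rw [mul_one, Integ_W_one, Matrix.one_mulVec, Integ_B_one, Matrix.zero_mulVec, add_zero] at h
  exact left_eq_add.1 h

private theorem Integ_B_inv (C : Coc D R) (g : Γ) :
    C.B g⁻¹ = -(qM (R.W g⁻¹).val * C.B g * qM (R.V g⁻¹).val) := by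
  have h := C.B_mul g⁻¹ g
  rw [inv_mul_cancel, Integ_B_one] at h
  have h2 : C.B g⁻¹ * qM (R.V g).val = -(qM (R.W g⁻¹).val * C.B g) := by
    rw [eq_comm, neg_eq_iff_add_eq_zero]
    exact h.symm
  have h3 : C.B g⁻¹ * qM (R.V g).val * qM (R.V g⁻¹).val =
      -(qM (R.W g⁻¹).val * C.B g) * qM (R.V g⁻¹).val := by rw [h2]
  rw [Matrix.mul_assoc, Integ_W_inv, Matrix.mul_one, Matrix.neg_mul] at h3
  exact h3

private theorem Integ_c_inv (C : Coc D R) (g : Γ) :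
    C.c g⁻¹ = -(qM (R.V g⁻¹).val *ᵥ C.c g) := by
  have h := C.c_mul g⁻¹ g
  rw [inv_mul_cancel, Integ_c_one] at h
  exact eq_neg_of_add_eq_zero_left h.symm

private theorem Integ_b_inv (C : Coc D R) (g : Γ) :
    C.b g⁻¹ = -(qM (R.W g⁻¹).val *ᵥ C.b g + C.B g⁻¹ *ᵥ C.c g) := by
  have h := C.b_mul g⁻¹ g
  rw [inv_mul_cancel, Integ_b_one, add_assoc] at h
  exact eq_neg_of_add_eq_zero_left h.symm

private theorem Integ_step1 (C : Coc D R) (hfg : Group.FG Γ) :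
    ∃ d : ℕ, 0 < d ∧ ∀ g, ∃ Q : Matrix (Fin q) (Fin p) ℤ, qM Q = (d : ℚ) • C.B g := by
  refine exists_uniform hfg
    (fun d g => ∃ Q : Matrix (Fin q) (Fin p) ℤ, qM Q = (d : ℚ) • C.B g) ?_ ?_ ?_ ?_ ?_
  · intro d
    exact ⟨0, by rw [Integ_B_one, smul_zero, qM_zero]⟩
  · rintro d g h ⟨Q, hQ⟩ ⟨Q', hQ'⟩
    refine ⟨(R.W g).val * Q' + Q * (R.V h).val, ?_⟩
    rw [qM_add, qM_mul, qM_mul, hQ, hQ', C.B_mul, smul_add, Matrix.mul_smul, Matrix.smul_mul]
  · rintro d g ⟨Q, hQ⟩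
    refine ⟨-((R.W g⁻¹).val * Q * (R.V g⁻¹).val), ?_⟩
    rw [Integ_qM_neg, qM_mul, qM_mul, hQ, Integ_B_inv, smul_neg, Matrix.mul_smul,
      Matrix.smul_mul]
  · rintro d e g ⟨Q, hQ⟩
    refine ⟨e • Q, ?_⟩
    rw [Integ_qM_smul, hQ, smul_smul]
    congr 1
    push_cast
    ring
  · intro g
    obtain ⟨d, hd, z, hz⟩ := Integ_den (fun x : Fin q × Fin p => C.B g x.1 x.2)
    refine ⟨d, hd, Matrix.of fun i j => z (i, j), ?_⟩
    ext i j
    have := hz (i, j)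
    simpa [qM] using this

private theorem Integ_step2 (C : Coc D R) (hfg : Group.FG Γ) (d : ℕ)
    (Q : Γ → Matrix (Fin q) (Fin p) ℤ) (hQ : ∀ g, qM (Q g) = (d : ℚ) • C.B g) :
    ∃ k : ℕ, 0 < k ∧ ∀ g, ∃ (s : Fin q → ℤ) (t : Fin p → ℤ),
      qV s = ((d * k : ℕ) : ℚ) • C.b g ∧ qV t = (k : ℚ) • C.c g := by
  refine exists_uniform hfg (fun k g => ∃ (s : Fin q → ℤ) (t : Fin p → ℤ),
      qV s = ((d * k : ℕ) : ℚ) • C.b g ∧ qV t = (k : ℚ) • C.c g) ?_ ?_ ?_ ?_ ?_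
  · intro k
    exact ⟨0, 0, by rw [Integ_b_one, smul_zero, qV_zero], by rw [Integ_c_one, smul_zero, qV_zero]⟩
  · rintro k g h ⟨s, t, hs, ht⟩ ⟨s', t', hs', ht'⟩
    refine ⟨s + (R.W g).val *ᵥ s' + Q g *ᵥ t', t + (R.V g).val *ᵥ t', ?_, ?_⟩
    · rw [qV_add, qV_add, qM_mulVec, qM_mulVec, hs, hs', ht', hQ, C.b_mul, smul_add, smul_add,
        Matrix.mulVec_smul, Matrix.mulVec_smul, Matrix.smul_mulVec, smul_smul]
      congr 2
      push_cast
      ring
    · rw [qV_add, qM_mulVec, ht, ht', C.c_mul, smul_add, Matrix.mulVec_smul]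
  · rintro k g ⟨s, t, hs, ht⟩
    refine ⟨-((R.W g⁻¹).val *ᵥ s + Q g⁻¹ *ᵥ t), -((R.V g⁻¹).val *ᵥ t), ?_, ?_⟩
    · rw [qV_neg, qV_add, qM_mulVec, qM_mulVec, hs, ht, hQ, Integ_b_inv, smul_neg, smul_add,
        Matrix.mulVec_smul, Matrix.mulVec_smul, Matrix.smul_mulVec, smul_smul]
      congr 3
      push_cast
      ring
    · rw [qV_neg, qM_mulVec, ht, Integ_c_inv, smul_neg, Matrix.mulVec_smul]
  · rintro k e g ⟨s, t, hs, ht⟩
    refine ⟨e • s, e • t, ?_, ?_⟩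
    · rw [qV_nsmul, hs, smul_smul]
      congr 1
      push_cast
      ring
    · rw [qV_nsmul, ht, smul_smul]
      congr 1
      push_cast
      ring
  · intro g
    obtain ⟨k, hk, z, hz⟩ := Integ_den (fun x : Fin q ⊕ Fin p => Sum.elim (C.b g) (C.c g) x)
    refine ⟨k, hk, d • (fun i => z (Sum.inl i)), fun j => z (Sum.inr j), ?_, ?_⟩
    · rw [qV_nsmul]
      funext i
      have := hz (Sum.inl i)
      simp only [Sum.elim_inl] at this
      simp only [qV, Pi.smul_apply, smul_eq_mul, this]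
      push_cast
      ring
    · funext j
      have := hz (Sum.inr j)
      simp only [Sum.elim_inr] at this
      simp only [qV, Pi.smul_apply, smul_eq_mul, this]

theorem exists_icoc (D : Pre Γ q p) (R : Rho D) (C : Coc D R) : Nonempty (ICoc D R) := by
  have hfg : Group.FG Γ := D.toWPre.fg
  obtain ⟨d, hd, h1⟩ := Integ_step1 C hfg
  choose Q hQ using h1
  obtain ⟨k, hk, h2⟩ := Integ_step2 C hfg d Q hQ
  choose s t hs ht using h2
  refine ⟨{ K := d * k, k := k, K_pos := Nat.mul_pos hd hk, k_pos := hk, Q := Q, s := s, t := t,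
            Q_mul := ?_, t_mul := ?_, s_mul := ?_, Q_ι := ?_, s_ι := ?_, t_N := ?_ }⟩
  · intro g h
    apply qM_inj
    rw [qM_add, qM_mul, qM_mul, hQ, hQ, hQ, C.B_mul, smul_add, Matrix.mul_smul, Matrix.smul_mul]
  · intro g h
    apply qV_inj
    rw [qV_add, qM_mulVec, ht, ht, ht, C.c_mul, smul_add, Matrix.mulVec_smul]
  · intro g h
    apply qV_inj
    rw [qV_add, qV_add, qM_mulVec, qM_mulVec, hs, hs, hs, ht, hQ, C.b_mul, smul_add, smul_add,
      Matrix.mulVec_smul, Matrix.mulVec_smul, Matrix.smul_mulVec, smul_smul]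
    congr 2
    push_cast
    ring
  · intro a
    apply qM_inj
    rw [hQ, C.B_ι, smul_zero, qM_zero]
  · intro a
    apply qV_inj
    rw [hs, C.b_ι, qV_nsmul]
  · intro h hh
    apply qV_inj
    rw [ht, C.c_N h hh, qV_nsmul]

end H59E
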