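import Pool.Agent.H.MP_7a8a58_gt.h59.Proper
import Pool.Agent.H.MP_7a8a58_gt.h59.Cocompact

/-! # Module Pairs: the integral affine manifold

`X = (Fin q → ℝ) × (Fin p → ℝ)` (as a type synonym or with a local `MulAction Γ X` given by `act`),
`dev (w, v) = Sum.elim w v ∘ finSumFinEquiv.symm` (a homeomorphism onto `Fin (q + p) → ℝ`:
`Homeomorph.sumArrowHomeomorphProdArrow`, `Homeomorph.piCongrLeft`, or directly: continuous with
continuous inverse), `lin g = reindex finSumFinEquiv finSumFinEquiv (fromBlocks (W g) (Q g) 0 (V g))`: a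
monoid homomorphism to matrices by `Q_mul` (`Matrix.fromBlocks_multiply`), then
`MonoidHom.toHomUnits`; `trans g = rV (Sum.elim (s g) (t g) ∘ finSumFinEquiv.symm)`.
Proper: `act_proper` (the definition of `ProperlyDiscontinuousSMul` has two compact sets: apply
`act_proper` to their union).  Cocompact: `act_cocompact`.
Free: if `g x = x` then `g ^ n x = x` for all `n`, so by `act_proper` for `K₀ = {x}` the powers of `g` are
finitely many, `g ^ m = g ^ n` with `m < n`, `g ^ (n - m) = 1`, `g = 1` by `htf`.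
Last row: `Γ' = D.N`.  For `h ∈ N`: `V h = 1` (`Rho.V_N`); if `0 < p` the index `i` with `i + 1 = q + p` is
`finSumFinEquiv (inr last)`, and the row is `(0, V h) = (0, 1)`.  If `p = 0` then `π h = 0` for `h ∈ N`
(functions on `Fin 0`), so `h = ι a`, `W h = 1` (`Rho.W_ι`), `lin h = 1`. -/

set_option autoImplicit false

open Matrix

namespace H59E

variable {Γ : Type} [Group Γ] {q p : ℕ}

/-- the developing map -/
private def Pairs_dev (q p : ℕ) : ((Fin q → ℝ) × (Fin p → ℝ)) ≃ₜ (Fin (q + p) → ℝ) where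
  toFun x := fun i => Sum.elim x.1 x.2 (finSumFinEquiv.symm i)
  invFun y := (fun i => y (finSumFinEquiv (Sum.inl i)), fun j => y (finSumFinEquiv (Sum.inr j)))
  left_inv x := by
    refine Prod.ext ?_ ?_
    · funext i
      show Sum.elim x.1 x.2 (finSumFinEquiv.symm (finSumFinEquiv (Sum.inl i))) = x.1 i
      rw [Equiv.symm_apply_apply]
      rfl
    · funext i
      show Sum.elim x.1 x.2 (finSumFinEquiv.symm (finSumFinEquiv (Sum.inr i))) = x.2 i
      rw [Equiv.symm_apply_apply]
      rfl
  right_inv y := by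
    funext i
    obtain ⟨s, rfl⟩ := finSumFinEquiv.surjective i
    show Sum.elim _ _ (finSumFinEquiv.symm (finSumFinEquiv s)) = _
    rw [Equiv.symm_apply_apply]
    cases s <;> rfl
  continuous_toFun := by
    refine continuous_pi fun i => ?_
    rcases finSumFinEquiv.symm i with a | b
    · exact (continuous_apply a).comp continuous_fst
    · exact (continuous_apply b).comp continuous_snd
  continuous_invFun := by
    refine Continuous.prodMk ?_ ?_
    · exact continuous_pi fun i => continuous_apply _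
    · exact continuous_pi fun i => continuous_apply _

/-- the linear parts -/
private def Pairs_lin {D : Pre Γ q p} {R : Rho D} (C : ICoc D R) :
    Γ →* Matrix (Fin (q + p)) (Fin (q + p)) ℤ where
  toFun g := (fromBlocks (R.W g).val (C.Q g) 0 (R.V g).val).submatrix finSumFinEquiv.symm
    finSumFinEquiv.symm
  map_one' := by
    rw [map_one, map_one, Units.val_one, Units.val_one, C.Q_one, fromBlocks_one,
      submatrix_one_equiv]
  map_mul' g h := by
    rw [submatrix_mul_equiv, fromBlocks_multiply, map_mul, map_mul, Units.val_mul, Units.val_mul,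
      C.Q_mul]
    simp only [Matrix.mul_zero, Matrix.zero_mul, add_zero, zero_add]

private theorem Pairs_smul {D : Pre Γ q p} {R : Rho D} (C : ICoc D R) (g : Γ)
    (x : (Fin q → ℝ) × (Fin p → ℝ)) :
    Pairs_dev q p (act C g x) = (((Pairs_lin C).toHomUnits g :
        Matrix (Fin (q + p)) (Fin (q + p)) ℤ).map (fun a : ℤ => (a : ℝ))).mulVec
        (Pairs_dev q p x) +
      H83T.rV (Sum.elim (C.s g) (C.t g) ∘ finSumFinEquiv.symm) := by
  have h1 : ((Pairs_lin C).toHomUnits g : Matrix (Fin (q + p)) (Fin (q + p)) ℤ).map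
      (fun a : ℤ => (a : ℝ)) =
      (fromBlocks (realM (R.W g).val) (realM (C.Q g)) 0 (realM (R.V g).val)).submatrix
        finSumFinEquiv.symm finSumFinEquiv.symm := by
    rw [MonoidHom.coe_toHomUnits]
    show ((fromBlocks (R.W g).val (C.Q g) 0 (R.V g).val).submatrix finSumFinEquiv.symm
      finSumFinEquiv.symm).map (fun a : ℤ => (a : ℝ)) = _
    rw [← submatrix_map, fromBlocks_map, Matrix.map_zero _ (by simp)]
    rfl
  rw [h1, submatrix_mulVec_equiv, fromBlocks_mulVec]
  funext i
  obtain ⟨s, rfl⟩ := finSumFinEquiv.surjective i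
  show Sum.elim _ _ (finSumFinEquiv.symm (finSumFinEquiv s)) =
    Sum.elim _ _ (finSumFinEquiv.symm (finSumFinEquiv s)) +
      ((Sum.elim (C.s g) (C.t g) (finSumFinEquiv.symm (finSumFinEquiv s)) : ℤ) : ℝ)
  have hl : (Pairs_dev q p x ∘ (finSumFinEquiv.symm).symm) ∘ Sum.inl = x.1 := by
    funext i
    show Sum.elim x.1 x.2 (finSumFinEquiv.symm (finSumFinEquiv (Sum.inl i))) = x.1 i
    rw [Equiv.symm_apply_apply]
    rfl
  have hr : (Pairs_dev q p x ∘ (finSumFinEquiv.symm).symm) ∘ Sum.inr = x.2 := by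
    funext i
    show Sum.elim x.1 x.2 (finSumFinEquiv.symm (finSumFinEquiv (Sum.inr i))) = x.2 i
    rw [Equiv.symm_apply_apply]
    rfl
  rw [hl, hr, Equiv.symm_apply_apply]
  cases s with
  | inl a => rfl
  | inr b =>
    rw [Matrix.zero_mulVec, zero_add]
    rfl

private theorem Pairs_free (htf : TF Γ) {D : Pre Γ q p} {R : Rho D} (C : ICoc D R) (g : Γ)
    (x : (Fin q → ℝ) × (Fin p → ℝ)) (hx : act C g x = x) : g = 1 := by
  have h1 : ∀ n : ℕ, act C (g ^ n) x = x := by
    intro n
    induction n with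
    | zero => rw [pow_zero, act_one]
    | succ n ih => rw [pow_succ, act_mul, hx, ih]
  have h2 := act_proper C {x} isCompact_singleton
  have h4 : ∀ n : ℕ, g ^ n ∈ {g : Γ | ∃ y ∈ ({x} : Set ((Fin q → ℝ) × (Fin p → ℝ))),
      act C g y ∈ ({x} : Set ((Fin q → ℝ) × (Fin p → ℝ)))} := fun n => ⟨x, rfl, h1 n⟩
  obtain ⟨m, n, hmn, he⟩ := h2.exists_lt_map_eq_of_forall_mem h4
  refine htf g (n - m) (Nat.sub_pos_of_lt hmn) ?_
  have h3 : g ^ m * g ^ (n - m) = g ^ m * 1 := by
    rw [← pow_add, Nat.add_sub_cancel' hmn.le, mul_one]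
    exact he.symm
  exact mul_left_cancel h3

theorem good_of_icoc (htf : TF Γ) {D : Pre Γ q p} {R : Rho D} (C : ICoc D R) :
    Good Γ (q + p) := by
  let A : MulAction Γ ((Fin q → ℝ) × (Fin p → ℝ)) :=
    { smul := act C
      one_smul := act_one C
      mul_smul := act_mul C }
  have hcont : @ContinuousConstSMul Γ ((Fin q → ℝ) × (Fin p → ℝ)) _ A.toSMul :=
    @ContinuousConstSMul.mk _ _ _ A.toSMul (fun g => act_continuous C g)
  have hpd : @ProperlyDiscontinuousSMul Γ ((Fin q → ℝ) × (Fin p → ℝ)) _ A.toSMul := by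
    refine @ProperlyDiscontinuousSMul.mk _ _ _ A.toSMul ?_
    intro K L hK hL
    refine (act_proper C (K ∪ L) (hK.union hL)).subset ?_
    rintro g ⟨y, ⟨x, hx, rfl⟩, hy⟩
    exact ⟨x, Or.inl hx, Or.inr hy⟩
  let S : H83T.IntAffPair (q + p) :=
    { X := (Fin q → ℝ) × (Fin p → ℝ)
      Γ := Γ
      act := A
      cont := hcont
      pd := hpd
      dev := Pairs_dev q p
      lin := (Pairs_lin C).toHomUnits
      trans := fun g => H83T.rV (Sum.elim (C.s g) (C.t g) ∘ finSumFinEquiv.symm)
      isLocalHomeomorph_dev := (Pairs_dev q p).isLocalHomeomorph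
      dev_smul := fun g x => Pairs_smul C g x
      free := fun g x hx => Pairs_free htf C g x hx
      cocompact := act_cocompact C }
  refine ⟨S, ⟨MulEquiv.refl Γ⟩, (Pairs_dev q p).isHomeomorph, fun g => ⟨_, rfl⟩, D.N, D.fin, ?_⟩
  intro g hg i hi j
  have hV := R.V_N hg
  have h1 : (S.lin g).val i j = fromBlocks (R.W g).val (C.Q g) 0 (R.V g).val
      (finSumFinEquiv.symm i) (finSumFinEquiv.symm j) := rfl
  have h2 : (if j = i then (1 : ℤ) else 0) =
      (1 : Matrix (Fin q ⊕ Fin p) (Fin q ⊕ Fin p) ℤ) (finSumFinEquiv.symm i)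
        (finSumFinEquiv.symm j) := by
    rw [Matrix.one_apply]
    by_cases h : j = i
    · rw [if_pos h, if_pos (by rw [h])]
    · rw [if_neg h, if_neg (fun h' => h (finSumFinEquiv.symm.injective h').symm)]
  rw [h1, h2, hV, Units.val_one, ← fromBlocks_one]
  obtain ⟨s, rfl⟩ := finSumFinEquiv.surjective i
  rw [Equiv.symm_apply_apply]
  rcases s with a | b
  · have hp : p = 0 := by
      rw [finSumFinEquiv_apply_left, Fin.val_castAdd] at hi
      have := a.isLt
      omega
    subst hp
    obtain ⟨c, hc⟩ := D.π_ker g hg (Subsingleton.elim _ _)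
    rcases finSumFinEquiv.symm j with a' | b'
    · rw [hc, R.W_ι, Units.val_one]
      rfl
    · exact b'.elim0
  · rcases finSumFinEquiv.symm j with a' | b' <;> rfl

end H59E
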