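import Pool.Agent.H.MP_7a8a58_gt.h59.Coord
import Pool.Agent.H.MP_7a8a58_gt.h59.CenFG

/-! # Module PreSplit: split extensions

`N = (A ⊔ Z).normalCore`: contains `A` (normal, `A ≤ A ⊔ Z`), of finite index.  `Z' = N ⊓ Z`, f.g. by
`sub_fg` (a subgroup of the f.g. abelian group `Z`).  `N = A Z'` (every element of `A ⊔ Z` is `a * z`,
`Subgroup.mem_sup_of_normal_left`-like lemma; if it is in `N` then `z = a⁻¹ (a z) ∈ N`), uniquely
(`A ⊓ Z = ⊥`).  `exists_coord` for `A` and `Z'` gives `ι : ℤ^q ≅ A` and `σ : ℤ^p ≅ Z'`;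
`π (a * z) = σ⁻¹ z`, `π = 0` outside `N`. -/

set_option autoImplicit false

namespace H59E

theorem exists_pre_split {Γ : Type} [Group Γ] (htf : TF Γ) (A Z : Subgroup Γ) (hAn : A.Normal)
    (hA : A.FG) (hZ : Z.FG) (hAc : ∀ x ∈ A, ∀ y ∈ A, x * y = y * x)
    (hZc : ∀ x ∈ Z, ∀ y ∈ Z, x * y = y * x) (hAZ : A ⊓ Z = ⊥) (hfin : (A ⊔ Z).FiniteIndex) :
    ∃ (q p : ℕ) (D : Pre Γ q p) (σ : (Fin p → ℤ) → Γ), (∀ x y, σ (x + y) = σ x * σ y) ∧
      (∀ x, σ x ∈ D.N) ∧ ∀ x, D.π (σ x) = x := by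
  classical
  haveI := hAn
  haveI := hfin
  -- the two lattices
  letI : CommGroup A := { (inferInstance : Group A) with
    mul_comm := fun x y => Subtype.ext (hAc x x.2 y y.2) }
  letI : CommGroup Z := { (inferInstance : Group Z) with
    mul_comm := fun x y => Subtype.ext (hZc x x.2 y y.2) }
  have htA : TF A := fun g n hn hg => Subtype.ext (htf g n hn (by
    rw [← Subgroup.coe_pow, hg, Subgroup.coe_one]))
  obtain ⟨q, e, he, hadd⟩ := exists_coord ((Group.fg_iff_subgroup_fg A).2 hA) htA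
  set N : Subgroup Γ := (A ⊔ Z).normalCore with hN
  set H : Subgroup Z := N.subgroupOf Z with hH
  have hHfg : H.FG := sub_fg ((Group.fg_iff_subgroup_fg Z).2 hZ) H
  have htH : TF H := fun g n hn hg => Subtype.ext (Subtype.ext (htf ((g : Z) : Γ) n hn (by
    rw [← Subgroup.coe_pow, ← Subgroup.coe_pow, hg, Subgroup.coe_one, Subgroup.coe_one])))
  obtain ⟨p, f, hf, fadd⟩ := exists_coord ((Group.fg_iff_subgroup_fg H).2 hHfg) htH
  obtain ⟨ι, hι⟩ : ∃ ι : (Fin q → ℤ) → Γ, ι = fun x => ((e x : A) : Γ) := ⟨_, rfl⟩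
  obtain ⟨σ, hσ⟩ : ∃ σ : (Fin p → ℤ) → Γ, σ = fun x => (((f x : H) : Z) : Γ) := ⟨_, rfl⟩
  have ιadd : ∀ x y, ι (x + y) = ι x * ι y := by
    intro x y
    rw [hι]
    change ((e (x + y) : A) : Γ) = (e x : Γ) * (e y : Γ)
    rw [hadd]
    rfl
  have σadd : ∀ x y, σ (x + y) = σ x * σ y := by
    intro x y
    rw [hσ]
    change (((f (x + y) : H) : Z) : Γ) = (((f x : H) : Z) : Γ) * (((f y : H) : Z) : Γ)
    rw [fadd]
    rfl
  have ιinj : Function.Injective ι := by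
    intro x y hxy
    rw [hι] at hxy
    exact he.1 (Subtype.ext hxy)
  have σinj : Function.Injective σ := by
    intro x y hxy
    rw [hσ] at hxy
    exact hf.1 (Subtype.ext (Subtype.ext hxy))
  have ιA : ∀ x, ι x ∈ A := by
    intro x
    rw [hι]
    exact (e x).2
  have σZ : ∀ x, σ x ∈ Z := by
    intro x
    rw [hσ]
    exact ((f x : H) : Z).2
  have σN : ∀ x, σ x ∈ N := by
    intro x
    rw [hσ]
    exact (f x).2
  have hAN : A ≤ N := Subgroup.normal_le_normalCore.2 le_sup_left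
  have ιN : ∀ x, ι x ∈ N := fun x => hAN (ιA x)
  have Aι : ∀ a ∈ A, ∃ x, a = ι x := by
    intro a ha
    obtain ⟨x, hx⟩ := he.2 ⟨a, ha⟩
    refine ⟨x, ?_⟩
    rw [hι]
    change a = ((e x : A) : Γ)
    rw [hx]
  have Zσ : ∀ z ∈ Z, z ∈ N → ∃ x, z = σ x := by
    intro z hz hzN
    obtain ⟨x, hx⟩ := hf.2 ⟨⟨z, hz⟩, hzN⟩
    refine ⟨x, ?_⟩
    rw [hσ]
    change z = (((f x : H) : Z) : Γ)
    rw [hx]
  have hdec : ∀ g ∈ N, ∃ (a : Fin q → ℤ) (x : Fin p → ℤ), g = ι a * σ x := by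
    intro g hg
    have h1 : g ∈ A ⊔ Z := Subgroup.normalCore_le _ hg
    have h2 : g ∈ ((A ⊔ Z : Subgroup Γ) : Set Γ) := h1
    rw [Subgroup.normal_mul] at h2
    obtain ⟨a, ha, z, hz, haz⟩ := Set.mem_mul.1 h2
    have hzN : z ∈ N := by
      have h3 : z = a⁻¹ * g := by rw [← haz, inv_mul_cancel_left]
      rw [h3]
      exact N.mul_mem (N.inv_mem (hAN ha)) hg
    obtain ⟨x, hx⟩ := Aι a ha
    obtain ⟨y, hy⟩ := Zσ z hz hzN
    exact ⟨x, y, by rw [← haz, hx, hy]⟩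
  have huni : ∀ a a' x x', ι a * σ x = ι a' * σ x' → x = x' := by
    intro a a' x x' h
    have h1 : (ι a')⁻¹ * ι a = σ x' * (σ x)⁻¹ := by
      rw [inv_mul_eq_iff_eq_mul, ← mul_assoc, ← h, mul_inv_cancel_right]
    have h2 : σ x' * (σ x)⁻¹ ∈ A ⊓ Z := by
      refine Subgroup.mem_inf.2 ⟨?_, Z.mul_mem (σZ x') (Z.inv_mem (σZ x))⟩
      rw [← h1]
      exact A.mul_mem (A.inv_mem (ιA a')) (ιA a)
    rw [hAZ, Subgroup.mem_bot] at h2
    exact (σinj (mul_inv_eq_one.1 h2)).symm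
  have hdec' : ∀ g : Γ, ∃ x : Fin p → ℤ, g ∈ N → ∃ a : Fin q → ℤ, g = ι a * σ x := by
    intro g
    by_cases hg : g ∈ N
    · obtain ⟨a, x, h⟩ := hdec g hg
      exact ⟨x, fun _ => ⟨a, h⟩⟩
    · exact ⟨0, fun h => absurd h hg⟩
  choose π hπ using hdec'
  have πeq : ∀ (a : Fin q → ℤ) (x : Fin p → ℤ), ∀ g ∈ N, g = ι a * σ x → π g = x := by
    intro a x g hg h
    obtain ⟨a', h'⟩ := hπ g hg
    exact huni a' a _ _ (h'.symm.trans h)
  have ι0 : ι 0 = 1 := by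
    have h := ιadd 0 0
    rw [add_zero] at h
    exact mul_eq_left.1 h.symm
  have σ0 : σ 0 = 1 := by
    have h := σadd 0 0
    rw [add_zero] at h
    exact mul_eq_left.1 h.symm
  have πσ : ∀ x, π (σ x) = x := fun x => πeq 0 x _ (σN x) (by rw [ι0, one_mul])
  refine ⟨q, p, { N := N
                  fin := by rw [hN]; infer_instance
                  ι := ι
                  ι_add := ιadd
                  ι_inj := ιinj
                  ι_mem := ιN
                  π := π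
                  π_mul := ?_
                  π_ι := fun a => πeq a 0 _ (ιN a) (by rw [σ0, mul_one])
                  π_ker := ?_
                  π_surj := fun x => ⟨σ x, σN x, πσ x⟩
                  nor := by rw [hN]; exact Subgroup.normalCore_normal _
                  ι_norm := ?_ }, σ, σadd, σN, πσ⟩
  · intro g hg h hh
    obtain ⟨a, ha⟩ := hπ g hg
    obtain ⟨b, hb⟩ := hπ h hh
    obtain ⟨c, hc⟩ := Aι (σ (π g) * ι b * (σ (π g))⁻¹) (hAn.conj_mem _ (ιA b) _)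
    refine πeq (a + c) (π g + π h) _ (N.mul_mem hg hh) ?_
    rw [ιadd, σadd, ← hc]
    nth_rewrite 1 [ha]
    nth_rewrite 1 [hb]
    group
  · intro g hg h0
    obtain ⟨a, ha⟩ := hπ g hg
    rw [h0, σ0, mul_one] at ha
    exact ⟨a, ha⟩
  · intro g a
    obtain ⟨b, hb⟩ := Aι (g * ι a * g⁻¹) (hAn.conj_mem _ (ιA a) _)
    exact ⟨b, hb⟩

end H59E
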