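import Pool.Agent.H.MP_7a8a58_gt.h59.Coord
import Pool.Agent.H.MP_7a8a58_gt.h59.CenFG

/-! # Module PreTwo: class `≤ 2`

`N = H.normalCore` (normal, of finite index in `Γ`, contained in `H`), f.g. because it has finite
index in `H` (`N.subgroupOf H`; Schreier: `Subgroup.fg_of_index_ne_zero`).  `Z = center N`, f.g. by
`center_fg`, torsion-free: `exists_coord` gives `ι : ℤ^q ≅ Z ≤ N ≤ Γ`.  `Z` is normal in `Γ`
(characteristic in the normal subgroup `N`: for `z ∈ Z`, `g ∈ Γ`, `h ∈ N`,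
`g z g⁻¹ h = g z (g⁻¹ h g) g⁻¹ = g (g⁻¹ h g) z g⁻¹ = h g z g⁻¹`).
`N / Z` is abelian (`h2`), f.g., torsion-free: if `x ^ n ∈ Z`, `n > 0`, then for all `y ∈ N`
`⁅x, y⁆ ^ n = ⁅x ^ n, y⁆ = 1` (`⁅x, y⁆` central), so `⁅x, y⁆ = 1` and `x ∈ Z`.  `exists_coord` gives
`π : N → N / Z ≅ ℤ^p` (put `π = 0` outside `N`). -/

set_option autoImplicit false

namespace H59E

private theorem PreTwo_pow {N : Type} [Group N]
    (h2 : ∀ x y z : N, x * y * x⁻¹ * y⁻¹ * z = z * (x * y * x⁻¹ * y⁻¹)) (x y : N) (n : ℕ) :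
    x ^ n * y * (x ^ n)⁻¹ * y⁻¹ = (x * y * x⁻¹ * y⁻¹) ^ n := by
  obtain ⟨c, hc⟩ : ∃ c, c = x * y * x⁻¹ * y⁻¹ := ⟨_, rfl⟩
  have hcx : Commute c x := by
    rw [hc]
    exact h2 x y x
  rw [← hc]
  induction n with
  | zero => simp
  | succ n ih =>
    have h : x ^ n * y * (x ^ n)⁻¹ = c ^ n * y := by
      rw [← ih, inv_mul_cancel_right]
    have hxc : c ^ n * x = x * c ^ n := (hcx.pow_left n).eq
    calc x ^ (n + 1) * y * (x ^ (n + 1))⁻¹ * y⁻¹
        = x * (x ^ n * y * (x ^ n)⁻¹) * x⁻¹ * y⁻¹ := by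
          rw [pow_succ', mul_inv_rev]
          simp only [mul_assoc]
      _ = x * c ^ n * (y * x⁻¹ * y⁻¹) := by
          rw [h]
          simp only [mul_assoc]
      _ = c ^ n * (x * y * x⁻¹ * y⁻¹) := by
          rw [← hxc]
          simp only [mul_assoc]
      _ = c ^ (n + 1) := by rw [← hc, pow_succ]

private theorem PreTwo_cen {N : Type} [Group N] (htf : TF N)
    (h2 : ∀ x y z : N, x * y * x⁻¹ * y⁻¹ * z = z * (x * y * x⁻¹ * y⁻¹)) {x : N} {n : ℕ}
    (hn : 0 < n) (hx : x ^ n ∈ Subgroup.center N) : x ∈ Subgroup.center N := by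
  rw [Subgroup.mem_center_iff] at hx ⊢
  intro y
  have h1 := PreTwo_pow h2 x y n
  rw [← hx y, mul_inv_cancel_right, mul_inv_cancel] at h1
  have h3 := htf _ n hn h1.symm
  rw [mul_inv_eq_one, mul_inv_eq_iff_eq_mul] at h3
  exact h3.symm

/-- the quotient by the center: coordinates -/
private theorem PreTwo_quot {N : Type} [Group N] (hfg : Group.FG N) (htf : TF N)
    (h2 : ∀ x y z : N, x * y * x⁻¹ * y⁻¹ * z = z * (x * y * x⁻¹ * y⁻¹)) :
    ∃ (p : ℕ) (π : N → (Fin p → ℤ)), (∀ g h, π (g * h) = π g + π h) ∧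
      (∀ g, π g = 0 ↔ g ∈ Subgroup.center N) ∧ Function.Surjective π := by
  let inst : CommGroup (N ⧸ Subgroup.center N) :=
    { (inferInstance : Group (N ⧸ Subgroup.center N)) with
      mul_comm := by
        intro a b
        obtain ⟨x, rfl⟩ := QuotientGroup.mk_surjective a
        obtain ⟨y, rfl⟩ := QuotientGroup.mk_surjective b
        refine QuotientGroup.eq.2 ?_
        rw [Subgroup.mem_center_iff]
        intro z
        have h := h2 y⁻¹ x⁻¹ z
        rw [inv_inv, inv_inv] at h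
        rw [mul_inv_rev]
        simp only [mul_assoc] at h ⊢
        exact h.symm }
  have hf : Group.FG (N ⧸ Subgroup.center N) := QuotientGroup.fg _
  have ht : TF (N ⧸ Subgroup.center N) := by
    intro a n hn ha
    obtain ⟨x, rfl⟩ := QuotientGroup.mk_surjective a
    have h1 : ((x ^ n : N) : N ⧸ Subgroup.center N) = 1 := ha
    exact (QuotientGroup.eq_one_iff x).2 (PreTwo_cen htf h2 hn ((QuotientGroup.eq_one_iff _).1 h1))
  obtain ⟨p, e, he, hadd⟩ := exists_coord hf ht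
  obtain ⟨E, hE⟩ : ∃ E : (Fin p → ℤ) ≃ N ⧸ Subgroup.center N, ∀ x, E x = e x :=
    ⟨Equiv.ofBijective e he, fun _ => rfl⟩
  have hmul : ∀ a b : N ⧸ Subgroup.center N, E.symm (a * b) = E.symm a + E.symm b := by
    intro a b
    rw [Equiv.symm_apply_eq, hE, hadd, ← hE, ← hE, E.apply_symm_apply, E.apply_symm_apply]
  have hone : E.symm 1 = 0 := by
    have h := hmul 1 1
    rw [mul_one] at h
    exact left_eq_add.1 h
  refine ⟨p, fun g => E.symm (g : N ⧸ Subgroup.center N),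
    fun g h => hmul (g : N ⧸ Subgroup.center N) (h : N ⧸ Subgroup.center N), fun g => ?_,
    E.symm.surjective.comp QuotientGroup.mk_surjective⟩
  show E.symm (g : N ⧸ Subgroup.center N) = 0 ↔ g ∈ Subgroup.center N
  rw [← hone, E.symm.injective.eq_iff, QuotientGroup.eq_one_iff]

theorem exists_pre_two {Γ : Type} [Group Γ] (htf : TF Γ) (H : Subgroup Γ) (hH : H.FiniteIndex)
    (hfg : H.FG)
    (h2 : ∀ x ∈ H, ∀ y ∈ H, ∀ z ∈ H, x * y * x⁻¹ * y⁻¹ * z = z * (x * y * x⁻¹ * y⁻¹)) :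
    ∃ (q p : ℕ) (D : Pre Γ q p), ∀ h ∈ D.N, ∀ a, h * D.ι a = D.ι a * h := by
  obtain ⟨N, hN⟩ : ∃ N, N = H.normalCore := ⟨_, rfl⟩
  have hNle : N ≤ H := by
    rw [hN]
    exact H.normalCore_le
  have hNn : N.Normal := by
    rw [hN]
    infer_instance
  have hNf : N.FiniteIndex := by
    rw [hN]
    infer_instance
  have hHfg : Group.FG H := (Group.fg_iff_subgroup_fg H).2 hfg
  have hNfg : Group.FG N := by
    have h1 : (N.subgroupOf H).FiniteIndex := inferInstance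
    have h3 : Group.FG (N.subgroupOf H) := inferInstance
    exact Group.fg_of_surjective (f := (Subgroup.subgroupOfEquivOfLe hNle).toMonoidHom)
      (Subgroup.subgroupOfEquivOfLe hNle).surjective
  have hNtf : TF N := fun g n hn h => Subtype.ext (htf _ n hn (by
    have := congrArg Subtype.val h
    simpa using this))
  have hN2 : ∀ x y z : N, x * y * x⁻¹ * y⁻¹ * z = z * (x * y * x⁻¹ * y⁻¹) := fun x y z =>
    Subtype.ext (h2 x (hNle x.2) y (hNle y.2) z (hNle z.2))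
  have hZfg : Group.FG (Subgroup.center N) :=
    (Group.fg_iff_subgroup_fg _).2 (center_fg hNfg hN2)
  have hZtf : TF (Subgroup.center N) := fun g n hn h => Subtype.ext (hNtf _ n hn (by
    have := congrArg Subtype.val h
    simpa using this))
  let instZ : CommGroup (Subgroup.center N) :=
    { (inferInstance : Group (Subgroup.center N)) with
      mul_comm := fun a b => Subtype.ext (Subgroup.mem_center_iff.1 b.2 a) }
  obtain ⟨q, e, he, hadd⟩ := exists_coord (A := Subgroup.center N) hZfg hZtf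
  obtain ⟨p, π, hπm, hπk, hπs⟩ := PreTwo_quot hNfg hNtf hN2
  classical
  have hπ : ∀ g : N, (fun g : Γ => if h : g ∈ N then π ⟨g, h⟩ else 0) (g : Γ) = π g := fun g => by
    show (if h : (g : Γ) ∈ N then π ⟨g, h⟩ else 0) = π g
    rw [dif_pos g.2]
  refine ⟨q, p, ⟨⟨N, hNf, fun a => ((e a : N) : Γ), ?_, ?_, fun a => (e a : N).2,
    fun g => if h : g ∈ N then π ⟨g, h⟩ else 0, ?_, ?_, ?_, ?_⟩, hNn, ?_⟩, ?_⟩
  · intro a b
    rw [hadd]
    rfl
  · intro a b h
    exact he.1 (Subtype.ext (Subtype.ext h))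
  · intro g hg h hh
    have h1 := hπm ⟨g, hg⟩ ⟨h, hh⟩
    rw [← hπ, ← hπ, ← hπ] at h1
    exact h1
  · intro a
    refine (hπ (e a : N)).trans ((hπk _).2 (e a).2)
  · intro g hg h0
    have h1 : π ⟨g, hg⟩ = 0 := (hπ ⟨g, hg⟩).symm.trans h0
    obtain ⟨a, ha⟩ := he.2 ⟨⟨g, hg⟩, (hπk _).1 h1⟩
    refine ⟨a, ?_⟩
    show g = ((e a : N) : Γ)
    rw [ha]
  · intro x
    obtain ⟨g, hg⟩ := hπs x
    exact ⟨g, g.2, (hπ g).trans hg⟩
  · intro g a
    have h1 : g * ((e a : N) : Γ) * g⁻¹ ∈ N := hNn.conj_mem _ (e a : N).2 g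
    have h3 : (⟨g * ((e a : N) : Γ) * g⁻¹, h1⟩ : N) ∈ Subgroup.center N := by
      rw [Subgroup.mem_center_iff]
      intro y
      have h4 : g⁻¹ * (y : Γ) * g ∈ N := by
        have := hNn.conj_mem _ y.2 g⁻¹
        rwa [inv_inv] at this
      have h5 := congrArg Subtype.val (Subgroup.mem_center_iff.1 (e a).2 ⟨_, h4⟩)
      have h6 : g⁻¹ * (y : Γ) * g * ((e a : N) : Γ) = ((e a : N) : Γ) * (g⁻¹ * (y : Γ) * g) := h5
      apply Subtype.ext
      show (y : Γ) * (g * ((e a : N) : Γ) * g⁻¹) = g * ((e a : N) : Γ) * g⁻¹ * (y : Γ)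
      calc (y : Γ) * (g * ((e a : N) : Γ) * g⁻¹)
          = g * (g⁻¹ * (y : Γ) * g * ((e a : N) : Γ)) * g⁻¹ := by group
        _ = g * (((e a : N) : Γ) * (g⁻¹ * (y : Γ) * g)) * g⁻¹ := by rw [h6]
        _ = _ := by group
    obtain ⟨b, hb⟩ := he.2 ⟨_, h3⟩
    refine ⟨b, ?_⟩
    show g * ((e a : N) : Γ) * g⁻¹ = ((e b : N) : Γ)
    rw [hb]
  · intro h hh a
    exact congrArg Subtype.val (Subgroup.mem_center_iff.1 (e a).2 ⟨h, hh⟩)

end H59E
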