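import Pool.Agent.H.MP_7a8a58_gt.h59.RkA

/-! # Module RkB: uniqueness of the rank `q + p`

`exists_chain`: for `n ≤ p` put `G n = {g ∈ N | ∀ j, (j : ℕ) < n → π g j = 0}`, for `n = p + m`
`G n = {ι a | ∀ i, (i : ℕ) < m → a i = 0}` (the two agree for `n = p`, `m = 0` by `π_ker`).
`relIndex = 0`: the powers of an `h ∈ N` with `π h = Pi.single n 1` (resp. of `ι (Pi.single m 1)`) are in `G n`,
and no two different ones are congruent modulo `G (n+1)`.
`rank_unique`: by symmetry `q' + p' ≤ q + p` is enough; `rk` from `exists_rk` for `D`, chain `G` from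
`exists_chain` for `D'`: `rk (G n) + n ≤ rk (G 0) ≤ q + p` by induction on `n ≤ q' + p'`. -/

set_option autoImplicit false

namespace H59E

theorem RkB_pi_pow {Γ : Type} [Group Γ] {q p : ℕ} (D : WPre Γ q p) {h : Γ} (hh : h ∈ D.N)
    (m : ℕ) : D.π (h ^ m) = m • D.π h := by
  induction m with
  | zero => rw [pow_zero, D.π_one, zero_smul]
  | succ m ih => rw [pow_succ, D.π_mul _ (D.N.pow_mem hh m) _ hh, ih, add_smul, one_smul]

theorem RkB_iota_pow {Γ : Type} [Group Γ] {q p : ℕ} (D : WPre Γ q p) (a : Fin q → ℤ)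
    (m : ℕ) : (D.ι a) ^ m = D.ι (m • a) := by
  induction m with
  | zero => rw [pow_zero, zero_smul, D.ι_zero]
  | succ m ih => rw [pow_succ, ih, ← D.ι_add, add_smul, one_smul]

/-- the chain -/
def RkB_G {Γ : Type} [Group Γ] {q p : ℕ} (D : WPre Γ q p) (n : ℕ) : Subgroup Γ where
  carrier := {g | g ∈ D.N ∧ (∀ j : Fin p, (j : ℕ) < n → D.π g j = 0) ∧
    ∀ a : Fin q → ℤ, g = D.ι a → ∀ i : Fin q, (i : ℕ) + p < n → a i = 0}
  one_mem' := by
    refine ⟨D.N.one_mem, fun j _ => ?_, fun a ha i _ => ?_⟩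
    · rw [D.π_one]
      rfl
    · rw [← D.ι_zero] at ha
      rw [← D.ι_inj ha]
      rfl
  mul_mem' := by
    rintro g h ⟨hg, hg1, hg2⟩ ⟨hh, hh1, hh2⟩
    refine ⟨D.N.mul_mem hg hh, fun j hj => ?_, fun c hc i hi => ?_⟩
    · rw [D.π_mul g hg h hh, Pi.add_apply, hg1 j hj, hh1 j hj, add_zero]
    · obtain ⟨a, ha⟩ := D.π_ker g hg (funext fun j => hg1 j (by omega))
      obtain ⟨b, hb⟩ := D.π_ker h hh (funext fun j => hh1 j (by omega))
      rw [ha, hb, ← D.ι_add] at hc
      rw [← D.ι_inj hc, Pi.add_apply, hg2 a ha i hi, hh2 b hb i hi, add_zero]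
  inv_mem' := by
    rintro g ⟨hg, hg1, hg2⟩
    refine ⟨D.N.inv_mem hg, fun j hj => ?_, fun c hc i hi => ?_⟩
    · rw [D.π_inv hg, Pi.neg_apply, hg1 j hj, neg_zero]
    · have h1 : g = D.ι (-c) := by rw [D.ι_neg, ← hc, inv_inv]
      have h2 := hg2 (-c) h1 i hi
      rw [Pi.neg_apply] at h2
      exact neg_eq_zero.1 h2

theorem WPre.exists_chain {Γ : Type} [Group Γ] {q p : ℕ} (D : WPre Γ q p) :
    ∃ G : ℕ → Subgroup Γ, ∀ n < q + p, G (n + 1) ≤ G n ∧ (G (n + 1)).relIndex (G n) = 0 := by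
  classical
  refine ⟨RkB_G D, fun n hn => ⟨?_, ?_⟩⟩
  · rintro g ⟨hg, hg1, hg2⟩
    exact ⟨hg, fun j hj => hg1 j (by omega), fun a ha i hi => hg2 a ha i (by omega)⟩
  · by_contra hne
    rcases lt_or_ge n p with h | h
    · obtain ⟨g, hg, hπ⟩ := D.π_surj (Pi.single ⟨n, h⟩ 1)
      have hmem : g ∈ RkB_G D n := by
        refine ⟨hg, fun j hj => ?_, fun a _ i hi => ?_⟩
        · rw [hπ, Pi.single_eq_of_ne]
          intro he
          rw [he] at hj
          exact lt_irrefl _ hj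
        · omega
      obtain ⟨m, hm, -, hmem'⟩ := Subgroup.exists_pow_mem_of_relIndex_ne_zero hne hmem
      have h1 := hmem'.1.2.1 ⟨n, h⟩ (Nat.lt_succ_self n)
      rw [RkB_pi_pow D hg, hπ, Pi.smul_apply, Pi.single_eq_same, nsmul_eq_mul, mul_one] at h1
      have h2 : m = 0 := by exact_mod_cast h1
      omega
    · have hi : n - p < q := by omega
      have hmem : D.ι (Pi.single ⟨n - p, hi⟩ 1) ∈ RkB_G D n := by
        refine ⟨D.ι_mem _, fun j _ => ?_, fun a ha i hi' => ?_⟩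
        · rw [D.π_ι]
          rfl
        · rw [← D.ι_inj ha, Pi.single_eq_of_ne]
          intro he
          rw [he] at hi'
          change n - p + p < n at hi'
          omega
      obtain ⟨m, hm, -, hmem'⟩ := Subgroup.exists_pow_mem_of_relIndex_ne_zero hne hmem
      have h1 := hmem'.1.2.2 _ (RkB_iota_pow D _ m) ⟨n - p, hi⟩ (by
        change n - p + p < n + 1
        omega)
      rw [Pi.smul_apply, Pi.single_eq_same, nsmul_eq_mul, mul_one] at h1
      have h2 : m = 0 := by exact_mod_cast h1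
      omega

theorem RkB_le {Γ : Type} [Group Γ] {q p q' p' : ℕ} (D : WPre Γ q p)
    (D' : WPre Γ q' p') : q' + p' ≤ q + p := by
  obtain ⟨rk, h1, h2⟩ := D.exists_rk
  obtain ⟨G, hG⟩ := D'.exists_chain
  have key : ∀ n, n ≤ q' + p' → rk (G n) + n ≤ rk (G 0) := by
    intro n
    induction n with
    | zero => intro _; rw [add_zero]
    | succ n ih =>
      intro hn
      have h3 := ih (by omega)
      obtain ⟨h4, h5⟩ := hG n (by omega)
      have h6 := h2 _ _ h4 h5
      omega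
  have h7 := key _ le_rfl
  have h8 := h1 (G 0)
  omega

theorem WPre.rank_unique {Γ : Type} [Group Γ] {q p q' p' : ℕ} (D : WPre Γ q p)
    (D' : WPre Γ q' p') : q + p = q' + p' := by
  exact le_antisymm (RkB_le D' D) (RkB_le D D')

end H59E
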