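import Pool.Agent.H.MP_7a8a58_gt.h59.Rho

/-! # Module Split: the cocycle of a split extension

`B = 0`, and `b g = qV a` where `g * (σ (π g))⁻¹ = ι a` for `g ∈ N` (`π_ker`, choice; `b g = 0`
outside `N`).  For `g = ι a * σ x`, `h = ι a' * σ y` (`x = π g`, `y = π h`):
`g h = ι a * (σ x * ι a' * (σ x)⁻¹) * σ x * σ y = ι (a + W (σ x) a') * σ (x + y)` and
`W g = W (ι a) W (σ x) = W (σ x)` (`Rho.W_ι`); so `b (g h) = b g + W g b h`.  `b (ι a) = qV a` because
`π (ι a) = 0`, `σ 0 = 1`. -/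

set_option autoImplicit false

open Matrix

namespace H59E

variable {Γ : Type} [Group Γ] {q p : ℕ}

theorem cocyc_split (D : Pre Γ q p) (R : Rho D) (σ : (Fin p → ℤ) → Γ)
    (hσ : ∀ x y, σ (x + y) = σ x * σ y) (hσN : ∀ x, σ x ∈ D.N) (hπ : ∀ x, D.π (σ x) = x) :
    Nonempty (Cocyc D R) := by
  classical
  have hσ0 : σ 0 = 1 := by
    have h := hσ 0 0
    rw [add_zero] at h
    exact (mul_eq_left.1 h.symm)
  have hex : ∀ g, ∃ a : Fin q → ℤ, g ∈ D.N → g = D.ι a * σ (D.π g) := by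
    intro g
    by_cases hg : g ∈ D.N
    · have hs : σ (D.π g) ∈ D.N := hσN _
      have h1 : g * (σ (D.π g))⁻¹ ∈ D.N := D.N.mul_mem hg (D.N.inv_mem hs)
      have h2 : D.π (g * (σ (D.π g))⁻¹) = 0 := by
        rw [D.π_mul g hg _ (D.N.inv_mem hs), D.π_inv hs, hπ, add_neg_cancel]
      obtain ⟨a, ha⟩ := D.π_ker _ h1 h2
      refine ⟨a, fun _ => ?_⟩
      rw [← ha, inv_mul_cancel_right]
    · exact ⟨0, fun h => absurd h hg⟩
  choose a ha using hex
  have huniq : ∀ g ∈ D.N, ∀ c : Fin q → ℤ, g = D.ι c * σ (D.π g) → a g = c := by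
    intro g hg c hc
    apply D.ι_inj
    have h1 := ha g hg
    rw [hc] at h1
    have h2 : D.π (D.ι c * σ (D.π g)) = D.π g := by rw [← hc]
    rw [h2] at h1
    have h3 := mul_right_cancel h1
    rw [← hc] at h3
    exact h3.symm
  refine ⟨⟨fun g => qV (a g), fun _ => 0, ?_, ?_, ?_, ?_⟩⟩
  · intro g _ h _
    rw [Matrix.mul_zero, add_zero]
  · intro g hg h hh
    have h1 : a (g * h) = a g + (R.W g).val *ᵥ a h := by
      apply huniq (g * h) (D.N.mul_mem hg hh)
      have hWg : R.W g = R.W (σ (D.π g)) := by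
        have h2 := congrArg R.W (ha g hg)
        rw [map_mul, R.W_ι, one_mul] at h2
        exact h2
      rw [D.π_mul g hg h hh, hσ, D.ι_add, hWg, ← R.hW]
      calc g * h = (D.ι (a g) * σ (D.π g)) * (D.ι (a h) * σ (D.π h)) := by
            rw [← ha g hg, ← ha h hh]
        _ = _ := by group
    rw [h1, qV_add, qM_mulVec, Matrix.zero_mulVec, sub_zero]
  · intro _
    rfl
  · intro c
    rw [huniq (D.ι c) (D.ι_mem c) c (by rw [D.π_ι, hσ0, mul_one])]

end H59E
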