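import Pool.Agent.H.MP_7a8a58_gt.h59.TorDefs

/-! # Module TorA: the case `(M ^ k - 1) ^ 2 = 0` for some `k ≥ 1`

`H' = {f (a, k j)}`, a subgroup of `H`; `f (a, k j + i) = f (a, k j) * f (0, i)`, `0 ≤ i < k`, so it has
finite index in `H`, hence in `Γ`.  It is generated by the `f (e_i, 0)` and `f (0, k)`:
`f (a, k j) = f (a, 0) * f (0, k) ^ j`.  Let `P = M ^ k = 1 + U`, `U ^ 2 = 0`, so `P ^ i = 1 + i U` for
integers `i`.  For `x = f (a, k i)`, `y = f (b, k j)`: `x y = f (c, 0) y x` with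
`c = a + P ^ i b - b - P ^ j a = U (i b - j a)`, so `U c = 0`, `P ^ l c = c`, and
`f (c, 0) * f (d, k l) = f (c + d, k l) = f (d + P ^ l c, k l) = f (d, k l) * f (c, 0)`. -/

set_option autoImplicit false

open Matrix

namespace H59E

/-- powers of a matrix `1 + U` with `U ^ 2 = 0` -/
private theorem TorA_pow {q : ℕ} (P : GL (Fin q) ℤ) (hU : (P.val - 1) ^ 2 = 0) (i : ℤ) :
    (P ^ i).val = 1 + i • (P.val - 1) := by
  have h0 : (P.val - 1) * (P.val - 1) = 0 := by rw [← sq]; exact hU
  have hinv : (P⁻¹).val = 1 - (P.val - 1) := by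
    have h1 : P.val * (1 - (P.val - 1)) = 1 := by
      have h2 : P.val * (1 - (P.val - 1)) = 1 - (P.val - 1) * (P.val - 1) := by noncomm_ring
      rw [h2, h0, sub_zero]
    calc (P⁻¹).val = (P⁻¹).val * (P.val * (1 - (P.val - 1))) := by rw [h1, mul_one]
      _ = ((P⁻¹).val * P.val) * (1 - (P.val - 1)) := by rw [mul_assoc]
      _ = 1 - (P.val - 1) := by rw [Units.inv_mul, one_mul]
  have key : ∀ (n m : ℤ), (1 + n • (P.val - 1)) * (1 + m • (P.val - 1)) =
      1 + (n + m) • (P.val - 1) := by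
    intro n m
    rw [mul_add, add_mul, add_mul, mul_smul_comm, smul_mul_smul_comm, h0, smul_zero, add_zero,
      one_mul, one_mul, mul_one, add_smul, add_assoc]
  induction i with
  | zero => simp
  | succ i ih =>
    rw [_root_.zpow_add_one, Units.val_mul, ih]
    have h3 := key i 1
    rw [one_smul, add_sub_cancel] at h3
    exact h3
  | pred i ih =>
    rw [_root_.zpow_sub_one, Units.val_mul, ih, hinv]
    have h3 := key (-i) (-1)
    rw [show (-1 : ℤ) • (P.val - 1) = -(P.val - 1) by rw [neg_smul, one_smul],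
      ← sub_eq_add_neg, ← sub_eq_add_neg] at h3
    exact h3

theorem torus_two {Γ : Type} [Group Γ] {q : ℕ} {M : GL (Fin q) ℤ} (h : VirtTorus Γ q M)
    (k : ℕ) (hk : 0 < k) (hM : ((M ^ k).val - 1) ^ 2 = 0) :
    ∃ H : Subgroup Γ, H.FiniteIndex ∧ H.FG ∧
      ∀ x ∈ H, ∀ y ∈ H, ∀ z ∈ H, x * y * x⁻¹ * y⁻¹ * z = z * (x * y * x⁻¹ * y⁻¹) := by
  obtain ⟨f, H, hfin, hinj, hmem, hmul⟩ := h
  have h0 : ((M ^ k).val - 1) * ((M ^ k).val - 1) = 0 := by rw [← sq]; exact hM
  have h1 : f (0, 0) = 1 := by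
    have h2 := hmul 0 0 0 0
    rw [mulVec_zero, add_zero, add_zero] at h2
    exact mul_eq_left.1 h2
  have hP : ∀ (i : ℤ) (v : Fin q → ℤ), (M ^ ((k : ℤ) * i)).val *ᵥ v =
      v + i • (((M ^ k).val - 1) *ᵥ v) := by
    intro i v
    rw [_root_.zpow_mul, _root_.zpow_natCast, TorA_pow _ hM, add_mulVec, one_mulVec, smul_mulVec]
  have hmul0 : ∀ (a b : Fin q → ℤ) (j : ℤ), f (a, 0) * f (b, j) = f (a + b, j) := by
    intro a b j
    rw [hmul, zpow_zero, Units.val_one, one_mulVec, zero_add]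
  have hm0 : ∀ (a : Fin q → ℤ) (j : ℤ), f (a, 0) * f (0, j) = f (a, j) := by
    intro a j
    rw [hmul0, add_zero]
  let H' : Subgroup Γ :=
    { carrier := {g | ∃ (a : Fin q → ℤ) (j : ℤ), f (a, (k : ℤ) * j) = g}
      mul_mem' := by
        rintro _ _ ⟨a, i, rfl⟩ ⟨b, j, rfl⟩
        exact ⟨a + (M ^ ((k : ℤ) * i)).val *ᵥ b, i + j, by rw [hmul, mul_add]⟩
      one_mem' := ⟨0, 0, by rw [mul_zero]; exact h1⟩
      inv_mem' := by
        rintro _ ⟨a, i, rfl⟩
        refine ⟨-((M ^ (-((k : ℤ) * i))).val *ᵥ a), -i, ?_⟩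
        refine (inv_eq_of_mul_eq_one_right ?_).symm
        rw [hmul, mulVec_neg, mulVec_mulVec, ← Units.val_mul, ← _root_.zpow_add, add_neg_cancel,
          zpow_zero, Units.val_one, one_mulVec, add_neg_cancel, mul_neg, add_neg_cancel]
        exact h1 }
  have hH' : ∀ g, g ∈ H' ↔ ∃ (a : Fin q → ℤ) (j : ℤ), f (a, (k : ℤ) * j) = g := fun g => Iff.rfl
  have hkz : (0 : ℤ) < k := by exact_mod_cast hk
  refine ⟨H', ?_, ?_, ?_⟩
  · have := hfin
    have : Finite (Γ ⧸ H) := Subgroup.finite_quotient_of_finiteIndex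
    have : Finite (Γ ⧸ H') := by
      refine Finite.of_surjective
        (fun x : (Γ ⧸ H) × Fin k => (QuotientGroup.mk (x.1.out * f (0, (x.2 : ℤ))) : Γ ⧸ H')) ?_
      intro y
      obtain ⟨g, rfl⟩ := QuotientGroup.mk_surjective y
      have hg : (QuotientGroup.mk g : Γ ⧸ H).out⁻¹ * g ∈ H := by
        rw [← QuotientGroup.eq]
        exact QuotientGroup.out_eq' _
      obtain ⟨⟨a, n⟩, ha⟩ := (hmem _).1 hg
      have hr0 : 0 ≤ n % (k : ℤ) := Int.emod_nonneg _ hkz.ne'
      have hr1 : n % (k : ℤ) < k := Int.emod_lt_of_pos _ hkz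
      refine ⟨⟨QuotientGroup.mk g, ⟨(n % (k : ℤ)).toNat, by omega⟩⟩, ?_⟩
      rw [QuotientGroup.eq]
      rw [hH']
      have hcast : (((n % (k : ℤ)).toNat : ℕ) : ℤ) = n % (k : ℤ) := Int.toNat_of_nonneg hr0
      refine ⟨(M ^ (-(n % (k : ℤ)))).val *ᵥ a, n / (k : ℤ), ?_⟩
      show _ = ((QuotientGroup.mk g : Γ ⧸ H).out * f (0, (((n % (k : ℤ)).toNat : ℕ) : ℤ)))⁻¹ * g
      rw [hcast, _root_.mul_inv_rev, mul_assoc, ← ha, eq_inv_mul_iff_mul_eq, hmul, mulVec_mulVec,
        ← Units.val_mul, ← _root_.zpow_add, add_neg_cancel, zpow_zero, Units.val_one, one_mulVec, zero_add,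
        Int.emod_add_mul_ediv]
    exact Subgroup.finiteIndex_of_finite_quotient
  · classical
    refine ⟨(Finset.univ.image fun i : Fin q => f (Pi.single i 1, 0)) ∪ {f (0, (k : ℤ))}, ?_⟩
    apply le_antisymm
    · rw [Subgroup.closure_le]
      intro g hg
      simp only [Finset.coe_union, Finset.coe_image, Finset.coe_singleton, Set.mem_union,
        Set.mem_image, Set.mem_singleton_iff, Finset.coe_univ, Set.mem_univ, true_and] at hg
      rcases hg with ⟨i, rfl⟩ | rfl
      · exact ⟨Pi.single i 1, 0, by rw [mul_zero]⟩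
      · exact ⟨0, 1, by rw [mul_one]⟩
    · rintro g ⟨a, j, rfl⟩
      set C := Subgroup.closure (((Finset.univ.image fun i : Fin q => f (Pi.single i 1, 0)) ∪
        {f (0, (k : ℤ))} : Finset Γ) : Set Γ) with hC
      have hCi : ∀ i : Fin q, f (Pi.single i 1, 0) ∈ C := by
        intro i
        refine Subgroup.subset_closure ?_
        rw [Finset.coe_union]
        exact Or.inl (by simp)
      have hCk : f (0, (k : ℤ)) ∈ C := by
        refine Subgroup.subset_closure ?_
        rw [Finset.coe_union]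
        exact Or.inr (by simp)
      let S1 : AddSubgroup (Fin q → ℤ) :=
        { carrier := {a | f (a, 0) ∈ C}
          add_mem' := by
            intro a b ha hb
            show f (a + b, 0) ∈ C
            rw [← hmul0]
            exact C.mul_mem ha hb
          zero_mem' := by
            show f (0, 0) ∈ C
            rw [h1]
            exact C.one_mem
          neg_mem' := by
            intro a ha
            show f (-a, 0) ∈ C
            have h3 : f (a, 0) * f (-a, 0) = 1 := by rw [hmul0, add_neg_cancel, h1]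
            rw [← inv_eq_of_mul_eq_one_right h3]
            exact C.inv_mem ha }
      let S2 : AddSubgroup ℤ :=
        { carrier := {j | f (0, (k : ℤ) * j) ∈ C}
          add_mem' := by
            intro i j hi hj
            show f (0, (k : ℤ) * (i + j)) ∈ C
            have h3 : f (0, (k : ℤ) * i) * f (0, (k : ℤ) * j) = f (0, (k : ℤ) * (i + j)) := by
              rw [hmul, mulVec_zero, add_zero, mul_add]
            rw [← h3]
            exact C.mul_mem hi hj
          zero_mem' := by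
            show f (0, (k : ℤ) * 0) ∈ C
            rw [mul_zero, h1]
            exact C.one_mem
          neg_mem' := by
            intro i hi
            show f (0, (k : ℤ) * -i) ∈ C
            have h3 : f (0, (k : ℤ) * i) * f (0, (k : ℤ) * -i) = 1 := by
              rw [hmul, mulVec_zero, add_zero, mul_neg, add_neg_cancel, h1]
            rw [← inv_eq_of_mul_eq_one_right h3]
            exact C.inv_mem hi }
      have hS1 : ∀ a, a ∈ S1 := by
        intro a
        rw [← Finset.univ_sum_single a]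
        refine S1.sum_mem fun i _ => ?_
        have h4 : (Pi.single i (a i) : Fin q → ℤ) = (a i) • (Pi.single i 1 : Fin q → ℤ) := by
          rw [← Pi.single_smul, smul_eq_mul, mul_one]
        rw [h4]
        exact S1.zsmul_mem (hCi i) _
      have hS2 : ∀ j, j ∈ S2 := by
        intro j
        have h4 : (1 : ℤ) ∈ S2 := by
          show f (0, (k : ℤ) * 1) ∈ C
          rw [mul_one]
          exact hCk
        have h5 := S2.zsmul_mem h4 j
        rwa [smul_eq_mul, mul_one] at h5
      rw [← hm0]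
      exact C.mul_mem (hS1 a) (hS2 j)
  · rintro _ ⟨a, i, rfl⟩ _ ⟨b, j, rfl⟩ _ ⟨d, l, rfl⟩
    have hcom : f (a, (k : ℤ) * i) * f (b, (k : ℤ) * j) * (f (a, (k : ℤ) * i))⁻¹ *
        (f (b, (k : ℤ) * j))⁻¹ = f (((M ^ k).val - 1) *ᵥ (i • b - j • a), 0) := by
      rw [mul_inv_eq_iff_eq_mul, mul_inv_eq_iff_eq_mul, mul_assoc, hmul, hmul, hmul0, hP, hP,
        add_comm ((k : ℤ) * j)]
      congr 2
      rw [mulVec_sub, mulVec_smul, mulVec_smul]
      abel
    rw [hcom, hmul0, hmul, hP, mulVec_mulVec, h0, zero_mulVec, smul_zero, add_zero, add_zero,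
      add_comm d]

end H59E
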