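import Pool.Agent.H.MP_7a8a58_gt.h59.Omega
import Pool.Agent.H.MP_7a8a58_gt.h59.Tau

/-! # Module Two: the cocycle of a central extension

`w`, `B` from `exists_omega`, `τ` from `exists_tau`.  `b = τ`, `B' h = (1/2) • qM (B h)`.
`R.W h = 1` for `h ∈ N` (`hW`, `hcen`, `ι_inj`, `matrix_ext_mulVec`).
`B (g h) = B g + B h` because `w (g h) x = w g x + w h x` and `π` is onto (`matrix_ext_mulVec`).
`b (g h) = τ g + τ h + (1/2) w g h`, and `b h - B' h (π g) = τ h - (1/2) w h g = τ h + (1/2) w g h`.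
`B (ι a) = 0`: `w (ι a) h = 0`. -/

set_option autoImplicit false

open Matrix

namespace H59E

variable {Γ : Type} [Group Γ] {q p : ℕ}

theorem cocyc_two (D : Pre Γ q p) (R : Rho D)
    (hcen : ∀ h ∈ D.N, ∀ a, h * D.ι a = D.ι a * h) : Nonempty (Cocyc D R) := by
  obtain ⟨w, B, h1, h2, h3, h4, h5, h6⟩ := exists_omega D hcen
  obtain ⟨τ, hτ1, hτ2⟩ := exists_tau D hcen w h1 h2 h3 h4 h5
  have hW : ∀ h ∈ D.N, (R.W h).val = 1 := by
    intro h hh
    refine matrix_ext_mulVec fun a => ?_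
    apply D.ι_inj
    rw [← R.hW, hcen h hh a, mul_assoc, mul_inv_cancel, mul_one, Matrix.one_mulVec]
  have hBmul : ∀ g ∈ D.N, ∀ h ∈ D.N, B (g * h) = B g + B h := by
    intro g hg h hh
    refine matrix_ext_mulVec fun x => ?_
    obtain ⟨k, hk, rfl⟩ := D.π_surj x
    rw [Matrix.add_mulVec, ← h6 _ (D.N.mul_mem hg hh) k hk, ← h6 g hg k hk, ← h6 h hh k hk,
      h2 g hg h hh k hk]
  have hBι : ∀ a, B (D.ι a) = 0 := by
    intro a
    refine matrix_ext_mulVec fun x => ?_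
    obtain ⟨k, hk, rfl⟩ := D.π_surj x
    rw [← h6 _ (D.ι_mem a) k hk, h5 a k hk, Matrix.zero_mulVec]
  refine ⟨{ b := τ, B := fun h => (1 / 2 : ℚ) • qM (B h), B_mul := ?_, b_mul := ?_,
            B_ι := ?_, b_ι := hτ1 }⟩
  · intro g hg h hh
    show (1 / 2 : ℚ) • qM (B (g * h)) =
      (1 / 2 : ℚ) • qM (B g) + qM (R.W g).val * ((1 / 2 : ℚ) • qM (B h))
    rw [hW g hg, qM_one, Matrix.one_mul, hBmul g hg h hh, qM_add, smul_add]
  · intro g hg h hh
    show τ (g * h) =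
      τ g + qM (R.W g).val *ᵥ (τ h - ((1 / 2 : ℚ) • qM (B h)) *ᵥ qV (D.π g))
    rw [hW g hg, qM_one, Matrix.one_mulVec, hτ2 g hg h hh, Matrix.smul_mulVec, ← qM_mulVec,
      ← h6 h hh g hg, h4 g hg h hh, qV_neg, smul_neg, sub_neg_eq_add, add_assoc]
  · intro a
    show (1 / 2 : ℚ) • qM (B (D.ι a)) = 0
    rw [hBι, qM_zero, smul_zero]

end H59E
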