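import Pool.Agent.H.MP_7a8a58_gt.h59.CocB
import Pool.Agent.H.MP_7a8a58_gt.h59.Integ
import Pool.Agent.H.MP_7a8a58_gt.h59.Pairs
import Pool.Agent.H.MP_7a8a58_gt.h59.Two
import Pool.Agent.H.MP_7a8a58_gt.h59.Split
import Pool.Agent.H.MP_7a8a58_gt.h59.PreTwo
import Pool.Agent.H.MP_7a8a58_gt.h59.PreSplit
import Pool.Agent.H.MP_7a8a58_gt.h59.RkB
import Pool.Agent.H.MP_7a8a58_gt.h59.TorA
import Pool.Agent.H.MP_7a8a58_gt.h59.TorB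

/-! # Module Main: assembly of Theorem E -/

set_option autoImplicit false

open Matrix

namespace H59E

variable {Γ : Type} [Group Γ]

theorem good_of_cocyc (htf : TF Γ) {q p : ℕ} {D : Pre Γ q p} {R : Rho D} (C : Cocyc D R) :
    Good Γ (q + p) := by
  obtain ⟨C'⟩ := exists_coc D R C
  obtain ⟨C''⟩ := exists_icoc D R C'
  exact good_of_icoc htf C''

theorem main_two (htf : TF Γ) (H : Subgroup Γ) (hH : H.FiniteIndex) (hfg : H.FG)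
    (h2 : ∀ x ∈ H, ∀ y ∈ H, ∀ z ∈ H, x * y * x⁻¹ * y⁻¹ * z = z * (x * y * x⁻¹ * y⁻¹)) :
    ∃ q p : ℕ, Nonempty (WPre Γ q p) ∧ Good Γ (q + p) := by
  obtain ⟨q, p, D, hcen⟩ := exists_pre_two htf H hH hfg h2
  obtain ⟨R⟩ := exists_rho D
  obtain ⟨C⟩ := cocyc_two D R hcen
  exact ⟨q, p, ⟨D.toWPre⟩, good_of_cocyc htf C⟩

theorem main_split (htf : TF Γ) (A Z : Subgroup Γ) (hAn : A.Normal)
    (hA : A.FG) (hZ : Z.FG) (hAc : ∀ x ∈ A, ∀ y ∈ A, x * y = y * x)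
    (hZc : ∀ x ∈ Z, ∀ y ∈ Z, x * y = y * x) (hAZ : A ⊓ Z = ⊥) (hfin : (A ⊔ Z).FiniteIndex) :
    ∃ q p : ℕ, Nonempty (WPre Γ q p) ∧ Good Γ (q + p) := by
  obtain ⟨q, p, D, σ, h1, h2, h3⟩ := exists_pre_split htf A Z hAn hA hZ hAc hZc hAZ hfin
  obtain ⟨R⟩ := exists_rho D
  obtain ⟨C⟩ := cocyc_split D R σ h1 h2 h3
  exact ⟨q, p, ⟨D.toWPre⟩, good_of_cocyc htf C⟩

theorem main_torus (htf : TF Γ) {q : ℕ} {M : GL (Fin q) ℤ} (h : VirtTorus Γ q M) :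
    Good Γ (q + 1) := by
  obtain ⟨D⟩ := wpre_of_torus h
  have key : ∃ q' p' : ℕ, Nonempty (WPre Γ q' p') ∧ Good Γ (q' + p') := by
    by_cases hM : ∃ k : ℕ, 0 < k ∧ ((M ^ k).val - 1) ^ 2 = 0
    · obtain ⟨k, hk, hM⟩ := hM
      obtain ⟨H, h1, h2, h3⟩ := torus_two h k hk hM
      exact main_two htf H h1 h2 h3
    · push Not at hM
      obtain ⟨A, Z, h1, h2, h3, h4, h5, h6, h7⟩ := torus_split h hM
      exact main_split htf A Z h1 h2 h3 h4 h5 h6 h7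
  obtain ⟨q', p', ⟨D'⟩, hg⟩ := key
  rw [D.rank_unique D']
  exact hg

end H59E
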