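import Pool.Agent.H.MP_7a8a58_gt.h59.Coord
import Pool.Agent.H.MP_7a8a58_gt.h59.CenFG

/-! # Module PreU: extensions whose class is central

`N₀ = (A ⊔ B).normalCore`: contains `A` (normal, `A ≤ A ⊔ B`), of finite index; `N₀ = A (N₀ ⊓ B)` (every
element of `A ⊔ B` is `a * β`; if it is in `N₀` then `β = a⁻¹ (a β) ∈ N₀`).  `N₀ ⊓ B` is f.g. (finite index in
the f.g. group `B`, `Subgroup.fg_of_index_ne_zero`-like instance in Mathlib/GroupTheory/Schreier), so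
`N₀ / A` is a f.g. abelian group (`hcom`).  Let `k > 0` kill its torsion (the torsion subgroup of a f.g.
abelian group is finite) and `N = {x ∈ N₀ | ∃ y ∈ N₀, ∃ a ∈ A, x = a * y ^ k}`, the preimage of
`(N₀ / A)^k`: a normal subgroup of `Γ`, of finite index in `N₀` (a f.g. abelian group has finitely many
classes modulo `k`-th powers), `N / A ≅ (N₀ / A)^k` torsion-free.  `exists_coord` for `A` (torsion-free by
`htf`, f.g.) and for `N / A` gives `ι` and `π` (`π = 0` outside `N`).  `Bs = N ⊓ B`. -/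

set_option autoImplicit false

namespace H59E

/-- the torsion of a f.g. abelian group is killed by some `k > 0` -/
private theorem PreU_tor {Q : Type*} [CommGroup Q] (hfg : Group.FG Q) :
    ∃ k : ℕ, 0 < k ∧ ∀ (x : Q) (n : ℕ), 0 < n → x ^ n = 1 → x ^ k = 1 := by
  haveI : Group.FG (CommGroup.torsion Q) :=
    (Group.fg_iff_subgroup_fg _).2 (sub_fg hfg (CommGroup.torsion Q))
  haveI : Finite (CommGroup.torsion Q) := by
    refine CommGroup.finite_of_fg_isMulTorsion _ fun x => ?_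
    have h1 : IsOfFinOrder (x : Q) := x.2
    obtain ⟨n, hn, h2⟩ := isOfFinOrder_iff_pow_eq_one.1 h1
    exact isOfFinOrder_iff_pow_eq_one.2 ⟨n, hn, Subtype.ext (by
      rw [Subgroup.coe_pow, h2, Subgroup.coe_one])⟩
  refine ⟨Nat.card (CommGroup.torsion Q), Nat.card_pos, fun x n hn hx => ?_⟩
  have h1 : x ∈ CommGroup.torsion Q := isOfFinOrder_iff_pow_eq_one.2 ⟨n, hn, hx⟩
  have h2 : (⟨x, h1⟩ : CommGroup.torsion Q) ^ Nat.card (CommGroup.torsion Q) = 1 :=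
    pow_card_eq_one'
  have h3 := congrArg (fun z : CommGroup.torsion Q => (z : Q)) h2
  exact h3

/-- the construction, when the quotient `Q = N₀ / A` is given by a map `φ` on `N₀` -/
private theorem PreU_main {Γ : Type} [Group Γ] (htf : TF Γ) (A N₀ : Subgroup Γ)
    (hAn : A.Normal) (hA : A.FG) (hAc : ∀ x ∈ A, ∀ y ∈ A, x * y = y * x) (hN₀ : N₀.Normal)
    (hfin : N₀.FiniteIndex) (hAN : A ≤ N₀) {Q : Type} [CommGroup Q] (hQ : Group.FG Q)
    (φ : N₀ →* Q) (hφ : Function.Surjective φ) (hker : ∀ x : N₀, φ x = 1 ↔ (x : Γ) ∈ A) :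
    ∃ (q p : ℕ) (D : Pre Γ q p), D.N ≤ N₀ ∧ A ≤ D.N ∧ (∀ a, D.ι a ∈ A) ∧
      ∀ x ∈ A, ∃ a, x = D.ι a := by
  classical
  haveI := hAn
  haveI := hN₀
  haveI := hfin
  letI : CommGroup A := { (inferInstance : Group A) with
    mul_comm := fun x y => Subtype.ext (hAc x x.2 y y.2) }
  have htA : TF A := fun g n hn hg => Subtype.ext (htf g n hn (by
    rw [← Subgroup.coe_pow, hg, Subgroup.coe_one]))
  obtain ⟨q, e, he, hadd⟩ := exists_coord ((Group.fg_iff_subgroup_fg A).2 hA) htA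
  obtain ⟨k, hk, htor⟩ := PreU_tor hQ
  set H : Subgroup Q := (powMonoidHom (α := Q) k).range with hH
  haveI : Group.FG Q := hQ
  haveI hHfin : H.FiniteIndex := Subgroup.finiteIndex_range_powMonoidHom_of_fg Q hk.ne'
  have htH : TF H := by
    intro g n hn hg
    obtain ⟨y, hy⟩ := g.2
    have hy' : y ^ k = (g : Q) := hy
    have h1 : (g : Q) ^ n = 1 := by
      rw [← Subgroup.coe_pow, hg, Subgroup.coe_one]
    have h2 : y ^ (k * n) = 1 := by rw [pow_mul, hy', h1]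
    have h3 := htor y (k * n) (Nat.mul_pos hk hn) h2
    exact Subtype.ext (by rw [← hy', h3, Subgroup.coe_one])
  obtain ⟨p, f, hf, fadd⟩ :=
    exists_coord ((Group.fg_iff_subgroup_fg H).2 (sub_fg hQ H)) htH
  -- the subgroup `N`
  set N : Subgroup Γ := (H.comap φ).map N₀.subtype with hN
  have memN : ∀ g : Γ, g ∈ N ↔ ∃ h : g ∈ N₀, φ ⟨g, h⟩ ∈ H := by
    intro g
    constructor
    · rintro ⟨x, hx, rfl⟩
      exact ⟨x.2, hx⟩
    · rintro ⟨h, h'⟩
      exact ⟨⟨g, h⟩, h', rfl⟩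
  have hNN : N ≤ N₀ := fun g hg => ((memN g).1 hg).1
  have hAN' : A ≤ N := by
    intro a ha
    refine (memN a).2 ⟨hAN ha, ?_⟩
    rw [(hker _).2 ha]
    exact H.one_mem
  have hNfin : N.FiniteIndex := by
    refine ⟨?_⟩
    rw [← Subgroup.relIndex_mul_index hNN]
    refine mul_ne_zero ?_ hfin.index_ne_zero
    have h1 : N.subgroupOf N₀ = H.comap φ := by
      ext x
      rw [Subgroup.mem_subgroupOf, memN]
      exact ⟨fun h => h.2, fun h => ⟨x.2, h⟩⟩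
    rw [Subgroup.relIndex, h1, Subgroup.index_comap_of_surjective _ hφ]
    exact hHfin.index_ne_zero
  have hNnor : N.Normal := by
    refine ⟨fun x hx g => ?_⟩
    obtain ⟨hx0, hxH⟩ := (memN x).1 hx
    obtain ⟨y', hy'⟩ := hxH
    obtain ⟨y, rfl⟩ := hφ y'
    have hy'' : φ y ^ k = φ ⟨x, hx0⟩ := hy'
    refine (memN _).2 ⟨hN₀.conj_mem x hx0 g, ?_⟩
    -- `x = a * y ^ k`
    have h1 : x * ((y : Γ) ^ k)⁻¹ ∈ A := by
      have h2 : φ (⟨x, hx0⟩ * (y ^ k)⁻¹) = 1 := by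
        rw [map_mul, map_inv, map_pow, hy'', mul_inv_cancel]
      have h3 := (hker _).1 h2
      simpa using h3
    have h4 : g * (x * ((y : Γ) ^ k)⁻¹) * g⁻¹ ∈ A := hAn.conj_mem _ h1 g
    have hyg : g * (y : Γ) * g⁻¹ ∈ N₀ := hN₀.conj_mem _ y.2 g
    have h5 : (⟨g * x * g⁻¹, hN₀.conj_mem x hx0 g⟩ : N₀) =
        ⟨g * (x * ((y : Γ) ^ k)⁻¹) * g⁻¹, hAN h4⟩ * ⟨g * (y : Γ) * g⁻¹, hyg⟩ ^ k := by
      apply Subtype.ext
      change g * x * g⁻¹ = (g * (x * ((y : Γ) ^ k)⁻¹) * g⁻¹) * (g * (y : Γ) * g⁻¹) ^ k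
      rw [conj_pow]
      group
    rw [h5, map_mul, map_pow, (hker _).2 h4, one_mul]
    exact ⟨φ ⟨g * (y : Γ) * g⁻¹, hyg⟩, rfl⟩
  obtain ⟨ι, hι⟩ : ∃ ι : (Fin q → ℤ) → Γ, ι = fun x => ((e x : A) : Γ) := ⟨_, rfl⟩
  have ιadd : ∀ x y, ι (x + y) = ι x * ι y := by
    intro x y
    rw [hι]
    change ((e (x + y) : A) : Γ) = (e x : Γ) * (e y : Γ)
    rw [hadd]
    rfl
  have ιinj : Function.Injective ι := by
    intro x y hxy
    rw [hι] at hxy
    exact he.1 (Subtype.ext hxy)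
  have ιA : ∀ x, ι x ∈ A := by
    intro x
    rw [hι]
    exact (e x).2
  have Aι : ∀ a ∈ A, ∃ x, a = ι x := by
    intro a ha
    obtain ⟨x, hx⟩ := he.2 ⟨a, ha⟩
    refine ⟨x, ?_⟩
    rw [hι]
    change a = ((e x : A) : Γ)
    rw [hx]
  have hex : ∀ g : Γ, ∃ x : Fin p → ℤ, ∀ hg : g ∈ N, φ ⟨g, hNN hg⟩ = (f x : Q) := by
    intro g
    by_cases hg : g ∈ N
    · obtain ⟨h0, hH'⟩ := (memN g).1 hg
      obtain ⟨x, hx⟩ := hf.2 ⟨_, hH'⟩
      exact ⟨x, fun _ => by rw [hx]⟩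
    · exact ⟨0, fun h => absurd h hg⟩
  choose π hπ using hex
  have πeq : ∀ (x : Fin p → ℤ) (g : Γ) (hg : g ∈ N), φ ⟨g, hNN hg⟩ = (f x : Q) → π g = x := by
    intro x g hg h
    exact hf.1 (Subtype.ext ((hπ g hg).symm.trans h))
  have f0 : ((f 0 : H) : Q) = 1 := by
    have h := fadd 0 0
    rw [add_zero] at h
    rw [mul_eq_left.1 h.symm, Subgroup.coe_one]
  refine ⟨q, p, { N := N
                  fin := hNfin
                  ι := ι
                  ι_add := ιadd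
                  ι_inj := ιinj
                  ι_mem := fun a => hAN' (ιA a)
                  π := π
                  π_mul := ?_
                  π_ι := ?_
                  π_ker := ?_
                  π_surj := ?_
                  nor := hNnor
                  ι_norm := ?_ }, hNN, hAN', ιA, Aι⟩
  · intro g hg h hh
    refine πeq _ _ (N.mul_mem hg hh) ?_
    rw [fadd, Subgroup.coe_mul, ← hπ g hg, ← hπ h hh, ← map_mul]
    rfl
  · intro a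
    refine πeq 0 _ (hAN' (ιA a)) ?_
    rw [f0]
    exact (hker _).2 (ιA a)
  · intro g hg h0
    have h1 := hπ g hg
    rw [h0, f0] at h1
    exact Aι g ((hker _).1 h1)
  · intro x
    obtain ⟨g, hg⟩ := hφ (f x : Q)
    have hgN : (g : Γ) ∈ N := (memN _).2 ⟨g.2, by
      change φ g ∈ H
      rw [hg]
      exact (f x).2⟩
    exact ⟨g, hgN, πeq x _ hgN hg⟩
  · intro g a
    obtain ⟨b, hb⟩ := Aι (g * ι a * g⁻¹) (hAn.conj_mem _ (ιA a) _)
    exact ⟨b, hb⟩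

theorem exists_pre_u {Γ : Type} [Group Γ] (htf : TF Γ) (A B : Subgroup Γ) (hAn : A.Normal)
    (hA : A.FG) (hB : B.FG) (hAc : ∀ x ∈ A, ∀ y ∈ A, x * y = y * x)
    (hcen : ∀ x ∈ A, x ∈ B → ∀ y ∈ B, x * y = y * x)
    (hcom : ∀ x ∈ B, ∀ y ∈ B, x * y * x⁻¹ * y⁻¹ ∈ A) (hfin : (A ⊔ B).FiniteIndex) :
    ∃ (q p : ℕ) (D : Pre Γ q p) (Bs : Subgroup Γ), Bs ≤ D.N ∧
      (∀ g ∈ D.N, ∃ a, ∃ β ∈ Bs, g = D.ι a * β) ∧
      ∀ a, D.ι a ∈ Bs → ∀ β ∈ Bs, D.ι a * β = β * D.ι a := by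
  classical
  haveI := hAn
  haveI := hfin
  set N₀ : Subgroup Γ := (A ⊔ B).normalCore with hN₀
  haveI : N₀.FiniteIndex := by rw [hN₀]; infer_instance
  have hAN : A ≤ N₀ := Subgroup.normal_le_normalCore.2 le_sup_left
  have hN0le : N₀ ≤ A ⊔ B := Subgroup.normalCore_le _
  have hdec : ∀ g ∈ N₀, ∃ a ∈ A, ∃ β ∈ B, β ∈ N₀ ∧ g = a * β := by
    intro g hg
    have h2 : g ∈ ((A ⊔ B : Subgroup Γ) : Set Γ) := hN0le hg
    rw [Subgroup.normal_mul] at h2
    obtain ⟨a, ha, z, hz, haz⟩ := Set.mem_mul.1 h2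
    have hzN : z ∈ N₀ := by
      have h3 : z = a⁻¹ * g := by rw [← haz, inv_mul_cancel_left]
      rw [h3]
      exact N₀.mul_mem (N₀.inv_mem (hAN ha)) hg
    exact ⟨a, ha, z, hz, hzN, haz.symm⟩
  -- `N₀` is finitely generated
  have hfg : Group.FG N₀ := by
    haveI : Group.FG (A ⊔ B : Subgroup Γ) := (Group.fg_iff_subgroup_fg _).2 (hA.sup hB)
    haveI : Group.FG (N₀.subgroupOf (A ⊔ B)) := inferInstance
    exact Group.fg_of_surjective (f := (Subgroup.subgroupOfEquivOfLe hN0le).toMonoidHom)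
      (Subgroup.subgroupOfEquivOfLe hN0le).surjective
  -- the quotient
  have hcomN : ∀ x y : N₀, ((x * y * x⁻¹ * y⁻¹ : N₀) : Γ) ∈ A := by
    intro x y
    obtain ⟨a, ha, b, hb, -, hx⟩ := hdec x x.2
    obtain ⟨c, hc, d, hd, -, hy⟩ := hdec y y.2
    change (x : Γ) * (y : Γ) * (x : Γ)⁻¹ * (y : Γ)⁻¹ ∈ A
    rw [hx, hy]
    have e1 : a * b * (c * d) * (a * b)⁻¹ * (c * d)⁻¹ =
        a * (b * c * b⁻¹) * (b * d * b⁻¹ * d⁻¹) * ((d * a⁻¹ * d⁻¹) * c⁻¹) := by group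
    rw [e1]
    exact A.mul_mem (A.mul_mem (A.mul_mem ha (hAn.conj_mem _ hc _)) (hcom b hb d hd))
      (A.mul_mem (hAn.conj_mem _ (A.inv_mem ha) _) (A.inv_mem hc))
  haveI hAN0 : (A.subgroupOf N₀).Normal := inferInstance
  letI : CommGroup (N₀ ⧸ A.subgroupOf N₀) :=
    { (inferInstance : Group (N₀ ⧸ A.subgroupOf N₀)) with
      mul_comm := by
        intro x y
        obtain ⟨x, rfl⟩ := QuotientGroup.mk_surjective x
        obtain ⟨y, rfl⟩ := QuotientGroup.mk_surjective y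
        change (((x * y : N₀) : N₀ ⧸ A.subgroupOf N₀)) = ((y * x : N₀) : N₀ ⧸ A.subgroupOf N₀)
        refine QuotientGroup.eq.2 ?_
        rw [Subgroup.mem_subgroupOf]
        have h1 := hcomN y⁻¹ x⁻¹
        have h2 : y⁻¹ * x⁻¹ * y⁻¹⁻¹ * x⁻¹⁻¹ = (x * y)⁻¹ * (y * x) := by group
        rwa [h2] at h1 }
  obtain ⟨q, p, D, h1, h2, h3, h4⟩ := PreU_main htf A N₀ hAn hA hAc
    (Subgroup.normalCore_normal _) inferInstance hAN
    (Q := N₀ ⧸ A.subgroupOf N₀) inferInstance (QuotientGroup.mk' (A.subgroupOf N₀))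
    (QuotientGroup.mk'_surjective _) (fun x => by
      rw [QuotientGroup.mk'_apply, QuotientGroup.eq_one_iff, Subgroup.mem_subgroupOf])
  refine ⟨q, p, D, D.N ⊓ B, inf_le_left, fun g hg => ?_, fun a ha β hβ => ?_⟩
  · obtain ⟨a, ha, β, hβ, -, hgβ⟩ := hdec g (h1 hg)
    obtain ⟨c, hc⟩ := h4 a ha
    refine ⟨c, β, Subgroup.mem_inf.2 ⟨?_, hβ⟩, by rw [← hc, hgβ]⟩
    have h5 : β = a⁻¹ * g := by rw [hgβ, inv_mul_cancel_left]
    rw [h5]
    exact D.N.mul_mem (D.N.inv_mem (h2 ha)) hg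
  · exact hcen _ (h3 a) (Subgroup.mem_inf.1 ha).2 β (Subgroup.mem_inf.1 hβ).2

end H59E
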