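import Pool.Agent.H.MP_7a8a58_gt.h59.Main
import Pool.Agent.H.MP_7a8a58_gt.h59.PreU
import Pool.Agent.H.MP_7a8a58_gt.h59.CocU

/-! # Module MainU: Theorem E, general form -/

set_option autoImplicit false

open Matrix

namespace H59E

variable {Γ : Type} [Group Γ]

theorem main_u (htf : TF Γ) (A B : Subgroup Γ) (hAn : A.Normal)
    (hA : A.FG) (hB : B.FG) (hAc : ∀ x ∈ A, ∀ y ∈ A, x * y = y * x)
    (hcen : ∀ x ∈ A, x ∈ B → ∀ y ∈ B, x * y = y * x)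
    (hcom : ∀ x ∈ B, ∀ y ∈ B, x * y * x⁻¹ * y⁻¹ ∈ A) (hfin : (A ⊔ B).FiniteIndex) :
    ∃ q p : ℕ, Nonempty (WPre Γ q p) ∧ Good Γ (q + p) := by
  obtain ⟨q, p, D, Bs, h1, h2, h3⟩ := exists_pre_u htf A B hAn hA hB hAc hcen hcom hfin
  obtain ⟨R⟩ := exists_rho D
  obtain ⟨C⟩ := cocyc_u D R Bs h1 h2 h3
  exact ⟨q, p, ⟨D.toWPre⟩, good_of_cocyc htf C⟩

end H59E
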