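import Pool.Agent.H.MP_7a8a58_gt.h59.Rho

/-! # Module Omega: the commutator form of a central extension

`A` central in `N`.  For `g, h ∈ N`: `⁅g, h⁆ = g * h * g⁻¹ * h⁻¹ ∈ N` and `π ⁅g, h⁆ = 0`, so
`⁅g, h⁆ = ι (w g h)` (choice; `w g h = 0` if `g ∉ N` or `h ∉ N`).  With `ι` injective and `A` central:
`w (g g') h = w g h + w g' h`, `w g (h h') = w g h + w g h'`
(`⁅g g', h⁆ = g ⁅g', h⁆ g⁻¹ ⁅g, h⁆`, etc.), `w h g = - w g h`,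
`w (ι a) h = 0`.  For fixed `g ∈ N` the map `h ↦ w g h` is `h ↦ B g *ᵥ π h` by `WPre.factor`. -/

set_option autoImplicit false

open Matrix

namespace H59E

variable {Γ : Type} [Group Γ] {q p : ℕ}

private theorem Omega_ex (D : Pre Γ q p) {g h : Γ} (hg : g ∈ D.N) (hh : h ∈ D.N) :
    ∃ a, g * h * g⁻¹ * h⁻¹ = D.ι a := by
  have hg' := D.N.inv_mem hg
  have hh' := D.N.inv_mem hh
  have h1 := D.N.mul_mem hg hh
  have h2 := D.N.mul_mem h1 hg'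
  refine D.π_ker _ (D.N.mul_mem h2 hh') ?_
  rw [D.π_mul _ h2 _ hh', D.π_mul _ h1 _ hg', D.π_mul _ hg _ hh, D.toWPre.π_inv hg,
    D.toWPre.π_inv hh]
  abel

theorem exists_omega (D : Pre Γ q p) (hcen : ∀ h ∈ D.N, ∀ a, h * D.ι a = D.ι a * h) :
    ∃ (w : Γ → Γ → (Fin q → ℤ)) (B : Γ → Matrix (Fin q) (Fin p) ℤ),
      (∀ g ∈ D.N, ∀ h ∈ D.N, g * h * g⁻¹ * h⁻¹ = D.ι (w g h)) ∧
      (∀ g ∈ D.N, ∀ g' ∈ D.N, ∀ h ∈ D.N, w (g * g') h = w g h + w g' h) ∧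
      (∀ g ∈ D.N, ∀ h ∈ D.N, ∀ h' ∈ D.N, w g (h * h') = w g h + w g h') ∧
      (∀ g ∈ D.N, ∀ h ∈ D.N, w h g = -w g h) ∧
      (∀ a, ∀ h ∈ D.N, w (D.ι a) h = 0) ∧
      (∀ g ∈ D.N, ∀ h ∈ D.N, w g h = B g *ᵥ D.π h) := by
  classical
  have hex : ∀ g h : Γ, ∃ a, g ∈ D.N → h ∈ D.N → g * h * g⁻¹ * h⁻¹ = D.ι a := by
    intro g h
    by_cases hg : g ∈ D.N
    · by_cases hh : h ∈ D.N
      · obtain ⟨a, ha⟩ := Omega_ex D hg hh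
        exact ⟨a, fun _ _ => ha⟩
      · exact ⟨0, fun _ h' => absurd h' hh⟩
    · exact ⟨0, fun h' => absurd h' hg⟩
  choose w hw using hex
  have w1 : ∀ g ∈ D.N, ∀ h ∈ D.N, g * h * g⁻¹ * h⁻¹ = D.ι (w g h) := fun g hg h hh =>
    hw g h hg hh
  have w2 : ∀ g ∈ D.N, ∀ g' ∈ D.N, ∀ h ∈ D.N, w (g * g') h = w g h + w g' h := by
    intro g hg g' hg' h hh
    apply D.ι_inj
    rw [← w1 _ (D.N.mul_mem hg hg') h hh, add_comm, D.ι_add, ← w1 g hg h hh]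
    have h1 := hcen g hg (w g' h)
    calc g * g' * h * (g * g')⁻¹ * h⁻¹ = g * (g' * h * g'⁻¹ * h⁻¹) * (h * g⁻¹ * h⁻¹) := by group
      _ = D.ι (w g' h) * (g * h * g⁻¹ * h⁻¹) := by
          rw [w1 g' hg' h hh, h1]
          group
  have w3 : ∀ g ∈ D.N, ∀ h ∈ D.N, ∀ h' ∈ D.N, w g (h * h') = w g h + w g h' := by
    intro g hg h hh h' hh'
    apply D.ι_inj
    rw [← w1 g hg _ (D.N.mul_mem hh hh'), add_comm, D.ι_add, ← w1 g hg h hh]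
    have h1 := hcen (g * h * g⁻¹) (D.N.mul_mem (D.N.mul_mem hg hh) (D.N.inv_mem hg)) (w g h')
    calc g * (h * h') * g⁻¹ * (h * h')⁻¹ = g * h * g⁻¹ * (g * h' * g⁻¹ * h'⁻¹) * h⁻¹ := by group
      _ = D.ι (w g h') * (g * h * g⁻¹ * h⁻¹) := by
          rw [w1 g hg h' hh', h1]
          group
  have w4 : ∀ g ∈ D.N, ∀ h ∈ D.N, w h g = -w g h := by
    intro g hg h hh
    apply D.ι_inj
    rw [D.toWPre.ι_neg, ← w1 g hg h hh, ← w1 h hh g hg]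
    group
  have w5 : ∀ a, ∀ h ∈ D.N, w (D.ι a) h = 0 := by
    intro a h hh
    apply D.ι_inj
    rw [D.toWPre.ι_zero, ← w1 _ (D.ι_mem a) h hh, ← hcen h hh a]
    group
  have hB : ∀ g : Γ, ∃ A : Matrix (Fin q) (Fin p) ℤ, g ∈ D.N → ∀ h ∈ D.N, w g h = A *ᵥ D.π h := by
    intro g
    by_cases hg : g ∈ D.N
    · obtain ⟨A, hA⟩ := D.toWPre.factor (w g) (w3 g hg) fun a => by
        rw [w4 _ (D.ι_mem a) g hg, w5 a g hg, neg_zero]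
      exact ⟨A, fun _ => hA⟩
    · exact ⟨0, fun h => absurd h hg⟩
  choose B hB using hB
  exact ⟨w, B, w1, w2, w3, w4, w5, hB⟩

end H59E
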