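import Pool.Agent.H.MP_7a8a58_gt.h59.Act

/-! # Module Proper: the action is properly discontinuous.  See the header of Act. -/

set_option autoImplicit false

open Matrix

namespace H59E

variable {Γ : Type} [Group Γ] {q p : ℕ}

private theorem Proper_one {n : ℕ} : realM (1 : Matrix (Fin n) (Fin n) ℤ) = 1 := by
  unfold realM
  exact Matrix.map_one _ (by simp) (by simp)

private theorem Proper_zero {m n : ℕ} : realM (0 : Matrix (Fin m) (Fin n) ℤ) = 0 := by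
  ext i j
  simp [realM]

private theorem Proper_fst {D : Pre Γ q p} {R : Rho D} (C : ICoc D R) (a : Fin q → ℤ)
    (x : (Fin q → ℝ) × (Fin p → ℝ)) (i : Fin q) :
    (act C (D.ι a) x).1 i = x.1 i + C.K * (a i : ℝ) := by
  unfold act
  rw [R.W_ι, Units.val_one, Proper_one, one_mulVec, C.Q_ι, Proper_zero, zero_mulVec, add_zero,
    C.s_ι]
  simp [realV]

private theorem Proper_snd {D : Pre Γ q p} {R : Rho D} (C : ICoc D R) {h : Γ} (hh : h ∈ D.N)
    (x : (Fin q → ℝ) × (Fin p → ℝ)) (i : Fin p) :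
    (act C h x).2 i = x.2 i + C.k * (D.π h i : ℝ) := by
  unfold act
  rw [R.V_N hh, Units.val_one, Proper_one, one_mulVec, C.t_N h hh]
  simp [realV]

private theorem Proper_fin {n : ℕ} (ρ : ℝ) : {a : Fin n → ℤ | ∀ i, |(a i : ℝ)| ≤ ρ}.Finite := by
  have h1 : (Set.Icc (fun _ : Fin n => -⌈ρ⌉) (fun _ => ⌈ρ⌉)).Finite := Set.finite_Icc _ _
  refine h1.subset fun a ha => ?_
  have h2 : ∀ i, |(a i : ℝ)| ≤ ⌈ρ⌉ := fun i => (ha i).trans (Int.le_ceil ρ)
  constructor <;> intro i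
  · have h3 := (abs_le.1 (h2 i)).1
    exact_mod_cast h3
  · have h3 := (abs_le.1 (h2 i)).2
    exact_mod_cast h3

private theorem Proper_coord {m n : ℕ} {x : (Fin m → ℝ) × (Fin n → ℝ)} {ρ : ℝ} (h : ‖x‖ ≤ ρ) :
    (∀ i, |x.1 i| ≤ ρ) ∧ ∀ j, |x.2 j| ≤ ρ := by
  constructor <;> intro i
  · rw [← Real.norm_eq_abs]
    exact (norm_le_pi_norm x.1 i).trans ((norm_fst_le x).trans h)
  · rw [← Real.norm_eq_abs]
    exact (norm_le_pi_norm x.2 i).trans ((norm_snd_le x).trans h)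

/-- the elements of `N` -/
private theorem Proper_N {D : Pre Γ q p} {R : Rho D} (C : ICoc D R) (ρ : ℝ) :
    {h : Γ | h ∈ D.N ∧ ∃ x, ‖x‖ ≤ ρ ∧ ‖act C h x‖ ≤ ρ}.Finite := by
  -- one value of `π`
  have key : ∀ y : Fin p → ℤ,
      {h : Γ | h ∈ D.N ∧ D.π h = y ∧ ∃ x, ‖x‖ ≤ ρ ∧ ‖act C h x‖ ≤ ρ}.Finite := by
    intro y
    obtain ⟨g, hg, hgy⟩ := D.π_surj y
    obtain ⟨c, hc⟩ := (isCompact_closedBall (0 : (Fin q → ℝ) × (Fin p → ℝ))
      ρ).exists_bound_of_continuousOn (act_continuous C g).continuousOn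
    refine ((Proper_fin (n := q) (ρ + c)).image fun a => D.ι a * g).subset ?_
    rintro h ⟨hh, hy, x, hx, hx'⟩
    have h1 : h * g⁻¹ ∈ D.N := D.N.mul_mem hh (D.N.inv_mem hg)
    have h2 : D.π (h * g⁻¹) = 0 := by
      rw [D.π_mul h hh g⁻¹ (D.N.inv_mem hg), D.π_inv hg, hgy, hy, add_neg_cancel]
    obtain ⟨a, ha⟩ := D.π_ker _ h1 h2
    have h3 : D.ι a * g = h := by rw [← ha, inv_mul_cancel_right]
    refine ⟨a, fun i => ?_, h3⟩
    have h4 := hc x (by rw [Metric.mem_closedBall, dist_zero_right]; exact hx)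
    rw [← h3, act_mul] at hx'
    have h5 := (Proper_coord hx').1 i
    have h6 := (Proper_coord h4).1 i
    rw [Proper_fst] at h5
    have h7 : |(C.K : ℝ) * (a i : ℝ)| ≤ ρ + c := by
      have h8 : (C.K : ℝ) * (a i : ℝ) = ((act C g x).1 i + C.K * (a i : ℝ)) - (act C g x).1 i := by
        ring
      rw [h8]
      exact (abs_sub _ _).trans (add_le_add h5 h6)
    refine le_trans ?_ h7
    rw [abs_mul]
    have h9 : (1 : ℝ) ≤ |(C.K : ℝ)| := by
      rw [abs_of_nonneg (Nat.cast_nonneg _)]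
      exact_mod_cast C.K_pos
    exact le_mul_of_one_le_left (abs_nonneg _) h9
  refine ((Proper_fin (n := p) (ρ + ρ)).biUnion fun y _ => key y).subset ?_
  rintro h ⟨hh, x, hx, hx'⟩
  refine Set.mem_biUnion (x := D.π h) (fun i => ?_) ⟨hh, rfl, x, hx, hx'⟩
  have h5 := (Proper_coord hx').2 i
  have h6 := (Proper_coord hx).2 i
  rw [Proper_snd C hh] at h5
  have h7 : |(C.k : ℝ) * (D.π h i : ℝ)| ≤ ρ + ρ := by
    have h8 : (C.k : ℝ) * (D.π h i : ℝ) = (x.2 i + C.k * (D.π h i : ℝ)) - x.2 i := by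
      ring
    rw [h8]
    exact (abs_sub _ _).trans (add_le_add h5 h6)
  refine le_trans ?_ h7
  rw [abs_mul]
  have h9 : (1 : ℝ) ≤ |(C.k : ℝ)| := by
    rw [abs_of_nonneg (Nat.cast_nonneg _)]
    exact_mod_cast C.k_pos
  exact le_mul_of_one_le_left (abs_nonneg _) h9

theorem act_proper {D : Pre Γ q p} {R : Rho D} (C : ICoc D R)
    (K₀ : Set ((Fin q → ℝ) × (Fin p → ℝ))) (hK : IsCompact K₀) :
    Set.Finite {g : Γ | ∃ x ∈ K₀, act C g x ∈ K₀} := by
  have hfin := D.fin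
  have hq : Finite (Γ ⧸ D.N) := Subgroup.finite_quotient_of_finiteIndex
  obtain ⟨ρ₀, hρ₀⟩ := hK.exists_bound_of_continuousOn (f := fun x => x) continuousOn_id
  -- one coset
  have key : ∀ r : Γ, {h : Γ | h ∈ D.N ∧ ∃ x ∈ K₀, act C (r * h) x ∈ K₀}.Finite := by
    intro r
    obtain ⟨ρ₁, hρ₁⟩ := hK.exists_bound_of_continuousOn (act_continuous C r⁻¹).continuousOn
    refine (Proper_N C (max ρ₀ ρ₁)).subset ?_
    rintro h ⟨hh, x, hx, hx'⟩
    refine ⟨hh, x, (hρ₀ x hx).trans (le_max_left _ _), ?_⟩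
    have h1 : act C h x = act C r⁻¹ (act C (r * h) x) := by
      rw [← act_mul, inv_mul_cancel_left]
    rw [h1]
    exact (hρ₁ _ hx').trans (le_max_right _ _)
  have hU : (⋃ c : Γ ⧸ D.N, (fun h => Quotient.out c * h) ''
      {h : Γ | h ∈ D.N ∧ ∃ x ∈ K₀, act C (Quotient.out c * h) x ∈ K₀}).Finite :=
    Set.finite_iUnion fun c => (key _).image _
  refine hU.subset ?_
  rintro g ⟨x, hx, hx'⟩
  rw [Set.mem_iUnion]
  have h1 : (Quotient.out (QuotientGroup.mk g : Γ ⧸ D.N))⁻¹ * g ∈ D.N := by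
    rw [← QuotientGroup.eq]
    exact Quotient.out_eq _
  refine ⟨QuotientGroup.mk g, _, ⟨h1, x, hx, ?_⟩, ?_⟩
  · rw [mul_inv_cancel_left]
    exact hx'
  · exact mul_inv_cancel_left _ _

end H59E
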