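import Pool.Agent.H.MP_7a8a58_gt.h59.Defs

/-! # Module RkA: the rank function on subgroups

`SA G = {a | ι a ∈ G}`, `SP G = {x | ∃ g ∈ G, g ∈ N ∧ π g = x}` as `ℤ`-submodules,
`rk G = finrank (SA G) + finrank (SP G) ≤ q + p`.  Both are monotone.  If `G ≤ G'` and
`rk G = rk G'` (not `<`) then both finranks are equal, so `SA G` has finite index in `SA G'` and `SP G` in
`SP G'` (equal finrank of a submodule of a f.g. free `ℤ`-module implies finite quotient:
the quotient is f.g. of rank zero, so torsion, so finite; in Mathlib e.g.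
`Submodule.finrank_quotient_add_finrank`, `Module.finite_of_fg_torsion`).  With representatives
`a_i` and `x_j = π g_j` (`g_j ∈ G' ⊓ N`): for `g' ∈ G' ⊓ N` there are `j` and `g ∈ G ⊓ N` with
`π g' = x_j + π g`; `u = g_j⁻¹ g' g⁻¹` has `π u = 0`, so `u = ι a`, `a ∈ SA G'`, `a = a_i + a₀`, `ι a₀ ∈ G`, so
`g' = g_j ι(a_i) ι(a₀) g ∈ g_j ι(a_i) (G ⊓ N)`.  So `(G ⊓ N).relIndex (G' ⊓ N) ≠ 0`, and
`(G' ⊓ N).relIndex G' ≠ 0` (`N` of finite index), so `G.relIndex G' ≠ 0`. -/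

set_option autoImplicit false

namespace H59E

open Module

section

variable {Γ : Type} [Group Γ] {q p : ℕ}

/-- `{a | ι a ∈ G}` -/
private def RkA_SA (D : WPre Γ q p) (G : Subgroup Γ) : Submodule ℤ (Fin q → ℤ) :=
  AddSubgroup.toIntSubmodule
    { carrier := {a | D.ι a ∈ G}
      zero_mem' := by
        show D.ι 0 ∈ G
        rw [D.ι_zero]
        exact G.one_mem
      add_mem' := fun {a b} ha hb => by
        show D.ι (a + b) ∈ G
        rw [D.ι_add]
        exact G.mul_mem ha hb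
      neg_mem' := fun {a} ha => by
        show D.ι (-a) ∈ G
        rw [D.ι_neg]
        exact G.inv_mem ha }

/-- `{π g | g ∈ G ⊓ N}` -/
private def RkA_SP (D : WPre Γ q p) (G : Subgroup Γ) : Submodule ℤ (Fin p → ℤ) :=
  AddSubgroup.toIntSubmodule
    { carrier := {x | ∃ g ∈ G, g ∈ D.N ∧ D.π g = x}
      zero_mem' := ⟨1, G.one_mem, D.N.one_mem, D.π_one⟩
      add_mem' := by
        rintro x y ⟨g, hg, hgN, rfl⟩ ⟨h, hh, hhN, rfl⟩
        exact ⟨g * h, G.mul_mem hg hh, D.N.mul_mem hgN hhN, D.π_mul g hgN h hhN⟩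
      neg_mem' := by
        rintro x ⟨g, hg, hgN, rfl⟩
        exact ⟨g⁻¹, G.inv_mem hg, D.N.inv_mem hgN, D.π_inv hgN⟩ }

private theorem RkA_mem_SA {D : WPre Γ q p} {G : Subgroup Γ} {a : Fin q → ℤ} :
    a ∈ RkA_SA D G ↔ D.ι a ∈ G := Iff.rfl

private theorem RkA_mem_SP {D : WPre Γ q p} {G : Subgroup Γ} {x : Fin p → ℤ} :
    x ∈ RkA_SP D G ↔ ∃ g ∈ G, g ∈ D.N ∧ D.π g = x := Iff.rfl

/-- submodules of the same rank: finitely many classes -/
private theorem RkA_reps {n : ℕ} {S T : Submodule ℤ (Fin n → ℤ)} (h : S ≤ T)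
    (he : finrank ℤ S = finrank ℤ T) :
    ∃ (I : Type) (_ : Finite I) (t : I → (Fin n → ℤ)), (∀ i, t i ∈ T) ∧
      ∀ x ∈ T, ∃ i, x - t i ∈ S := by
  have h1 : finrank ℤ (S.submoduleOf T) = finrank ℤ T := by
    rw [← he]
    exact (Submodule.submoduleOfEquivOfLe h).finrank_eq
  have h2 : Finite (T ⧸ S.submoduleOf T) := Submodule.finiteQuotientOfFreeOfRankEq _ h1
  refine ⟨T ⧸ S.submoduleOf T, h2, fun i => (Quotient.out i : T), fun i => (Quotient.out i : T).2,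
    fun x hx => ⟨Submodule.Quotient.mk ⟨x, hx⟩, ?_⟩⟩
  have h3 : (Submodule.Quotient.mk (Quotient.out (Submodule.Quotient.mk ⟨x, hx⟩ :
      T ⧸ S.submoduleOf T)) : T ⧸ S.submoduleOf T) = Submodule.Quotient.mk ⟨x, hx⟩ :=
    Quotient.out_eq _
  have h4 := (Submodule.Quotient.eq _).1 h3.symm
  exact h4

end

theorem WPre.exists_rk {Γ : Type} [Group Γ] {q p : ℕ} (D : WPre Γ q p) :
    ∃ rk : Subgroup Γ → ℕ, (∀ G, rk G ≤ q + p) ∧
      ∀ G G' : Subgroup Γ, G ≤ G' → G.relIndex G' = 0 → rk G < rk G' := by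
  refine ⟨fun G => finrank ℤ (RkA_SA D G) + finrank ℤ (RkA_SP D G), fun G => ?_,
    fun G G' hle h0 => ?_⟩
  · have h1 := Submodule.finrank_le (RkA_SA D G)
    have h2 := Submodule.finrank_le (RkA_SP D G)
    rw [finrank_fin_fun] at h1 h2
    exact add_le_add h1 h2
  · have hA : RkA_SA D G ≤ RkA_SA D G' := fun a ha => hle ha
    have hP : RkA_SP D G ≤ RkA_SP D G' := by
      rintro x ⟨g, hg, hgN, hx⟩
      exact ⟨g, hle hg, hgN, hx⟩
    have h1 := Submodule.finrank_mono hA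
    have h2 := Submodule.finrank_mono hP
    show finrank ℤ (RkA_SA D G) + finrank ℤ (RkA_SP D G) <
      finrank ℤ (RkA_SA D G') + finrank ℤ (RkA_SP D G')
    by_contra h3
    obtain ⟨I, hI, t, htm, ht⟩ := RkA_reps hA (by omega)
    obtain ⟨J, hJ, x, hxm, hx⟩ := RkA_reps hP (by omega)
    choose g hg hgN hgx using fun j => RkA_mem_SP.1 (hxm j)
    have key : (G ⊓ D.N).relIndex (G' ⊓ D.N) ≠ 0 := by
      have hmem : ∀ z : J × I, g z.1 * D.ι (t z.2) ∈ G' ⊓ D.N := fun z =>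
        ⟨G'.mul_mem (hg z.1) (RkA_mem_SA.1 (htm z.2)), D.N.mul_mem (hgN z.1) (D.ι_mem _)⟩
      have hsur : Function.Surjective (fun z : J × I =>
          (QuotientGroup.mk (⟨g z.1 * D.ι (t z.2), hmem z⟩ : ↥(G' ⊓ D.N)) :
            ↥(G' ⊓ D.N) ⧸ (G ⊓ D.N).subgroupOf (G' ⊓ D.N))) := by
        intro y
        obtain ⟨⟨g', hg', hgN'⟩, rfl⟩ := QuotientGroup.mk_surjective y
        obtain ⟨j, hj⟩ := hx (D.π g') ⟨g', hg', hgN', rfl⟩
        obtain ⟨k, hk, hkN, hkx⟩ := RkA_mem_SP.1 hj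
        have e1 : D.π ((g j)⁻¹ * g' * k⁻¹) = 0 := by
          rw [D.π_mul _ (D.N.mul_mem (D.N.inv_mem (hgN j)) hgN') _ (D.N.inv_mem hkN),
            D.π_mul _ (D.N.inv_mem (hgN j)) _ hgN', D.π_inv (hgN j), D.π_inv hkN, hkx, hgx]
          abel
        obtain ⟨a, ha⟩ := D.π_ker _ (D.N.mul_mem (D.N.mul_mem (D.N.inv_mem (hgN j)) hgN')
          (D.N.inv_mem hkN)) e1
        have haG : a ∈ RkA_SA D G' := by
          rw [RkA_mem_SA, ← ha]
          exact G'.mul_mem (G'.mul_mem (G'.inv_mem (hg j)) hg') (G'.inv_mem (hle hk))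
        obtain ⟨i, hi⟩ := ht a haG
        refine ⟨(j, i), ?_⟩
        show (QuotientGroup.mk (⟨g j * D.ι (t i), hmem (j, i)⟩ : ↥(G' ⊓ D.N)) :
            ↥(G' ⊓ D.N) ⧸ (G ⊓ D.N).subgroupOf (G' ⊓ D.N)) = _
        rw [QuotientGroup.eq, Subgroup.mem_subgroupOf]
        show (g j * D.ι (t i))⁻¹ * g' ∈ G ⊓ D.N
        have e2 : (g j * D.ι (t i))⁻¹ * g' = D.ι (a - t i) * k := by
          have e3 : g' = g j * D.ι a * k := by
            rw [← ha]
            group
          have e4 : D.ι a = D.ι (t i) * D.ι (a - t i) := by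
            rw [← D.ι_add]
            congr 1
            abel
          rw [e3, e4]
          group
        rw [e2]
        exact ⟨G.mul_mem (RkA_mem_SA.1 hi) hk, D.N.mul_mem (D.ι_mem _) hkN⟩
      have hfin := Finite.of_surjective _ hsur
      exact Subgroup.index_ne_zero_iff_finite.2 hfin
    have hN : (G' ⊓ D.N).relIndex G' ≠ 0 := by
      rw [Subgroup.inf_relIndex_left]
      have := D.fin
      exact fun h4 => this.index_ne_zero (Subgroup.index_eq_zero_of_relIndex_eq_zero h4)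
    have h5 := Subgroup.relIndex_mul_relIndex (G ⊓ D.N) (G' ⊓ D.N) G'
      (inf_le_inf_right _ hle) inf_le_left
    have h6 := Subgroup.relIndex_mul_relIndex (G ⊓ D.N) G G' inf_le_left hle
    rw [h0, mul_zero, ← h5] at h6
    exact mul_ne_zero key hN h6.symm

end H59E
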