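import Pool.Agent.H.MP_7a8a58_gt.h83.Pair

/-!
MP_7a8a58_gt, helper59: the definitions used in statements.
-/

set_option autoImplicit false

open Matrix

namespace H59E

open H83T

/-- torsion-free -/
def TF (Γ : Type*) [Group Γ] : Prop := ∀ (g : Γ) (n : ℕ), 0 < n → g ^ n = 1 → g = 1

/-- `Γ` has a finite index subgroup isomorphic to the semidirect product `ℤ^q ⋊ ℤ`, where `1 : ℤ` acts
on `ℤ^q` as the matrix `M`. -/
def VirtTorus (Γ : Type) [Group Γ] (q : ℕ) (M : GL (Fin q) ℤ) : Prop :=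
  ∃ (f : (Fin q → ℤ) × ℤ → Γ) (H : Subgroup Γ), H.FiniteIndex ∧ Function.Injective f ∧
    (∀ g, g ∈ H ↔ ∃ x, f x = g) ∧
    ∀ (a b : Fin q → ℤ) (j k : ℤ), f (a, j) * f (b, k) = f (a + (M ^ j).val *ᵥ b, j + k)

/-- `Γ` is the group of a closed complete integral affine `n`-manifold, with integral translations,
and a subgroup of finite index whose linear parts have last row `(0, ..., 0, 1)`. -/
def Good (Γ : Type) [Group Γ] (n : ℕ) : Prop :=
  ∃ S : IntAffPair n, Nonempty (S.Γ ≃* Γ) ∧ IsHomeomorph S.dev ∧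
    (∀ γ, ∃ z : Fin n → ℤ, S.trans γ = rV z) ∧
    ∃ Γ' : Subgroup S.Γ, Γ'.FiniteIndex ∧ ∀ γ ∈ Γ', ∀ i : Fin n, (i : ℕ) + 1 = n →
      ∀ j, (S.lin γ).val i j = if j = i then 1 else 0

end H59E
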