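import Pool.Agent.H.MP_7a8a58_gt.h59.TorDefs
import Pool.Agent.H.MP_7a8a58_gt.h59.CenFG

/-! # Module TorB: the case `(M ^ k - 1) ^ 2 ≠ 0` for all `k ≥ 1`

`N = H.normalCore`, `m > 0` with `g ^ m ∈ N` for all `g ∈ Γ` (`m` = the index of `N`).
`A₀ = {f (a, 0)}`, abelian, normal in `H`; `A = A₀ ⊓ N`; `Z = {f (0, j)}` = the powers of `f (0, 1)`.
`A` is normal in `Γ`: let `x = f (a, 0) ∈ N`, `g ∈ Γ`, `y = g x g⁻¹ ∈ N`, `y = f (b, j)`; suppose `j ≠ 0`.  For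
`c ∈ ℤ^q` let `u = f (c, 0) ^ m = f (m c, 0) ∈ N`, `u' = g⁻¹ u g ∈ N ≤ H`; `u' x u'⁻¹ ∈ A₀` commutes with `x`, so
`u y u⁻¹ = g (u' x u'⁻¹) g⁻¹` commutes with `y`.  `u y u⁻¹ = f (b', j)`, `b' = b + (1 - M ^ j) m c`, and
`f (b, j) f (b', j) = f (b', j) f (b, j)` gives `(M ^ j - 1) (b' - b) = 0`, i.e. `m (M ^ j - 1)^2 c = 0` for all
`c`, so `(M ^ j - 1) ^ 2 = 0`; for `j < 0` multiply by `M ^ (-2 j)`: `(M ^ |j| - 1) ^ 2 = 0` in both cases,
contradicting `hM`.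
`A ⊓ Z = ⊥` by injectivity.  `f (a, j) = f (r, 0) * (f (m c, 0) * f (0, j))` with `a = r + m c`,
`0 ≤ r_i < m`: finitely many cosets of `A ⊔ Z` cover `H`.  `A` is f.g. by `sub_fg` (in the abelian group
`A₀`, generated by the `f (e_i, 0)`). -/

set_option autoImplicit false

open Matrix

namespace H59E

section

variable {Γ : Type} [Group Γ] {q : ℕ} {M : GL (Fin q) ℤ} {f : (Fin q → ℤ) × ℤ → Γ}

private theorem TorB_M0 (a : Fin q → ℤ) : (M ^ (0 : ℤ)).val *ᵥ a = a := by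
  rw [zpow_zero, Units.val_one, Matrix.one_mulVec]

private theorem TorB_one
    (hf : ∀ (a b : Fin q → ℤ) (j k : ℤ), f (a, j) * f (b, k) = f (a + (M ^ j).val *ᵥ b, j + k)) :
    f (0, 0) = 1 := by
  have h := hf 0 0 0 0
  rw [TorB_M0, add_zero, add_zero] at h
  exact mul_eq_left.1 h

/-- the embedding of the fibre -/
private def TorB_φ
    (hf : ∀ (a b : Fin q → ℤ) (j k : ℤ), f (a, j) * f (b, k) = f (a + (M ^ j).val *ᵥ b, j + k)) :
    Multiplicative (Fin q → ℤ) →* Γ where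
  toFun a := f (Multiplicative.toAdd a, 0)
  map_one' := TorB_one hf
  map_mul' a b := by
    rw [hf, TorB_M0, add_zero]
    rfl

/-- the embedding of the base -/
private def TorB_ψ
    (hf : ∀ (a b : Fin q → ℤ) (j k : ℤ), f (a, j) * f (b, k) = f (a + (M ^ j).val *ᵥ b, j + k)) :
    Multiplicative ℤ →* Γ where
  toFun j := f (0, Multiplicative.toAdd j)
  map_one' := TorB_one hf
  map_mul' a b := by
    rw [hf, Matrix.mulVec_zero, add_zero]
    rfl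

private theorem TorB_pow
    (hf : ∀ (a b : Fin q → ℤ) (j k : ℤ), f (a, j) * f (b, k) = f (a + (M ^ j).val *ᵥ b, j + k))
    (c : Fin q → ℤ) (m : ℕ) : f (c, 0) ^ m = f ((m : ℤ) • c, 0) := by
  have h : (TorB_φ hf) (Multiplicative.ofAdd c ^ m) = (TorB_φ hf) (Multiplicative.ofAdd c) ^ m :=
    map_pow _ _ _
  rw [← ofAdd_nsmul] at h
  have h1 : m • c = (m : ℤ) • c := by
    rw [natCast_zsmul]
  rw [h1] at h
  exact h.symm

private theorem TorB_inv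
    (hf : ∀ (a b : Fin q → ℤ) (j k : ℤ), f (a, j) * f (b, k) = f (a + (M ^ j).val *ᵥ b, j + k))
    (c : Fin q → ℤ) : (f (c, 0))⁻¹ = f (-c, 0) := by
  have h : (TorB_φ hf) ((Multiplicative.ofAdd c)⁻¹) = ((TorB_φ hf) (Multiplicative.ofAdd c))⁻¹ :=
    map_inv _ _
  exact h.symm

/-- conjugates of elements of the fibre by elements of `H` are in the fibre -/
private theorem TorB_conj
    (hf : ∀ (a b : Fin q → ℤ) (j k : ℤ), f (a, j) * f (b, k) = f (a + (M ^ j).val *ᵥ b, j + k))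
    (c a : Fin q → ℤ) (j : ℤ) : f (c, j) * f (a, 0) * (f (c, j))⁻¹ = f ((M ^ j).val *ᵥ a, 0) := by
  rw [mul_inv_eq_iff_eq_mul, hf, hf, TorB_M0, add_zero, zero_add, add_comm]

private theorem TorB_comm
    (hf : ∀ (a b : Fin q → ℤ) (j k : ℤ), f (a, j) * f (b, k) = f (a + (M ^ j).val *ᵥ b, j + k))
    (a b : Fin q → ℤ) : f (a, 0) * f (b, 0) = f (b, 0) * f (a, 0) := by
  rw [hf, hf, TorB_M0, TorB_M0, add_comm a b]

/-- if `f (b, j)` commutes with its conjugate by `f (m c, 0)` -/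
private theorem TorB_key
    (hf : ∀ (a b : Fin q → ℤ) (j k : ℤ), f (a, j) * f (b, k) = f (a + (M ^ j).val *ᵥ b, j + k))
    (hinj : Function.Injective f) {m : ℤ} (hm : m ≠ 0) (b c : Fin q → ℤ) (j : ℤ)
    (h : f (m • c, 0) * f (b, j) * (f (m • c, 0))⁻¹ * f (b, j) =
      f (b, j) * (f (m • c, 0) * f (b, j) * (f (m • c, 0))⁻¹)) :
    (((M ^ j).val - 1) ^ 2) *ᵥ c = 0 := by
  rw [TorB_inv hf, hf, TorB_M0, hf, hf, hf] at h
  have h1 := congrArg Prod.fst (hinj h)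
  simp only [zero_add, add_zero, Matrix.mulVec_add, Matrix.mulVec_neg, Matrix.mulVec_smul] at h1
  have h2 : m • ((((M ^ j).val - 1) ^ 2) *ᵥ c) = 0 := by
    rw [pow_two, ← Matrix.mulVec_mulVec, Matrix.sub_mulVec, Matrix.sub_mulVec, Matrix.one_mulVec,
      Matrix.one_mulVec, Matrix.mulVec_sub]
    rw [smul_sub, smul_sub, smul_sub]
    have h3 := sub_eq_zero.2 h1
    rw [← h3]
    abel
  exact (smul_eq_zero.1 h2).resolve_left hm

private theorem TorB_sq {j : ℤ} (h : ∀ c : Fin q → ℤ, (((M ^ j).val - 1) ^ 2) *ᵥ c = 0) :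
    ((M ^ j).val - 1) ^ 2 = 0 := by
  refine Matrix.mulVec_injective ?_
  funext c
  rw [h c, Matrix.zero_mulVec]

private theorem TorB_neg {k : ℕ} (h : ((M ^ (-(k : ℤ))).val - 1) ^ 2 = 0) :
    ((M ^ k).val - 1) ^ 2 = 0 := by
  have h1 : (M ^ k).val * (M ^ (-(k : ℤ))).val = 1 := by
    rw [← Units.val_mul, ← zpow_natCast, ← _root_.zpow_add, add_neg_cancel, zpow_zero, Units.val_one]
  have h2 : (M ^ (-(k : ℤ))).val * (M ^ k).val = 1 := by
    rw [← Units.val_mul, ← zpow_natCast, ← _root_.zpow_add, neg_add_cancel, zpow_zero, Units.val_one]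
  have h3 : (M ^ k).val - 1 = -((M ^ k).val * ((M ^ (-(k : ℤ))).val - 1)) := by
    rw [mul_sub, h1, mul_one, neg_sub]
  have h4 : Commute (M ^ k).val ((M ^ (-(k : ℤ))).val - 1) := by
    show (M ^ k).val * ((M ^ (-(k : ℤ))).val - 1) = ((M ^ (-(k : ℤ))).val - 1) * (M ^ k).val
    rw [mul_sub, sub_mul, h1, h2, mul_one, one_mul]
  rw [h3, neg_sq, h4.mul_pow, h, mul_zero]

end

theorem torus_split {Γ : Type} [Group Γ] {q : ℕ} {M : GL (Fin q) ℤ} (h : VirtTorus Γ q M)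
    (hM : ∀ k : ℕ, 0 < k → ((M ^ k).val - 1) ^ 2 ≠ 0) :
    ∃ A Z : Subgroup Γ, A.Normal ∧ A.FG ∧ Z.FG ∧ (∀ x ∈ A, ∀ y ∈ A, x * y = y * x) ∧
      (∀ x ∈ Z, ∀ y ∈ Z, x * y = y * x) ∧ A ⊓ Z = ⊥ ∧ (A ⊔ Z).FiniteIndex := by
  obtain ⟨f, H, hfin, hinj, hH, hf⟩ := h
  obtain ⟨N, hN⟩ : ∃ N : Subgroup Γ, N = H.normalCore := ⟨_, rfl⟩
  have hNn : N.Normal := by rw [hN]; exact H.normalCore_normal
  have hNf : N.FiniteIndex := by rw [hN]; exact H.finiteIndex_normalCore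
  have hNH : N ≤ H := by rw [hN]; exact H.normalCore_le
  obtain ⟨m, hm⟩ : ∃ m : ℕ, m = N.index := ⟨_, rfl⟩
  have hm0 : m ≠ 0 := by rw [hm]; exact hNf.index_ne_zero
  have hpow : ∀ g : Γ, g ^ m ∈ N := fun g => by rw [hm]; exact N.pow_index_mem g
  have hmem : ∀ a : Fin q → ℤ, f ((m : ℤ) • a, 0) ∈ N := fun a => by
    rw [← TorB_pow hf]
    exact hpow _
  have hsplit : ∀ (a : Fin q → ℤ) (j : ℤ), f (a, j) = f (a, 0) * f (0, j) := fun a j => by
    rw [hf, TorB_M0, add_zero, zero_add]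
  have hfH : ∀ x, f x ∈ H := fun x => (hH _).2 ⟨x, rfl⟩
  obtain ⟨A, hA⟩ : ∃ A : Subgroup Γ, A = (N.comap (TorB_φ hf)).map (TorB_φ hf) := ⟨_, rfl⟩
  have hAm : ∀ x, x ∈ A ↔ ∃ a : Fin q → ℤ, f (a, 0) ∈ N ∧ f (a, 0) = x := fun x => by
    rw [hA]
    exact Iff.rfl
  obtain ⟨Z, hZ⟩ : ∃ Z : Subgroup Γ, Z = (TorB_ψ hf).range := ⟨_, rfl⟩
  have hZm : ∀ x, x ∈ Z ↔ ∃ j : ℤ, f (0, j) = x := fun x => by
    rw [hZ]
    exact Iff.rfl
  refine ⟨A, Z, ⟨fun x hx g => ?_⟩, ?_, ?_, ?_, ?_, ?_, ?_⟩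
  · obtain ⟨a, ha, rfl⟩ := (hAm x).1 hx
    have hy := hNn.conj_mem _ ha g
    obtain ⟨⟨b, j⟩, hb⟩ := (hH _).1 (hNH hy)
    rw [hAm]
    suffices hj : j = 0 by
      subst hj
      exact ⟨b, by rw [hb]; exact hy, hb⟩
    by_contra hj
    have h1 : ∀ c : Fin q → ℤ, (((M ^ j).val - 1) ^ 2) *ᵥ c = 0 := by
      intro c
      refine TorB_key hf hinj (m := (m : ℤ)) (by exact_mod_cast hm0) b c j ?_
      have hu' : g⁻¹ * f ((m : ℤ) • c, 0) * g⁻¹⁻¹ ∈ N := hNn.conj_mem _ (hmem c) g⁻¹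
      rw [inv_inv] at hu'
      obtain ⟨⟨c', j'⟩, hc'⟩ := (hH _).1 (hNH hu')
      have h2 := TorB_conj hf c' a j'
      have h3 := TorB_comm hf ((M ^ j').val *ᵥ a) a
      rw [← h2, hc'] at h3
      rw [hb]
      have h4 := congrArg (fun t => g * t * g⁻¹) h3
      have h5 : f ((m : ℤ) • c, 0) * (g * f (a, 0) * g⁻¹) * (f ((m : ℤ) • c, 0))⁻¹ *
          (g * f (a, 0) * g⁻¹) =
          g * (g⁻¹ * f ((m : ℤ) • c, 0) * g * f (a, 0) * (g⁻¹ * f ((m : ℤ) • c, 0) * g)⁻¹ *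
            f (a, 0)) * g⁻¹ := by
        group
      have h6 : g * f (a, 0) * g⁻¹ * (f ((m : ℤ) • c, 0) * (g * f (a, 0) * g⁻¹) *
          (f ((m : ℤ) • c, 0))⁻¹) =
          g * (f (a, 0) * (g⁻¹ * f ((m : ℤ) • c, 0) * g * f (a, 0) *
            (g⁻¹ * f ((m : ℤ) • c, 0) * g)⁻¹)) * g⁻¹ := by
        group
      rw [h5, h6, h4]
    have h2 := TorB_sq h1
    rcases lt_or_gt_of_ne hj with hj' | hj'
    · obtain ⟨k, hk⟩ := Int.eq_ofNat_of_zero_le (neg_nonneg.2 hj'.le)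
      have hk' : j = -(k : ℤ) := by omega
      rw [hk'] at h2
      exact hM k (by omega) (TorB_neg h2)
    · obtain ⟨k, hk⟩ := Int.eq_ofNat_of_zero_le hj'.le
      rw [hk, zpow_natCast] at h2
      exact hM k (by omega) h2
  · rw [hA]
    have hfg : Group.FG (Multiplicative (Fin q → ℤ)) := by
      have : AddGroup.FG (Fin q → ℤ) := Module.Finite.iff_addGroup_fg.1 inferInstance
      infer_instance
    obtain ⟨S, hS⟩ := sub_fg hfg (N.comap (TorB_φ hf))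
    classical
    refine ⟨S.image (TorB_φ hf), ?_⟩
    rw [Finset.coe_image, ← MonoidHom.map_closure, hS]
  · rw [hZ, ← Group.fg_iff_subgroup_fg]
    have : AddGroup.FG ℤ := Module.Finite.iff_addGroup_fg.1 inferInstance
    exact Group.fg_range _
  · intro x hx y hy
    obtain ⟨a, -, rfl⟩ := (hAm x).1 hx
    obtain ⟨b, -, rfl⟩ := (hAm y).1 hy
    exact TorB_comm hf a b
  · intro x hx y hy
    obtain ⟨j, rfl⟩ := (hZm x).1 hx
    obtain ⟨k, rfl⟩ := (hZm y).1 hy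
    rw [hf, hf, Matrix.mulVec_zero, Matrix.mulVec_zero, add_comm j k]
  · rw [eq_bot_iff]
    rintro x ⟨hx1, hx2⟩
    obtain ⟨a, -, rfl⟩ := (hAm x).1 hx1
    obtain ⟨j, hj⟩ := (hZm _).1 hx2
    have h1 := hinj hj
    have h2 : a = 0 := (congrArg Prod.fst h1).symm
    rw [h2, TorB_one hf]
    exact Subgroup.mem_bot.2 rfl
  · have hfq : Finite (Γ ⧸ H) := inferInstance
    have hs : Function.Surjective (fun x : (Γ ⧸ H) × (Fin q → Fin m) =>
        (QuotientGroup.mk (x.1.out * f (fun i => ((x.2 i : ℕ) : ℤ), 0)) : Γ ⧸ (A ⊔ Z))) := by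
      intro y
      obtain ⟨g, rfl⟩ := QuotientGroup.mk_surjective y
      have h1 : (QuotientGroup.mk g : Γ ⧸ H).out⁻¹ * g ∈ H := by
        rw [← QuotientGroup.eq, QuotientGroup.out_eq']
      obtain ⟨⟨a, j⟩, ha⟩ := (hH _).1 h1
      have hmpos : 0 < (m : ℤ) := by
        have := Nat.pos_of_ne_zero hm0
        exact_mod_cast this
      refine ⟨(QuotientGroup.mk g, fun i => ⟨(a i % (m : ℤ)).toNat, ?_⟩), ?_⟩
      · have h2 := Int.emod_lt_of_pos (a i) hmpos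
        have h3 := Int.emod_nonneg (a i) hmpos.ne'
        omega
      · simp only
        rw [QuotientGroup.eq]
        have h4 : g = (QuotientGroup.mk g : Γ ⧸ H).out * f (a, j) := by
          rw [ha, mul_inv_cancel_left]
        have h5 : (fun i => (((a i % (m : ℤ)).toNat : ℕ) : ℤ)) = fun i => a i % (m : ℤ) := by
          funext i
          exact Int.toNat_of_nonneg (Int.emod_nonneg (a i) hmpos.ne')
        have h6 : f (a, j) = f (fun i => a i % (m : ℤ), 0) *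
            (f ((m : ℤ) • (fun i => a i / (m : ℤ)), 0) * f (0, j)) := by
          rw [← mul_assoc, hf, TorB_M0, hf, Matrix.mulVec_zero, add_zero, add_zero, zero_add]
          congr 1
          refine Prod.ext ?_ rfl
          funext i
          simp only [Pi.add_apply, Pi.smul_apply, smul_eq_mul]
          exact (Int.emod_add_mul_ediv (a i) m).symm
        rw [h5, _root_.mul_inv_rev, mul_assoc]
        nth_rewrite 2 [h4]
        rw [inv_mul_cancel_left, h6, inv_mul_cancel_left]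
        exact (A ⊔ Z).mul_mem
          ((le_sup_left : A ≤ A ⊔ Z) ((hAm _).2 ⟨_, hmem _, rfl⟩))
          ((le_sup_right : Z ≤ A ⊔ Z) ((hZm _).2 ⟨j, rfl⟩))
    have : Finite (Γ ⧸ (A ⊔ Z)) := Finite.of_surjective _ hs
    exact Subgroup.finiteIndex_of_finite_quotient

end H59E
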