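import Pool.Agent.H.MP_7a8a58_gt.h59.Defs

/-! # Module TorDefs: groups with a subgroup `ℤ^q ⋊_M ℤ` of finite index

`VirtTorus Γ q M`: `Γ` has a subgroup `H` of finite index isomorphic to `ℤ^q ⋊_M ℤ` (by `f`).
`wpre_of_torus`: `N = H`, `ι a = f (a, 0)`, `π (f (a, j)) = fun _ => j`. -/

set_option autoImplicit false

open Matrix

namespace H59E

theorem wpre_of_torus {Γ : Type} [Group Γ] {q : ℕ} {M : GL (Fin q) ℤ} (h : VirtTorus Γ q M) :
    Nonempty (WPre Γ q 1) := by
  obtain ⟨f, H, hfin, hinj, hmem, hmul⟩ := h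
  have hleft : ∀ x, Function.invFun f (f x) = x := Function.leftInverse_invFun hinj
  refine ⟨{ N := H
            fin := hfin
            ι := fun a => f (a, 0)
            ι_add := ?_
            ι_inj := ?_
            ι_mem := ?_
            π := fun g _ => (Function.invFun f g).2
            π_mul := ?_
            π_ι := ?_
            π_ker := ?_
            π_surj := ?_ }⟩
  · intro a b
    have h := hmul a b 0 0
    rw [zpow_zero, Units.val_one, one_mulVec, add_zero] at h
    exact h.symm
  · intro a b hab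
    have h := hinj hab
    exact (Prod.mk.inj h).1
  · intro a
    exact (hmem _).2 ⟨_, rfl⟩
  · intro g hg g' hg'
    obtain ⟨⟨a, j⟩, rfl⟩ := (hmem g).1 hg
    obtain ⟨⟨b, k⟩, rfl⟩ := (hmem g').1 hg'
    funext i
    simp only [Pi.add_apply]
    rw [hmul, hleft, hleft, hleft]
  · intro a
    funext i
    simp only [Pi.zero_apply]
    rw [hleft]
  · intro g hg h0
    obtain ⟨⟨a, j⟩, rfl⟩ := (hmem g).1 hg
    have h := congrFun h0 0
    simp only [Pi.zero_apply] at h
    rw [hleft] at h
    simp only at h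
    subst h
    exact ⟨a, rfl⟩
  · intro x
    refine ⟨f (0, x 0), (hmem _).2 ⟨_, rfl⟩, ?_⟩
    funext i
    rw [hleft, Subsingleton.elim i 0]

end H59E
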