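import Pool.Agent.H.MP_7a8a58_gt.h59.Defs

/-! # Module Transfer: averaging of 1-cocycles

`m` the index of `N`, `s : Γ ⧸ N → Γ` a section (`Quotient.out`), and
`Z g = (1/m) ∑_{x : Γ ⧸ N} ρ (s (g x)) (z (s (g x)⁻¹ * g * s x))` (`g x` = the action of `Γ` on `Γ ⧸ N`;
`s (g x)⁻¹ * g * s x ∈ N`).
Cocycle: `s (g h x)⁻¹ g h s x = [s (g h x)⁻¹ g s (h x)] [s (h x)⁻¹ h s x]`, so with `hz`
`ρ (s (g h x)) z (..) = ρ (s (g h x)) z (first) + ρ (g s (h x)) z (second)`; sum over `x`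
(substitution `y = h x` in the first sum, `Equiv.sum_comp`).
For `a ∈ N` (`N` normal): `a x = x` (`a s x = s x (s x)⁻¹ a s x ∈ s x N`), so
`Z a = (1/m) ∑_x ρ (s x) (z ((s x)⁻¹ a s x)) = z a` if all the terms are `z a`. -/

set_option autoImplicit false

namespace H59E

theorem transfer {Γ E : Type*} [Group Γ] [AddCommGroup E] [Module ℚ E]
    (ρ : Γ →* (E →ₗ[ℚ] E)) (N : Subgroup Γ) [N.Normal] [N.FiniteIndex] (z : Γ → E)
    (hz : ∀ g ∈ N, ∀ h ∈ N, z (g * h) = z g + ρ g (z h)) :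
    ∃ Z : Γ → E, (∀ g h, Z (g * h) = Z g + ρ g (Z h)) ∧
      ∀ a ∈ N, (∀ g, ρ g (z (g⁻¹ * a * g)) = z a) → Z a = z a := by
  classical
  have : Fintype (Γ ⧸ N) := Fintype.ofFinite _
  obtain ⟨s, hs⟩ : ∃ s : Γ ⧸ N → Γ, ∀ x, ((s x : Γ) : Γ ⧸ N) = x :=
    ⟨Quotient.out, fun x => QuotientGroup.out_eq' x⟩
  obtain ⟨t, ht⟩ : ∃ t : Γ → Γ ⧸ N → Γ, ∀ g x, t g x = (s ((g : Γ ⧸ N) * x))⁻¹ * g * s x :=
    ⟨_, fun _ _ => rfl⟩
  have htN : ∀ g x, t g x ∈ N := by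
    intro g x
    rw [← QuotientGroup.eq_one_iff, ht, QuotientGroup.mk_mul, QuotientGroup.mk_mul,
      QuotientGroup.mk_inv, hs, hs]
    group
  have hm : ((Fintype.card (Γ ⧸ N) : ℕ) : ℚ) ≠ 0 := by
    exact_mod_cast Fintype.card_ne_zero
  refine ⟨fun g => ((Fintype.card (Γ ⧸ N) : ℕ) : ℚ)⁻¹ •
    ∑ x : Γ ⧸ N, ρ (s ((g : Γ ⧸ N) * x)) (z (t g x)), fun g h => ?_, fun a ha hinv => ?_⟩
  · have h1 : ∀ x, ρ (s (((g * h : Γ) : Γ ⧸ N) * x)) (z (t (g * h) x)) =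
        ρ (s ((g : Γ ⧸ N) * ((h : Γ ⧸ N) * x))) (z (t g ((h : Γ ⧸ N) * x))) +
          ρ g (ρ (s ((h : Γ ⧸ N) * x)) (z (t h x))) := by
      intro x
      have e1 : ((g * h : Γ) : Γ ⧸ N) * x = (g : Γ ⧸ N) * ((h : Γ ⧸ N) * x) := by
        rw [QuotientGroup.mk_mul, mul_assoc]
      have e2 : t (g * h) x = t g ((h : Γ ⧸ N) * x) * t h x := by
        rw [ht, ht, ht, e1]
        group
      have e3 : s ((g : Γ ⧸ N) * ((h : Γ ⧸ N) * x)) * t g ((h : Γ ⧸ N) * x) =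
          g * s ((h : Γ ⧸ N) * x) := by
        rw [ht]
        group
      rw [e1, e2, hz _ (htN _ _) _ (htN _ _), map_add]
      congr 1
      rw [← Module.End.mul_apply, ← map_mul, e3, map_mul, Module.End.mul_apply]
    have h2 : ∑ x : Γ ⧸ N, ρ (s ((g : Γ ⧸ N) * ((h : Γ ⧸ N) * x)))
        (z (t g ((h : Γ ⧸ N) * x))) = ∑ y : Γ ⧸ N, ρ (s ((g : Γ ⧸ N) * y)) (z (t g y)) :=
      Equiv.sum_comp (Equiv.mulLeft (h : Γ ⧸ N))
        (fun y => ρ (s ((g : Γ ⧸ N) * y)) (z (t g y)))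
    show _ • _ = _ • _ + ρ g (_ • _)
    rw [Finset.sum_congr rfl fun x _ => h1 x, Finset.sum_add_distrib, h2, smul_add, map_smul,
      map_sum]
  · have h1 : (a : Γ ⧸ N) = 1 := (QuotientGroup.eq_one_iff a).2 ha
    have h2 : ∀ x : Γ ⧸ N, ρ (s ((a : Γ ⧸ N) * x)) (z (t a x)) = z a := by
      intro x
      rw [ht, h1, one_mul]
      exact hinv (s x)
    show _ • _ = _
    rw [Finset.sum_congr rfl fun x _ => h2 x, Finset.sum_const, Finset.card_univ,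
      ← Nat.cast_smul_eq_nsmul ℚ, smul_smul, inv_mul_cancel₀ hm, one_smul]

end H59E
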