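import Pool.Agent.H.MP_7a8a58_gt.h59.Defs

/-! # Module Unif: finite generation and uniform denominators

`WPre.fg`: let `S` be the finite set of the `ι (Pi.single i 1)`, of elements `h_j ∈ N` with
`π h_j = Pi.single j 1`, and of representatives of `Γ ⧸ N` (`N` has finite index).  The closure of
`S` contains `range ι` (additivity; `ℤ^q` is generated by the unit vectors), then `N` (for `g ∈ N`
there is a product `h` of powers of the `h_j`, in the closure, with `π h = π g`; `g * h⁻¹ ∈ range ι`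
by `π_ker`), then `Γ`.
`exists_uniform`: take a finite generating set `S` and `d` = the product of the `d`'s of the
elements of `S`; `{g | P d g}` is a subgroup containing `S`. -/

set_option autoImplicit false

namespace H59E

/-- an additive subgroup of `ℤ^n` that contains the unit vectors is everything -/
private theorem Unif_top {n : ℕ} (K : AddSubgroup (Fin n → ℤ))
    (h : ∀ i, (Pi.single i 1 : Fin n → ℤ) ∈ K) (a : Fin n → ℤ) : a ∈ K := by
  rw [← Finset.univ_sum_single a]
  refine K.sum_mem fun i _ => ?_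
  have h1 : (Pi.single i (a i) : Fin n → ℤ) = a i • Pi.single i 1 := by
    ext j
    by_cases hj : j = i
    · subst hj
      simp
    · simp [Pi.single_eq_of_ne hj]
  rw [h1]
  exact K.zsmul_mem (h i) _

theorem WPre.fg {Γ : Type} [Group Γ] {q p : ℕ} (D : WPre Γ q p) : Group.FG Γ := by
  classical
  have hfi := D.fin
  have hfin : Finite (Γ ⧸ D.N) := Subgroup.finite_quotient_of_finiteIndex
  choose hh hhN hhπ using fun j : Fin p => D.π_surj (Pi.single j 1)
  obtain ⟨S, hS⟩ : ∃ S : Set Γ, S = Set.range (fun i : Fin q => D.ι (Pi.single i 1)) ∪ Set.range hh ∪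
    Set.range (fun x : Γ ⧸ D.N => Quotient.out x) := ⟨_, rfl⟩
  have hSf : S.Finite := by
    rw [hS]
    exact ((Set.finite_range _).union (Set.finite_range _)).union (Set.finite_range _)
  rw [Group.fg_iff]
  refine ⟨S, ?_, hSf⟩
  have m1 : ∀ i : Fin q, D.ι (Pi.single i 1) ∈ Subgroup.closure S := fun i =>
    Subgroup.subset_closure (by rw [hS]; exact Or.inl (Or.inl ⟨i, rfl⟩))
  have m2 : ∀ j : Fin p, hh j ∈ Subgroup.closure S := fun j =>
    Subgroup.subset_closure (by rw [hS]; exact Or.inl (Or.inr ⟨j, rfl⟩))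
  have m3 : ∀ x : Γ ⧸ D.N, Quotient.out x ∈ Subgroup.closure S := fun x =>
    Subgroup.subset_closure (by rw [hS]; exact Or.inr ⟨x, rfl⟩)
  have hι : ∀ a, D.ι a ∈ Subgroup.closure S := by
    intro a
    let K : AddSubgroup (Fin q → ℤ) :=
      { carrier := {a | D.ι a ∈ Subgroup.closure S}
        zero_mem' := by
          show D.ι 0 ∈ Subgroup.closure S
          rw [D.ι_zero]
          exact Subgroup.one_mem _
        add_mem' := fun {a b} ha hb => by
          show D.ι (a + b) ∈ Subgroup.closure S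
          rw [D.ι_add]
          exact Subgroup.mul_mem _ ha hb
        neg_mem' := fun {a} ha => by
          show D.ι (-a) ∈ Subgroup.closure S
          rw [D.ι_neg]
          exact Subgroup.inv_mem _ ha }
    exact Unif_top K m1 a
  have hN : ∀ g ∈ D.N, g ∈ Subgroup.closure S := by
    intro g hg
    let K : AddSubgroup (Fin p → ℤ) :=
      { carrier := {x | ∃ h ∈ D.N, h ∈ Subgroup.closure S ∧ D.π h = x}
        zero_mem' := ⟨1, D.N.one_mem, Subgroup.one_mem _, D.π_one⟩
        add_mem' := by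
          rintro x y ⟨h, h1, h2, rfl⟩ ⟨k, k1, k2, rfl⟩
          exact ⟨h * k, D.N.mul_mem h1 k1, Subgroup.mul_mem _ h2 k2, D.π_mul h h1 k k1⟩
        neg_mem' := by
          rintro x ⟨h, h1, h2, rfl⟩
          exact ⟨h⁻¹, D.N.inv_mem h1, Subgroup.inv_mem _ h2, D.π_inv h1⟩ }
    obtain ⟨h, h1, h2, h3⟩ : D.π g ∈ K := Unif_top K (fun j => ⟨hh j, hhN j, m2 j, hhπ j⟩) _
    obtain ⟨a, ha⟩ := D.π_ker (g * h⁻¹) (D.N.mul_mem hg (D.N.inv_mem h1)) (by
      rw [D.π_mul g hg _ (D.N.inv_mem h1), D.π_inv h1, h3, add_neg_cancel])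
    have h4 : g = D.ι a * h := by rw [← ha, inv_mul_cancel_right]
    rw [h4]
    exact Subgroup.mul_mem _ (hι a) h2
  rw [eq_top_iff]
  intro g _
  have h1 : (Quotient.out (g : Γ ⧸ D.N))⁻¹ * g ∈ D.N := by
    rw [← QuotientGroup.eq]
    exact QuotientGroup.out_eq' _
  have h2 : g = Quotient.out (g : Γ ⧸ D.N) * ((Quotient.out (g : Γ ⧸ D.N))⁻¹ * g) := by
    rw [mul_inv_cancel_left]
  rw [h2]
  exact Subgroup.mul_mem _ (m3 _) (hN _ h1)

theorem exists_uniform {Γ : Type*} [Group Γ] (hfg : Group.FG Γ) (P : ℕ → Γ → Prop)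
    (h_one : ∀ d, P d 1) (h_mul : ∀ d g h, P d g → P d h → P d (g * h))
    (h_inv : ∀ d g, P d g → P d g⁻¹) (h_dvd : ∀ d e g, P d g → P (d * e) g)
    (h_ex : ∀ g, ∃ d, 0 < d ∧ P d g) : ∃ d, 0 < d ∧ ∀ g, P d g := by
  classical
  obtain ⟨S, hS, hfin⟩ := Group.fg_iff.1 hfg
  choose d hd hP using h_ex
  refine ⟨∏ s ∈ hfin.toFinset, d s, Finset.prod_pos fun s _ => hd s, fun g => ?_⟩
  have hg : g ∈ Subgroup.closure S := by rw [hS]; exact Subgroup.mem_top g
  induction hg using Subgroup.closure_induction with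
  | mem s hs =>
    have h1 : s ∈ hfin.toFinset := hfin.mem_toFinset.2 hs
    rw [← Finset.mul_prod_erase _ _ h1]
    exact h_dvd _ _ _ (hP s)
  | one => exact h_one _
  | mul x y _ _ hx hy => exact h_mul _ _ _ hx hy
  | inv x _ hx => exact h_inv _ _ hx

end H59E
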